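import Pool.Agent.Bubble.Cube

/-! Translation to paths in `ℤ^d` and to the critical two-point function. -/

namespace Pool.Agent.Bubble

open Finset Pool.Agent.SubBall Filter Topology
open Classical
open scoped ENNReal

theorem card_saws_pos (m n : ℕ) : (0 : ℝ) < ((saws (stv m) n).card : ℝ) := by
  rw [← card_saws_eq (stv m) (cy m)]
  exact Z_pos (good_cy m).e n le_rfl

theorem card_saws_add_le (m a b : ℕ) : ((saws (stv m) (a + b)).card : ℝ) ≤
    (saws (stv m) a).card * (saws (stv m) b).card := by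
  have h := Z_add_le (stv m) (cy m) a b 0
  rwa [card_saws_eq, card_saws_eq, card_saws_eq] at h

/-- existence of the connective constant and basic bounds -/
theorem exists_mu (m : ℕ) : ∃ μ : ℝ, 0 < μ ∧ (∀ n, 1 ≤ an (stv m) μ n) ∧
    (∀ ε : ℝ, 0 < ε → ∃ C : ℝ, ∀ n : ℕ, an (stv m) μ n ≤ C * Real.exp (ε * n)) ∧
    Tendsto (fun n : ℕ => ((saws (stv m) n).card : ℝ) ^ (1 / (n : ℝ))) atTop (𝓝 μ) := by
  set u : ℕ → ℝ := fun n => Real.log ((saws (stv m) n).card) with hu
  have hpos := card_saws_pos m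
  have hsub : Subadditive u := by
    intro a b
    simp only [hu]
    rw [← Real.log_mul (hpos a).ne' (hpos b).ne']
    exact Real.log_le_log (hpos _) (card_saws_add_le m a b)
  have hone : ∀ n, (1 : ℝ) ≤ (saws (stv m) n).card := by
    intro n
    have : 0 < (saws (stv m) n).card := by exact_mod_cast hpos n
    exact_mod_cast this
  have hbdd : BddBelow (Set.range (fun n : ℕ => u n / n)) := by
    refine ⟨0, ?_⟩
    rintro _ ⟨n, rfl⟩
    exact div_nonneg (Real.log_nonneg (hone n)) (Nat.cast_nonneg _)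
  have hlim := hsub.tendsto_lim hbdd
  refine ⟨Real.exp hsub.lim, Real.exp_pos _, ?_, ?_, ?_⟩
  · intro n
    unfold an
    rw [one_le_div (by positivity), ← Real.exp_nat_mul]
    rcases Nat.eq_zero_or_pos n with h0 | h0
    · subst h0
      simpa using hone 0
    · have h1 := hsub.lim_le_div hbdd h0.ne'
      have hn : (0 : ℝ) < n := by exact_mod_cast h0
      rw [le_div_iff₀ hn] at h1
      rw [← Real.le_log_iff_exp_le (hpos n)]
      linarith
  · intro ε hε
    have h1 := hlim.eventually (gt_mem_nhds (show hsub.lim < hsub.lim + ε by linarith))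
    rw [eventually_atTop] at h1
    obtain ⟨N, hN⟩ := h1
    set C : ℝ := 1 + ∑ k ∈ range (N + 1), an (stv m) (Real.exp hsub.lim) k with hC
    have han : ∀ k, 0 ≤ an (stv m) (Real.exp hsub.lim) k := fun k =>
      an_nonneg _ (Real.exp_pos _) k
    have hC1 : 1 ≤ C := by
      have := Finset.sum_nonneg (s := range (N + 1)) (fun k _ => han k)
      linarith
    refine ⟨C, fun n => ?_⟩
    have hexp : 1 ≤ Real.exp (ε * n) := Real.one_le_exp (by positivity)
    rcases le_or_gt n N with h2 | h2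
    · have h3 := Finset.single_le_sum (f := fun k => an (stv m) (Real.exp hsub.lim) k)
        (fun k _ => han k) (Finset.mem_range.2 (Nat.lt_succ_of_le h2))
      have h4 : an (stv m) (Real.exp hsub.lim) n ≤ C := by
        rw [hC]
        linarith
      nlinarith [han n]
    · have hn : (0 : ℝ) < n := by
        have : 0 < n := by omega
        exact_mod_cast this
      have h3 := hN n h2.le
      rw [div_lt_iff₀ hn] at h3
      have h4 : an (stv m) (Real.exp hsub.lim) n ≤ Real.exp (ε * n) := by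
        unfold an
        rw [div_le_iff₀ (by positivity), ← Real.exp_nat_mul, ← Real.exp_add,
          ← Real.log_le_iff_le_exp (hpos n)]
        have : u n = Real.log ((saws (stv m) n).card) := rfl
        rw [← this]
        nlinarith
      nlinarith [Real.exp_pos (ε * n)]
  · have h1 := (Real.continuous_exp.tendsto _).comp hlim
    refine h1.congr' ?_
    filter_upwards [eventually_gt_atTop 0] with n hn
    simp only [Function.comp, hu]
    rw [Real.rpow_def_of_pos (hpos n)]
    congr 1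
    ring

theorem wc_eq {S V : Type} [Fintype S] [Inhabited S] [AddCommGroup V] (vec : S → V)
    (m n : ℕ) : (wc vec m n : ℝ≥0∞) = ∑' x : V, (cnx vec m x : ℝ≥0∞) * (cnx vec n x : ℝ≥0∞) := by
  have h1 : ∑' x : V, (cnx vec m x : ℝ≥0∞) * (cnx vec n x : ℝ≥0∞) =
      ∑ x ∈ (saws vec m).image (fun w => pos vec w m),
        (cnx vec m x : ℝ≥0∞) * (cnx vec n x : ℝ≥0∞) := by
    refine tsum_eq_sum (fun x hx => ?_)
    have : cnx vec m x = 0 := by
      unfold cnx
      rw [Finset.card_eq_zero, Finset.filter_eq_empty_iff]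
      intro w hw he
      exact hx (Finset.mem_image.2 ⟨w, hw, he⟩)
    rw [this]
    simp
  rw [h1]
  have h2 : wc vec m n = ∑ x ∈ (saws vec m).image (fun w => pos vec w m),
      cnx vec m x * cnx vec n x := by
    unfold wc
    rw [Finset.card_eq_sum_card_fiberwise (f := fun p => pos vec p.1 m)
      (t := (saws vec m).image (fun w => pos vec w m))
      (fun p hp => by
        rw [Finset.mem_coe, Finset.mem_filter, Finset.mem_product] at hp
        exact Finset.mem_coe.2 (Finset.mem_image.2 ⟨p.1, hp.1.1, rfl⟩))]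
    refine Finset.sum_congr rfl (fun x _ => ?_)
    unfold cnx
    rw [← Finset.card_product]
    congr 1
    ext p
    simp only [Finset.mem_product, Finset.mem_filter]
    constructor
    · rintro ⟨⟨⟨a, c⟩, e⟩, b⟩
      exact ⟨⟨a, b⟩, c, by rw [← e, b]⟩
    · rintro ⟨⟨a, b⟩, c, d⟩
      exact ⟨⟨⟨a, c⟩, by rw [b, d]⟩, b⟩
  rw [h2]
  push_cast
  rfl

/-- the bubble diagram as a sum of squares of the critical two-point function -/
theorem bubble_eq {S V : Type} [Fintype S] [Inhabited S] [AddCommGroup V] (vec : S → V)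
    {μ : ℝ} (hμ : 0 < μ) :
    ∑' p : ℕ × ℕ, ENNReal.ofReal (W vec μ p) =
      ∑' x : V, (∑' n : ℕ, ENNReal.ofReal ((cnx vec n x : ℝ) / μ ^ n)) ^ 2 := by
  have h1 : ∀ p : ℕ × ℕ, ENNReal.ofReal (W vec μ p) =
      ∑' x : V, ENNReal.ofReal ((cnx vec p.1 x : ℝ) / μ ^ p.1) *
        ENNReal.ofReal ((cnx vec p.2 x : ℝ) / μ ^ p.2) := by
    rintro ⟨m, n⟩
    unfold W
    simp only
    rw [ENNReal.ofReal_div_of_pos (by positivity), ENNReal.ofReal_natCast, wc_eq,
      div_eq_mul_inv, ← ENNReal.tsum_mul_right]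
    refine tsum_congr (fun x => ?_)
    rw [ENNReal.ofReal_div_of_pos (by positivity), ENNReal.ofReal_div_of_pos (by positivity),
      ENNReal.ofReal_natCast, ENNReal.ofReal_natCast, div_eq_mul_inv, div_eq_mul_inv,
      pow_add, ENNReal.ofReal_mul (by positivity), ENNReal.mul_inv
        (Or.inl (by
          have : 0 < μ ^ m := by positivity
          simpa using this)) (Or.inl ENNReal.ofReal_ne_top)]
    ring
  calc ∑' p : ℕ × ℕ, ENNReal.ofReal (W vec μ p)
      = ∑' p : ℕ × ℕ, ∑' x : V, ENNReal.ofReal ((cnx vec p.1 x : ℝ) / μ ^ p.1) *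
        ENNReal.ofReal ((cnx vec p.2 x : ℝ) / μ ^ p.2) := tsum_congr h1
    _ = ∑' x : V, ∑' p : ℕ × ℕ, ENNReal.ofReal ((cnx vec p.1 x : ℝ) / μ ^ p.1) *
        ENNReal.ofReal ((cnx vec p.2 x : ℝ) / μ ^ p.2) := ENNReal.tsum_comm
    _ = ∑' x : V, (∑' n : ℕ, ENNReal.ofReal ((cnx vec n x : ℝ) / μ ^ n)) ^ 2 := by
        refine tsum_congr (fun x => ?_)
        rw [ENNReal.tsum_prod (f := fun m n => ENNReal.ofReal ((cnx vec m x : ℝ) / μ ^ m) *
          ENNReal.ofReal ((cnx vec n x : ℝ) / μ ^ n)), sq, ← ENNReal.tsum_mul_right]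
        refine tsum_congr (fun m => ?_)
        rw [ENNReal.tsum_mul_left]

/-- the bubble diagram of `ℤ³` is infinite, for the walks as sequences of steps -/
theorem bubble_top {μ : ℝ} (hμ : 0 < μ) (h1 : ∀ n, 1 ≤ an (stv 1) μ n)
    (h2 : ∀ ε : ℝ, 0 < ε → ∃ C : ℝ, ∀ n : ℕ, an (stv 1) μ n ≤ C * Real.exp (ε * n)) :
    ∑' x : Vt 1, (∑' n : ℕ, ENNReal.ofReal ((cnx (stv 1) n x : ℝ) / μ ^ n)) ^ 2 = ⊤ := by
  by_contra hne
  rw [← bubble_eq (stv 1) hμ] at hne
  have hs := ENNReal.summable_toReal hne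
  have hW : Summable (W (stv 1) μ) := by
    refine hs.congr (fun p => ?_)
    rw [ENNReal.toReal_ofReal (W_nonneg _ hμ p)]
  exact (Crit.cr (sNeg 1) (sNeg_L 1) ⟨hμ, h1, h2, hW⟩).absurd3

end Pool.Agent.Bubble
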