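import Pool.Agent.Bubble.Join

/-! If the bubble diagram is finite, then `c_n / μ ^ n` is bounded by its value. -/

namespace Pool.Agent.Bubble

open Finset Pool.Agent.SubBall
open Classical

variable {S V : Type} [Fintype S] [Inhabited S] [AddCommGroup V]

/-- normalised number of walks -/
noncomputable def an (vec : S → V) (μ : ℝ) (n : ℕ) : ℝ := (saws vec n).card / μ ^ n

/-- normalised number of pairs with the same endpoint -/
noncomputable def W (vec : S → V) (μ : ℝ) (p : ℕ × ℕ) : ℝ := wc vec p.1 p.2 / μ ^ (p.1 + p.2)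

/-- the standing assumptions -/
structure Crit (vec : S → V) (μ : ℝ) : Prop where
  mpos : 0 < μ
  one_le : ∀ n, 1 ≤ an vec μ n
  up : ∀ ε : ℝ, 0 < ε → ∃ C : ℝ, ∀ n : ℕ, an vec μ n ≤ C * Real.exp (ε * n)
  sum : Summable (W vec μ)

/-- the bubble diagram -/
noncomputable def KK (vec : S → V) (μ : ℝ) : ℝ := ∑' p : ℕ × ℕ, W vec μ p

theorem W_nonneg (vec : S → V) {μ : ℝ} (hμ : 0 < μ) (p : ℕ × ℕ) : 0 ≤ W vec μ p := by
  unfold W; positivity

theorem an_nonneg (vec : S → V) {μ : ℝ} (hμ : 0 < μ) (n : ℕ) : 0 ≤ an vec μ n := by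
  unfold an; positivity

theorem wc_zero (vec : S → V) : wc vec 0 0 = 1 := by
  unfold wc
  rw [saws_zero]
  simp

theorem Crit.one_le_KK {vec : S → V} {μ : ℝ} (h : Crit vec μ) : 1 ≤ KK vec μ := by
  have h1 : W vec μ (0, 0) = 1 := by
    unfold W
    simp [wc_zero]
  rw [← h1]
  exact h.sum.le_tsum (0, 0) (fun p _ => W_nonneg vec h.mpos p)

theorem an_mul_le {vec : S → V} (ν : Sym vec) (hν : ∀ v, ν.L v = -v) {μ : ℝ} (hμ : 0 < μ)
    (m n : ℕ) : an vec μ m * an vec μ n ≤
      ∑ p ∈ range (m + 1) ×ˢ range (n + 1),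
        W vec μ p * an vec μ ((m - p.1) + (n - p.2)) := by
  have h1 := card_mul_le ν hν m n
  have h2 : ((saws vec m).card : ℝ) * (saws vec n).card ≤
      ∑ p ∈ range (m + 1) ×ˢ range (n + 1),
        (wc vec p.1 p.2 : ℝ) * (saws vec ((m - p.1) + (n - p.2))).card := by
    exact_mod_cast h1
  unfold an
  rw [div_mul_div_comm, ← pow_add, div_le_iff₀ (by positivity), Finset.sum_mul]
  refine le_trans h2 (Finset.sum_le_sum ?_)
  rintro ⟨i, j⟩ hp
  rw [Finset.mem_product, Finset.mem_range, Finset.mem_range] at hp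
  simp only at hp ⊢
  unfold W
  simp only
  rw [div_mul_div_comm, ← pow_add]
  have h3 : i + j + (m - i + (n - j)) = m + n := by omega
  rw [h3, div_mul_cancel₀ _ (by positivity)]

theorem Crit.step {vec : S → V} (ν : Sym vec) (hν : ∀ v, ν.L v = -v) {μ : ℝ}
    (h : Crit vec μ) {n : ℕ} {T : ℝ} (hT : ∀ k ≤ 2 * n, an vec μ k ≤ T) :
    an vec μ n ^ 2 ≤ KK vec μ * T := by
  have h0 : 0 ≤ T := le_trans (an_nonneg vec h.mpos 0) (hT 0 (Nat.zero_le _))
  rw [sq]
  refine le_trans (an_mul_le ν hν h.mpos n n) ?_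
  calc ∑ p ∈ range (n + 1) ×ˢ range (n + 1), W vec μ p * an vec μ ((n - p.1) + (n - p.2))
      ≤ ∑ p ∈ range (n + 1) ×ˢ range (n + 1), W vec μ p * T := by
        refine Finset.sum_le_sum ?_
        intro p _
        exact mul_le_mul_of_nonneg_left (hT _ (by omega)) (W_nonneg vec h.mpos p)
    _ = (∑ p ∈ range (n + 1) ×ˢ range (n + 1), W vec μ p) * T := by rw [Finset.sum_mul]
    _ ≤ KK vec μ * T := by
        refine mul_le_mul_of_nonneg_right ?_ h0
        exact h.sum.sum_le_tsum _ (fun p _ => W_nonneg vec h.mpos p)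

/-- super-exponential growth along doubling scales -/
theorem Crit.grow {vec : S → V} (ν : Sym vec) (hν : ∀ v, ν.L v = -v) {μ : ℝ}
    (h : Crit vec μ) {n : ℕ} (j : ℕ) :
    ∃ k ≤ 2 ^ j * n, KK vec μ * (an vec μ n / KK vec μ) ^ 2 ^ j ≤ an vec μ k := by
  have hK : 0 < KK vec μ := lt_of_lt_of_le one_pos h.one_le_KK
  induction j with
  | zero =>
    refine ⟨n, by simp, ?_⟩
    rw [pow_zero, pow_one, mul_div_cancel₀ _ hK.ne']
  | succ j ih =>
    obtain ⟨k, hk, hk'⟩ := ih
    by_contra hc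
    push Not at hc
    have h1 : ∀ l ≤ 2 * k, an vec μ l ≤
        KK vec μ * (an vec μ n / KK vec μ) ^ 2 ^ (j + 1) := by
      intro l hl
      refine (hc l ?_).le
      calc l ≤ 2 * k := hl
        _ ≤ 2 * (2 ^ j * n) := by omega
        _ = 2 ^ (j + 1) * n := by ring
    obtain ⟨l, hl, hmax⟩ := Finset.exists_max_image (range (2 * k + 1)) (an vec μ)
      ⟨0, Finset.mem_range.2 (by omega)⟩
    rw [Finset.mem_range] at hl
    have h2 := h.step ν hν (n := k) (T := an vec μ l)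
      (fun i hi => hmax i (Finset.mem_range.2 (by omega)))
    have h3 := hc l (by
      calc l ≤ 2 * k := by omega
        _ ≤ 2 * (2 ^ j * n) := by omega
        _ = 2 ^ (j + 1) * n := by ring)
    have hr : 0 ≤ an vec μ n / KK vec μ := div_nonneg (an_nonneg vec h.mpos n) hK.le
    have h4 : (KK vec μ * (an vec μ n / KK vec μ) ^ 2 ^ j) ^ 2 ≤ an vec μ k ^ 2 :=
      pow_le_pow_left₀ (by positivity) hk' 2
    have h5 : (KK vec μ * (an vec μ n / KK vec μ) ^ 2 ^ j) ^ 2 =
        KK vec μ * (KK vec μ * (an vec μ n / KK vec μ) ^ 2 ^ (j + 1)) := by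
      rw [pow_succ 2 j, pow_mul]
      ring
    rw [h5] at h4
    have h6 := mul_lt_mul_of_pos_left h3 hK
    linarith

theorem Crit.le_KK {vec : S → V} (ν : Sym vec) (hν : ∀ v, ν.L v = -v) {μ : ℝ}
    (h : Crit vec μ) (n : ℕ) : an vec μ n ≤ KK vec μ := by
  by_contra hc
  push Not at hc
  have hK1 := h.one_le_KK
  have hK : 0 < KK vec μ := lt_of_lt_of_le one_pos hK1
  set r : ℝ := an vec μ n / KK vec μ with hr
  have hr1 : 1 < r := by rw [hr, one_lt_div hK]; exact hc
  have hr0 : 0 < r := by linarith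
  have hlog : 0 < Real.log r := Real.log_pos hr1
  set ε : ℝ := Real.log r / (2 * (n + 1)) with hε
  have hε0 : 0 < ε := by positivity
  obtain ⟨C, hC⟩ := h.up ε hε0
  have hC0 : 0 ≤ C := by
    have := hC 0
    simp only [Nat.cast_zero, mul_zero, Real.exp_zero, mul_one] at this
    exact le_trans (an_nonneg vec h.mpos 0) this
  -- for all `j`, `r ^ 2 ^ j ≤ C * exp (2 ^ j * log r / 2)`
  have key : ∀ j : ℕ, Real.exp ((2 : ℝ) ^ j * (Real.log r / 2)) ≤ C := by
    intro j
    obtain ⟨k, hk, hk'⟩ := h.grow ν hν (n := n) j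
    rw [← hr] at hk'
    have h1 := hC k
    have h2 : ε * k ≤ (2 : ℝ) ^ j * (Real.log r / 2) := by
      have hk2 : (k : ℝ) ≤ 2 ^ j * n := by exact_mod_cast hk
      have hn : (0 : ℝ) ≤ n := Nat.cast_nonneg n
      have h3 : (k : ℝ) ≤ 2 ^ j * (n + 1) := by
        have : (0 : ℝ) ≤ 2 ^ j := by positivity
        nlinarith
      calc ε * k ≤ ε * (2 ^ j * (n + 1)) := mul_le_mul_of_nonneg_left h3 hε0.le
        _ = (2 : ℝ) ^ j * (Real.log r / 2) := by
            rw [hε]
            field_simp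
    have h4 : r ^ 2 ^ j = Real.exp ((2 : ℝ) ^ j * Real.log r) := by
      rw [← Real.exp_log hr0, ← Real.exp_nat_mul, Real.log_exp]
      push_cast
      rfl
    have h5 : r ^ 2 ^ j ≤ KK vec μ * r ^ 2 ^ j := by
      have : 0 ≤ r ^ 2 ^ j := by positivity
      nlinarith
    have h6 : Real.exp ((2 : ℝ) ^ j * Real.log r) ≤
        C * Real.exp ((2 : ℝ) ^ j * (Real.log r / 2)) := by
      rw [← h4]
      refine le_trans h5 (le_trans hk' (le_trans h1 ?_))
      exact mul_le_mul_of_nonneg_left (Real.exp_le_exp.2 h2) hC0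
    have h7 : Real.exp ((2 : ℝ) ^ j * Real.log r) =
        Real.exp ((2 : ℝ) ^ j * (Real.log r / 2)) * Real.exp ((2 : ℝ) ^ j * (Real.log r / 2)) := by
      rw [← Real.exp_add]
      congr 1
      ring
    rw [h7] at h6
    exact le_of_mul_le_mul_right h6 (Real.exp_pos _)
  have h8 : ∀ j : ℕ, (j : ℝ) * (Real.log r / 2) ≤ C := by
    intro j
    refine le_trans ?_ (key j)
    have h9 : (j : ℝ) ≤ 2 ^ j := by exact_mod_cast (Nat.lt_two_pow_self (n := j)).le
    have h10 : (j : ℝ) * (Real.log r / 2) ≤ 2 ^ j * (Real.log r / 2) :=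
      mul_le_mul_of_nonneg_right h9 (by positivity)
    have h11 := Real.add_one_le_exp ((2 : ℝ) ^ j * (Real.log r / 2))
    linarith
  obtain ⟨j, hj⟩ := exists_nat_gt (C / (Real.log r / 2))
  rw [div_lt_iff₀ (by positivity)] at hj
  exact absurd (h8 j) (not_le.2 hj)

end Pool.Agent.Bubble
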