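import Pool.Agent.Bubble.Lim

/-! Second moments of blocks, persistence and cross terms. -/

namespace Pool.Agent.Bubble

open Finset Pool.Agent.SubBall Filter Topology
open Classical

variable {S V : Type} [Fintype S] [Inhabited S] [AddCommGroup V]

/-- displacement -/
def xv (vec : S → V) (φ : V →+ ℤ) (n : ℕ) (u : ℕ → S) : ℝ := ((φ (pos vec u n) : ℤ) : ℝ)

/-- second moment of the displacement -/
noncomputable def en (vec : S → V) (φ : V →+ ℤ) (μ : ℝ) (n : ℕ) : ℝ :=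
  Ex vec μ n (fun u => xv vec φ n u ^ 2)

/-- one step of the displacement -/
def fx (vec : S → V) (φ : V →+ ℤ) (x : (ℕ → S) × ℕ) : ℝ := ((φ (vec (x.1 x.2)) : ℤ) : ℝ)

omit [Fintype S] [Inhabited S] in
theorem xv_abs_le {vec : S → V} {φ : V →+ ℤ} (hφ : Lip vec φ) (n : ℕ) (u : ℕ → S) :
    |xv vec φ n u| ≤ n := by
  unfold xv
  have := hφ.abs_pos_le u n
  rw [← Int.cast_abs]
  exact_mod_cast this

omit [Fintype S] [Inhabited S] in
theorem xv_Bd {vec : S → V} {φ : V →+ ℤ} (hφ : Lip vec φ) (n : ℕ) : Bd (xv vec φ n) :=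
  ⟨n, xv_abs_le hφ n⟩

omit [Fintype S] in
theorem xv_cut (vec : S → V) (φ : V →+ ℤ) (n : ℕ) (u : ℕ → S) :
    xv vec φ n (cut n u) = xv vec φ n u := by
  unfold xv
  rw [pos_cut vec u le_rfl]

omit [Fintype S] [Inhabited S] in
theorem fx_abs_le {vec : S → V} {φ : V →+ ℤ} (hφ : Lip vec φ) (x : (ℕ → S) × ℕ) :
    |fx vec φ x| ≤ 1 := by
  unfold fx
  have := hφ (x.1 x.2)
  rw [← Int.cast_abs]
  exact_mod_cast this

omit [Fintype S] [Inhabited S] in
theorem Sb_eq (vec : S → V) (φ : V →+ ℤ) (n : ℕ) (x : (ℕ → S) × ℕ) :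
    Sb Ts (fx vec φ) n x = xv vec φ n (sh x.2 x.1) := by
  unfold Sb xv pos
  rw [map_sum]
  push_cast
  refine Finset.sum_congr rfl (fun i _ => ?_)
  rw [Ts_iter]
  rfl

theorem Ex_split {vec : S → V} {μ : ℝ} (hμ : 0 < μ) (m n : ℕ) (F G : (ℕ → S) → ℝ)
    (hF : ∀ u, 0 ≤ F u) (hG : ∀ u, 0 ≤ G u) :
    Ex vec μ (m + n) (fun w => F (cut m w) * G (sh m w)) ≤ Ex vec μ m F * Ex vec μ n G := by
  unfold Ex
  rw [div_mul_div_comm, ← pow_add]
  refine div_le_div_of_nonneg_right ?_ (by positivity)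
  rw [Finset.sum_mul_sum]
  exact sum_split_le vec m n (fun u v => F u * G v) (fun u v => mul_nonneg (hF u) (hG v))

section

variable {vec : S → V} {μ K : ℝ} (h : Cr vec μ K) {φ : V →+ ℤ} (hφ : Lip vec φ)

include h

theorem Cr.en_nonneg (n : ℕ) : 0 ≤ en vec φ μ n := by
  have hμ := h.mpos
  unfold en Ex
  exact div_nonneg (Finset.sum_nonneg (fun _ _ => sq_nonneg _)) (by positivity)

theorem Cr.Ex_one (n : ℕ) : Ex vec μ n (fun _ => 1) ≤ K := (h.PfEx n).one

theorem Cr.Ex_block_le (a n r : ℕ) :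
    Ex vec μ (a + (n + r)) (fun w => xv vec φ n (sh a w) ^ 2) ≤ K ^ 2 * en vec φ μ n := by
  have hμ := h.mpos
  have hK := h.K_nonneg
  have h1 := Ex_split (vec := vec) hμ a (n + r) (fun _ => 1) (fun v => xv vec φ n v ^ 2)
    (fun _ => zero_le_one) (fun _ => sq_nonneg _)
  have h2 := Ex_split (vec := vec) hμ n r (fun v => xv vec φ n v ^ 2) (fun _ => 1)
    (fun _ => sq_nonneg _) (fun _ => zero_le_one)
  simp only [one_mul, mul_one, xv_cut] at h1 h2
  refine le_trans h1 ?_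
  have h3 : Ex vec μ (n + r) (fun v => xv vec φ n v ^ 2) ≤ en vec φ μ n * K :=
    le_trans h2 (mul_le_mul_of_nonneg_left (h.Ex_one r) (h.en_nonneg n))
  have h4 : 0 ≤ Ex vec μ (n + r) (fun v => xv vec φ n v ^ 2) := by
    unfold Ex
    exact div_nonneg (Finset.sum_nonneg (fun _ _ => sq_nonneg _)) (by positivity)
  calc Ex vec μ a (fun _ => 1) * Ex vec μ (n + r) (fun v => xv vec φ n v ^ 2)
      ≤ K * (en vec φ μ n * K) := mul_le_mul (h.Ex_one a) h3 h4 hK
    _ = K ^ 2 * en vec φ μ n := by ring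

include hφ

theorem Cr.Ah_block_le (a n : ℕ) :
    Ah vec μ (fun u => xv vec φ n (sh a u) ^ 2) ≤ K ^ 2 * en vec φ μ n := by
  have hμ := h.mpos
  have hK := h.K_nonneg
  have hE := h.en_nonneg (φ := φ) n
  have hB : ∀ u : ℕ → S, |xv vec φ n (sh a u) ^ 2| ≤ (n : ℝ) ^ 2 := by
    intro u
    rw [abs_of_nonneg (sq_nonneg _), ← sq_abs]
    exact pow_le_pow_left₀ (abs_nonneg _) (xv_abs_le hφ n _) 2
  have hb : ∀ M, |AM vec μ M (fun u => xv vec φ n (sh a u) ^ 2)| ≤ K * (n : ℝ) ^ 2 :=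
    fun M => (h.PfAM M).abs_le_const (by positivity) hB
  have he : Tendsto (fun M : ℕ => ((a + n : ℕ) : ℝ) * (K * (n : ℝ) ^ 2) / (M : ℝ)) atTop (𝓝 0) :=
    tendsto_const_div_atTop_nhds_zero_nat _
  refine ul_le_const hb he (Eventually.of_forall ?_)
  intro M
  rcases Nat.eq_zero_or_pos M with hM | hM
  · subst hM
    simp only [AM, range_zero, sum_empty, Nat.cast_zero, div_zero, add_zero]
    positivity
  have hM0 : (0 : ℝ) < M := by exact_mod_cast hM
  have h1 : ∀ m ∈ range M, Ex vec μ m (fun u => xv vec φ n (sh a u) ^ 2) ≤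
      K ^ 2 * en vec φ μ n + ind (m < a + n) * (K * (n : ℝ) ^ 2) := by
    intro m _
    by_cases hm : m < a + n
    · have e1 : ind (m < a + n) = 1 := by simp [ind, hm]
      have h2 := (h.PfEx m).abs_le_const (f := fun u => xv vec φ n (sh a u) ^ 2)
        (by positivity) hB
      rw [e1, one_mul]
      have h3 := le_trans (le_abs_self _) h2
      have : 0 ≤ K ^ 2 * en vec φ μ n := by positivity
      linarith
    · obtain ⟨r, rfl⟩ : ∃ r, m = a + (n + r) := ⟨m - (a + n), by omega⟩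
      have h2 := h.Ex_block_le (φ := φ) a n r
      have : 0 ≤ ind (a + (n + r) < a + n) * (K * (n : ℝ) ^ 2) :=
        mul_nonneg (ind_nonneg _) (by positivity)
      linarith
  unfold AM
  rw [div_le_iff₀ hM0]
  refine le_trans (Finset.sum_le_sum h1) ?_
  rw [Finset.sum_add_distrib, Finset.sum_const, Finset.card_range, nsmul_eq_mul,
    ← Finset.sum_mul]
  have h5 : ∑ m ∈ range M, ind (m < a + n) ≤ ((a + n : ℕ) : ℝ) := by
    have h6 : ∀ N : ℕ, ∑ m ∈ range N, ind (m < a + n) = ((min N (a + n) : ℕ) : ℝ) := by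
      intro N
      induction N with
      | zero => simp
      | succ N ih =>
        rw [Finset.sum_range_succ, ih]
        by_cases hN : N < a + n
        · have e1 : min (N + 1) (a + n) = min N (a + n) + 1 := by omega
          rw [e1]
          push_cast
          simp [ind, hN]
        · have e1 : min (N + 1) (a + n) = min N (a + n) := by omega
          rw [e1]
          simp [ind, hN]
    rw [h6]
    have : min M (a + n) ≤ a + n := min_le_right _ _
    exact_mod_cast this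
  have h7 := mul_le_mul_of_nonneg_right h5 (show 0 ≤ K * (n : ℝ) ^ 2 by positivity)
  have h8 : (K ^ 2 * en vec φ μ n + ((a + n : ℕ) : ℝ) * (K * (n : ℝ) ^ 2) / M) * M =
      M * (K ^ 2 * en vec φ μ n) + ((a + n : ℕ) : ℝ) * (K * (n : ℝ) ^ 2) := by
    field_simp
  rw [h8]
  linarith

theorem Cr.Ah_sq_le (n : ℕ) : Ah vec μ (fun u => xv vec φ n u ^ 2) ≤ K ^ 2 * en vec φ μ n :=
  h.Ah_block_le hφ 0 n |> fun h1 => by
    have e : (fun u : ℕ → S => xv vec φ n (sh 0 u) ^ 2) = fun u => xv vec φ n u ^ 2 := by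
      funext u
      have : sh 0 u = u := by
        funext a
        simp [sh]
      rw [this]
    rwa [e] at h1

theorem Cr.Rh_sq_le (ν : Sym vec) (hν : ∀ v, ν.L v = -v) (n : ℕ) :
    Rh vec μ (fun x => Sb Ts (fx vec φ) n x ^ 2) ≤ K ^ 3 * en vec φ μ n := by
  have hK := h.K_nonneg
  have h1 := h.dom ν hν (F := fun _ => 1) (G := fun v => xv vec φ n v ^ 2) (Bd.const 1)
    (xv_Bd hφ n).sq (fun _ => zero_le_one) (fun _ => sq_nonneg _)
  have e : (fun x => Sb Ts (fx vec φ) n x ^ 2) =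
      tens ν (fun _ => 1) (fun v => xv vec φ n v ^ 2) := by
    funext x
    unfold tens
    rw [Sb_eq, one_mul]
  rw [e]
  refine le_trans h1 ?_
  have h2 := h.Ah_sq_le hφ n
  have h3 := h.PfAh.one
  calc Ah vec μ (fun _ => 1) * Ah vec μ (fun v => xv vec φ n v ^ 2)
      ≤ K * (K ^ 2 * en vec φ μ n) :=
        mul_le_mul h3 h2 (h.PfAh.nonneg _ (xv_Bd hφ n).sq (fun _ => sq_nonneg _)) hK
    _ = K ^ 3 * en vec φ μ n := by ring

theorem Cr.Rh_abs_le (ν : Sym vec) (hν : ∀ v, ν.L v = -v) (n : ℕ) :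
    Rh vec μ (fun x => |Sb Ts (fx vec φ) n x|) ≤ K ^ 2 * Real.sqrt (en vec φ μ n) := by
  have hK := h.K_nonneg
  have hE := h.en_nonneg (φ := φ) n
  have hS : Bd (Sb Ts (fx vec φ) n) := Sb_Bd (fx_abs_le hφ) n
  have h1 := h.mean.cs (Bd.const 1) hS.abs
  simp only [one_mul, sq_abs, one_pow] at h1
  have h2 := h.Rh_sq_le hφ ν hν n
  have h3 := h.mean.one
  refine le_of_sq_le_sq ?_ (by positivity)
  rw [mul_pow, Real.sq_sqrt hE]
  refine le_trans h1 ?_
  calc Rh vec μ (fun _ => 1) * Rh vec μ (fun x => Sb Ts (fx vec φ) n x ^ 2)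
      ≤ K * (K ^ 3 * en vec φ μ n) :=
        mul_le_mul h3 h2 (h.mean.nonneg _ hS.sq (fun _ => sq_nonneg _)) hK
    _ = (K ^ 2) ^ 2 * en vec φ μ n := by ring

theorem Cr.sublinear (ν : Sym vec) (hν : ∀ v, ν.L v = -v)
    (hsb : Tendsto (fun R : ℕ => en vec φ μ R / (R : ℝ) ^ 2) atTop (𝓝 0)) :
    Tendsto (fun R : ℕ => Rh vec μ (fun x => |Sb Ts (fx vec φ) R x|) / R) atTop (𝓝 0) := by
  have h1 := (hsb.sqrt).const_mul (K ^ 2)
  rw [Real.sqrt_zero, mul_zero] at h1
  refine squeeze_zero (fun R => ?_) (fun R => ?_) h1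
  · exact div_nonneg (h.mean.nonneg _ (Sb_Bd (fx_abs_le hφ) R).abs (fun _ => abs_nonneg _))
      (Nat.cast_nonneg _)
  · have h2 := h.Rh_abs_le hφ ν hν R
    rw [Real.sqrt_div' _ (by positivity), Real.sqrt_sq (Nat.cast_nonneg _), ← mul_div_assoc]
    exact div_le_div_of_nonneg_right h2 (Nat.cast_nonneg _)

/-- persistence is negligible -/
theorem Cr.pers (ν : Sym vec) (hν : ∀ v, ν.L v = -v)
    (hsb : Tendsto (fun R : ℕ => en vec φ μ R / (R : ℝ) ^ 2) atTop (𝓝 0)) (g : ℕ)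
    {ε : ℝ} (hε : 0 < ε) :
    ∃ D : ℝ, 0 ≤ D ∧ ∀ n : ℕ, ∑ p ∈ words S g,
      |Rh vec μ (tens ν (fun u => ind (cut g u = p)) (xv vec φ n))| ≤
        D + ε * Real.sqrt (en vec φ μ n) := by
  have hK1 := h.one_le_K
  have hK0 : 0 < K := by linarith
  set c : ℝ := ((words S g).card : ℝ) with hc
  have hc0 : 0 ≤ c := Nat.cast_nonneg _
  set ε' : ℝ := ε / ((c + 1) * K ^ 2) with hε'
  have hε'0 : 0 < ε' := by positivity
  have key : ∀ p : ℕ → S, ∃ D : ℝ, 0 ≤ D ∧ ∀ n : ℕ,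
      |Rh vec μ (tens ν (fun u => ind (cut g u = p)) (xv vec φ n))| ≤
        D + ε' * (K ^ 2 * Real.sqrt (en vec φ μ n)) := by
    intro p
    obtain ⟨D, hD0, hD⟩ := persist (f := fx vec φ)
      (b := fun x : (ℕ → S) × ℕ => ind (cut g (rv ν x.2 x.1) = p)) h.mean (fx_abs_le hφ)
      (Bd_ind _) (h.sublinear hφ ν hν hsb) hε'0
    refine ⟨D, hD0, fun n => ?_⟩
    have h1 := hD n
    have e : (fun x : (ℕ → S) × ℕ => ind (cut g (rv ν x.2 x.1) = p) * Sb Ts (fx vec φ) n x) =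
        tens ν (fun u => ind (cut g u = p)) (xv vec φ n) := by
      funext x
      unfold tens
      rw [Sb_eq]
    rw [e] at h1
    refine le_trans h1 ?_
    gcongr
    have h2 := h.Rh_sq_le hφ ν hν n
    have hE := h.en_nonneg (φ := φ) n
    refine Real.sqrt_le_iff.2 ⟨by positivity, ?_⟩
    rw [mul_pow, Real.sq_sqrt hE]
    refine le_trans h2 (mul_le_mul_of_nonneg_right ?_ hE)
    calc K ^ 3 = 1 * K ^ 3 := by ring
      _ ≤ K * K ^ 3 := mul_le_mul_of_nonneg_right hK1 (by positivity)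
      _ = (K ^ 2) ^ 2 := by ring
  choose D hD0 hD using key
  refine ⟨∑ p ∈ words S g, D p, Finset.sum_nonneg (fun p _ => hD0 p), fun n => ?_⟩
  have hE := h.en_nonneg (φ := φ) n
  refine le_trans (Finset.sum_le_sum (fun p _ => hD p n)) ?_
  rw [Finset.sum_add_distrib, Finset.sum_const, nsmul_eq_mul, ← hc]
  refine add_le_add le_rfl ?_
  have h3 : c * (ε' * (K ^ 2 * Real.sqrt (en vec φ μ n))) =
      (c / (c + 1)) * (ε * Real.sqrt (en vec φ μ n)) := by
    rw [hε']
    field_simp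
  rw [h3]
  have h4 : c / (c + 1) ≤ 1 := by
    rw [div_le_one (by linarith)]
    linarith
  calc c / (c + 1) * (ε * Real.sqrt (en vec φ μ n)) ≤ 1 * (ε * Real.sqrt (en vec φ μ n)) :=
        mul_le_mul_of_nonneg_right h4 (by positivity)
    _ = ε * Real.sqrt (en vec φ μ n) := one_mul _

end

/-- the elementary inequality behind the cross term bound -/
theorem real_aux {K ε D x y s : ℝ} (hK : 1 ≤ K) (hε : 0 < ε) (hD : 0 ≤ D) (hx : 0 ≤ x)
    (hs : s ≤ D + ε ^ 2 / (8 * K ^ 4) * x) (hy : y ^ 2 ≤ K ^ 4 * x ^ 3 * s) :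
    |y| ≤ Real.sqrt (2 * K ^ 4 * (D / (ε ^ 2 / (8 * K ^ 4))) ^ 3 * D) + ε / 2 * x ^ 2 := by
  have hK0 : 0 < K := by linarith
  set ε₂ : ℝ := ε ^ 2 / (8 * K ^ 4) with hε₂
  have hε₂0 : 0 < ε₂ := by positivity
  have hKx : 0 ≤ K ^ 4 * x ^ 3 := by positivity
  have h1 : y ^ 2 ≤ K ^ 4 * x ^ 3 * (D + ε₂ * x) :=
    le_trans hy (mul_le_mul_of_nonneg_left hs hKx)
  rcases le_or_gt D (ε₂ * x) with h2 | h2
  · have h3 : y ^ 2 ≤ (ε / 2 * x ^ 2) ^ 2 := by
      calc y ^ 2 ≤ K ^ 4 * x ^ 3 * (ε₂ * x + ε₂ * x) :=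
            le_trans h1 (mul_le_mul_of_nonneg_left (by linarith) hKx)
        _ = (2 * K ^ 4 * ε₂) * x ^ 4 := by ring
        _ = (ε / 2 * x ^ 2) ^ 2 := by
            rw [hε₂]
            field_simp
            ring
    have h4 := abs_le_of_sq_le_sq h3 (by positivity)
    have := Real.sqrt_nonneg (2 * K ^ 4 * (D / ε₂) ^ 3 * D)
    linarith
  · have h3 : x ≤ D / ε₂ := by
      rw [le_div_iff₀ hε₂0]
      linarith
    have h4 : y ^ 2 ≤ 2 * K ^ 4 * (D / ε₂) ^ 3 * D := by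
      calc y ^ 2 ≤ K ^ 4 * x ^ 3 * (D + D) :=
            le_trans h1 (mul_le_mul_of_nonneg_left (by linarith) hKx)
        _ = (2 * K ^ 4 * D) * x ^ 3 := by ring
        _ ≤ (2 * K ^ 4 * D) * (D / ε₂) ^ 3 := by
            refine mul_le_mul_of_nonneg_left ?_ (by positivity)
            exact pow_le_pow_left₀ hx h3 3
        _ = 2 * K ^ 4 * (D / ε₂) ^ 3 * D := by ring
    have h5 := Real.abs_le_sqrt h4
    have : 0 ≤ ε / 2 * x ^ 2 := by positivity
    linarith

section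

variable {vec : S → V} {μ K : ℝ} (h : Cr vec μ K) {φ : V →+ ℤ} (hφ : Lip vec φ)

include h hφ

/-- the cross terms are negligible -/
theorem Cr.cross (ν : Sym vec) (hν : ∀ v, ν.L v = -v)
    (hsb : Tendsto (fun R : ℕ => en vec φ μ R / (R : ℝ) ^ 2) atTop (𝓝 0))
    {ε : ℝ} (hε : 0 < ε) :
    ∃ D : ℝ, 0 ≤ D ∧ ∀ a n : ℕ,
      |Rh vec μ (tens ν (fun u => xv vec φ n (sh a u)) (xv vec φ n))| ≤
        D + ε * en vec φ μ n := by
  have hK1 := h.one_le_K
  have hK0 : 0 < K := by linarith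
  set ε₂ : ℝ := ε ^ 2 / (8 * K ^ 4) with hε₂
  have hε₂0 : 0 < ε₂ := by positivity
  -- choice of the pattern length
  set η : ℝ := min ε₂ ε / (2 * K ^ 3) with hη
  have hη0 : 0 < η := by
    have : 0 < min ε₂ ε := lt_min hε₂0 hε
    positivity
  have hη1 : K ^ 3 * η ≤ ε₂ / 2 := by
    have h1 : K ^ 3 * η = min ε₂ ε / 2 := by rw [hη]; field_simp
    rw [h1]
    linarith [min_le_left ε₂ ε]
  have hη2 : K ^ 3 * η ≤ ε / 2 := by
    have h1 : K ^ 3 * η = min ε₂ ε / 2 := by rw [hη]; field_simp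
    rw [h1]
    linarith [min_le_right ε₂ ε]
  obtain ⟨g, hg⟩ : ∃ g, dl vec μ g ≤ η ^ 2 := by
    have := (h.dl_tendsto.eventually (gt_mem_nhds (show 0 < η ^ 2 by positivity))).exists
    obtain ⟨g, hg⟩ := this
    exact ⟨g, le_of_lt hg⟩
  have hδ0 := h.dl_nonneg g
  obtain ⟨D, hD0, hD⟩ := h.pers hφ ν hν hsb g (show 0 < ε₂ / 2 by positivity)
  refine ⟨Real.sqrt (2 * K ^ 4 * (D / ε₂) ^ 3 * D), Real.sqrt_nonneg _, ?_⟩
  intro a n
  set E := en vec φ μ n with hE
  have hE0 : 0 ≤ E := h.en_nonneg n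
  set x := Real.sqrt E with hx
  have hx0 : 0 ≤ x := Real.sqrt_nonneg _
  have hxE : x ^ 2 = E := Real.sq_sqrt hE0
  set F : (ℕ → S) → ℝ := fun u => xv vec φ n (sh a u) with hF
  set G : (ℕ → S) → ℝ := xv vec φ n with hG
  have hFB : Bd F := (xv_Bd hφ n).comp _
  have hGB : Bd G := xv_Bd hφ n
  have hF2 : Ah vec μ (fun u => F u ^ 2) ≤ K ^ 2 * E := h.Ah_block_le hφ a n
  have hG2 : Ah vec μ (fun u => G u ^ 2) ≤ K ^ 2 * E := h.Ah_sq_le hφ n
  have hF20 : 0 ≤ Ah vec μ (fun u => F u ^ 2) := h.PfAh.nonneg _ hFB.sq (fun _ => sq_nonneg _)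
  have hG20 : 0 ≤ Ah vec μ (fun u => G u ^ 2) := h.PfAh.nonneg _ hGB.sq (fun _ => sq_nonneg _)
  have hA1 := h.PfAh.one
  have hA10 := h.PfAh.one_nonneg
  set t := tf vec μ g G with ht
  have htB : Bd t := tf_Bd _ _ _ _
  -- the size of the conditional mean
  have hτ : Ah vec μ (fun v => |G v|) ≤ K ^ 2 * x := by
    have h1 := h.PfAh.cs (Bd.const 1) hGB.abs
    simp only [one_mul, sq_abs, one_pow] at h1
    refine le_of_sq_le_sq ?_ (by positivity)
    refine le_trans h1 ?_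
    rw [mul_pow, hxE]
    calc Ah vec μ (fun _ => 1) * Ah vec μ (fun v => G v ^ 2)
        ≤ K * (K ^ 2 * E) := mul_le_mul hA1 hG2 hG20 hK0.le
      _ = (1 * K ^ 3) * E := by ring
      _ ≤ (K * K ^ 3) * E :=
          mul_le_mul_of_nonneg_right (mul_le_mul_of_nonneg_right hK1 (by positivity)) hE0
      _ = (K ^ 2) ^ 2 * E := by ring
  have htb : ∀ u, |t u| ≤ K ^ 2 * x := fun u => le_trans (h.tf_abs_le hGB u) hτ
  -- its mean absolute value
  set σ : (ℕ → S) → ℝ := fun u => if 0 ≤ t u then 1 else -1 with hσ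
  have hσ1 : ∀ u, σ u ^ 2 = 1 := by
    intro u
    simp only [hσ]
    split_ifs <;> norm_num
  have hσabs : ∀ u, |σ u| ≤ 1 := by
    intro u
    simp only [hσ]
    split_ifs <;> norm_num
  have hσB : Bd σ := ⟨1, hσabs⟩
  have hσt : ∀ u, σ u * t u = |t u| := by
    intro u
    simp only [hσ]
    split_ifs with h1
    · rw [one_mul, abs_of_nonneg h1]
    · push Not at h1
      rw [abs_of_neg h1]
      ring
  have hσcut : ∀ u, σ (cut g u) = σ u := by
    intro u
    simp only [hσ, ht]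
    rw [tf_cut]
  have hRσ : |Rh vec μ (tens ν σ G)| ≤ D + ε₂ / 2 * x := by
    have e1 : tens ν σ G = fun y => ∑ p ∈ words S g,
        σ p * tens ν (fun u => ind (cut g u = p)) G y := by
      funext y
      unfold tens
      have h1 : ∀ p ∈ words S g, σ p * (ind (cut g (rv ν y.2 y.1) = p) * G (sh y.2 y.1)) =
          ind (cut g (rv ν y.2 y.1) = p) * (σ p * G (sh y.2 y.1)) := by
        intro p _
        ring
      rw [Finset.sum_congr rfl h1, sum_ind g _ (fun p => σ p * G (sh y.2 y.1)), hσcut]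
    have hB : ∀ p, Bd (tens ν (fun u => ind (cut g u = p)) G) :=
      fun p => tens_Bd ν (Bd_ind _) hGB
    rw [e1, h.mean.sum (words S g)
      (fun p y => σ p * tens ν (fun u => ind (cut g u = p)) G y) (fun p _ => (hB p).smul _)]
    refine le_trans (Finset.abs_sum_le_sum_abs _ _) ?_
    refine le_trans (Finset.sum_le_sum ?_) (hD n)
    intro p _
    rw [h.mean.smul _ _ (hB p), abs_mul]
    calc |σ p| * |Rh vec μ (tens ν (fun u => ind (cut g u = p)) G)|
        ≤ 1 * |Rh vec μ (tens ν (fun u => ind (cut g u = p)) G)| :=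
          mul_le_mul_of_nonneg_right (hσabs p) (abs_nonneg _)
      _ = _ := one_mul _
  have hjσ := h.junction_lim ν hν hσB hGB g
  have hs : Ah vec μ (fun u => |t u|) ≤ D + ε₂ * x := by
    have e1 : (fun u => |t u|) = fun u => σ u * t u := by
      funext u
      exact (hσt u).symm
    rw [e1]
    have e2 : Ah vec μ (fun u => σ u ^ 2) ≤ K := by
      have : (fun u => σ u ^ 2) = fun _ => (1 : ℝ) := by
        funext u
        exact hσ1 u
      rw [this]
      exact hA1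
    have e20 : 0 ≤ Ah vec μ (fun u => σ u ^ 2) := h.PfAh.nonneg _ hσB.sq (fun _ => sq_nonneg _)
    have h1 : |Rh vec μ (tens ν σ G) - Ah vec μ (fun u => σ u * t u)| ≤ K ^ 3 * η * x := by
      refine abs_le_of_sq_le_sq ?_ (by positivity)
      refine le_trans hjσ ?_
      calc K ^ 2 * dl vec μ g * (Ah vec μ (fun u => σ u ^ 2) * Ah vec μ (fun v => G v ^ 2))
          ≤ K ^ 2 * η ^ 2 * (K * (K ^ 2 * E)) := by
            refine mul_le_mul (mul_le_mul_of_nonneg_left hg (by positivity)) ?_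
              (mul_nonneg e20 hG20) (by positivity)
            exact mul_le_mul e2 hG2 hG20 hK0.le
        _ = 1 * (K ^ 5 * η ^ 2 * E) := by ring
        _ ≤ K * (K ^ 5 * η ^ 2 * E) := mul_le_mul_of_nonneg_right hK1 (by positivity)
        _ = (K ^ 3 * η * x) ^ 2 := by rw [← hxE]; ring
    have h2 := (abs_le.1 h1).1
    have h3 := (abs_le.1 hRσ).2
    have h4 : K ^ 3 * η * x ≤ ε₂ / 2 * x := mul_le_mul_of_nonneg_right hη1 hx0
    linarith
  -- the main term
  have hy : Ah vec μ (fun u => F u * t u) ^ 2 ≤ K ^ 4 * x ^ 3 * Ah vec μ (fun u => |t u|) := by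
    have h1 := h.PfAh.cs hFB htB
    have h2 : Ah vec μ (fun u => t u ^ 2) ≤ K ^ 2 * x * Ah vec μ (fun u => |t u|) := by
      rw [← h.PfAh.smul _ _ htB.abs]
      refine h.PfAh.mono htB.sq (htB.abs.smul _) ?_
      intro u
      rw [← sq_abs, sq]
      exact mul_le_mul_of_nonneg_right (htb u) (abs_nonneg _)
    refine le_trans h1 ?_
    have h3 : 0 ≤ Ah vec μ (fun u => t u ^ 2) := h.PfAh.nonneg _ htB.sq (fun _ => sq_nonneg _)
    calc Ah vec μ (fun u => F u ^ 2) * Ah vec μ (fun u => t u ^ 2)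
        ≤ (K ^ 2 * E) * (K ^ 2 * x * Ah vec μ (fun u => |t u|)) :=
          mul_le_mul hF2 h2 h3 (by positivity)
      _ = K ^ 4 * x ^ 3 * Ah vec μ (fun u => |t u|) := by rw [← hxE]; ring
  have hyb := real_aux hK1 hε hD0 hx0 hs hy
  rw [← hε₂, hxE] at hyb
  have hj := h.junction_lim ν hν hFB hGB g
  have h5 : |Rh vec μ (tens ν F G) - Ah vec μ (fun u => F u * t u)| ≤ K ^ 3 * η * E := by
    refine abs_le_of_sq_le_sq ?_ (by positivity)
    refine le_trans hj ?_
    calc K ^ 2 * dl vec μ g * (Ah vec μ (fun u => F u ^ 2) * Ah vec μ (fun v => G v ^ 2))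
        ≤ K ^ 2 * η ^ 2 * ((K ^ 2 * E) * (K ^ 2 * E)) := by
          refine mul_le_mul (mul_le_mul_of_nonneg_left hg (by positivity)) ?_
            (mul_nonneg hF20 hG20) (by positivity)
          exact mul_le_mul hF2 hG2 hG20 (by positivity)
      _ = (K ^ 3 * η * E) ^ 2 := by ring
  have h6 : K ^ 3 * η * E ≤ ε / 2 * E := mul_le_mul_of_nonneg_right hη2 hE0
  have h7 : Rh vec μ (tens ν F G) =
      (Rh vec μ (tens ν F G) - Ah vec μ (fun u => F u * t u)) +
        Ah vec μ (fun u => F u * t u) := by ring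
  rw [h7]
  refine le_trans (abs_add_le _ _) ?_
  linarith

/-- the variance of long blocks -/
theorem Cr.variance (ν : Sym vec) (hν : ∀ v, ν.L v = -v)
    (hsb : Tendsto (fun R : ℕ => en vec φ μ R / (R : ℝ) ^ 2) atTop (𝓝 0))
    {ε : ℝ} (hε : 0 < ε) (L : ℕ) :
    ∃ D : ℝ, 0 ≤ D ∧ ∀ n : ℕ, Rh vec μ (fun x => Sb Ts (fx vec φ) (L * n) x ^ 2) ≤
        D + (L * K ^ 3 + (L : ℝ) ^ 2 * ε) * en vec φ μ n := by
  obtain ⟨D, hD0, hD⟩ := h.cross hφ ν hν hsb hε
  have hK0 := h.K_nonneg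
  refine ⟨(L : ℝ) ^ 2 * D, by positivity, ?_⟩
  intro n
  set E := en vec φ μ n with hE
  have hE0 : 0 ≤ E := h.en_nonneg n
  set f := fx vec φ with hf
  have hf1 : ∀ x, |f x| ≤ 1 := fx_abs_le hφ
  have hSB : ∀ k, Bd (fun x => Sb Ts f n (Ts^[k * n] x)) := fun k => (Sb_Bd hf1 n).comp _
  -- decomposition into blocks
  have e1 : ∀ L : ℕ, ∀ x, Sb Ts f (L * n) x = ∑ k ∈ range L, Sb Ts f n (Ts^[k * n] x) := by
    intro L x
    induction L with
    | zero => simp [Sb_zero]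
    | succ L ih =>
      rw [Finset.sum_range_succ, ← ih, Nat.succ_mul, Sb_add]
  have e2 : (fun x => Sb Ts f (L * n) x ^ 2) = fun x => ∑ k ∈ range L, ∑ l ∈ range L,
      Sb Ts f n (Ts^[k * n] x) * Sb Ts f n (Ts^[l * n] x) := by
    funext x
    rw [e1 L x, sq, Finset.sum_mul_sum]
  rw [e2, h.mean.sum (range L) (fun k x => ∑ l ∈ range L,
      Sb Ts f n (Ts^[k * n] x) * Sb Ts f n (Ts^[l * n] x))
    (fun k _ => Bd.sum _ (fun l _ => (hSB k).mul (hSB l)))]
  -- two different blocks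
  have hlt : ∀ k d : ℕ, |Rh vec μ (fun x => Sb Ts f n (Ts^[k * n] x) *
      Sb Ts f n (Ts^[(k + (d + 1)) * n] x))| ≤ D + ε * E := by
    intro k d
    have h1 : Rh vec μ (fun x => Sb Ts f n (Ts^[k * n] x) *
        Sb Ts f n (Ts^[(k + (d + 1)) * n] x)) =
        Rh vec μ (fun x => Sb Ts f n x * Sb Ts f n (Ts^[(d + 1) * n] x)) := by
      have h2 := h.mean.inv_iter (f := fun x => Sb Ts f n x * Sb Ts f n (Ts^[(d + 1) * n] x))
        ((Sb_Bd hf1 n).mul (hSB (d + 1))) (k * n)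
      rw [← h2]
      congr 1
      funext x
      congr 2
      rw [← Function.iterate_add_apply]
      congr 1
      ring
    have h3 : Rh vec μ (fun x => Sb Ts f n x * Sb Ts f n (Ts^[(d + 1) * n] x)) =
        - Rh vec μ (tens ν (fun u => xv vec φ n (sh (d * n) u)) (xv vec φ n)) := by
      have hT : Bd (tens ν (fun u => xv vec φ n (sh (d * n) u)) (xv vec φ n)) :=
        tens_Bd ν ((xv_Bd hφ n).comp _) (xv_Bd hφ n)
      have h4 := h.mean.inv_iter hT ((d + 1) * n)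
      rw [← h4, ← h.mean.neg (hT.comp _)]
      congr 1
      funext x
      rw [Sb_eq, Sb_eq, Ts_iter]
      unfold tens
      simp only
      have h5 : xv vec φ n (sh (d * n) (rv ν (x.2 + (d + 1) * n) x.1)) =
          - xv vec φ n (sh x.2 x.1) := by
        unfold xv
        have h6 : pos vec (sh (d * n) (rv ν (x.2 + (d + 1) * n) x.1)) n =
            - pos vec (sh x.2 x.1) n := by
          have a1 := pos_add vec (rv ν (x.2 + (d + 1) * n) x.1) (d * n) n
          rw [pos_rv ν hν _ _ (show d * n + n ≤ x.2 + (d + 1) * n by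
              rw [Nat.add_mul, one_mul]; omega),
            pos_rv ν hν _ _ (show d * n ≤ x.2 + (d + 1) * n by
              rw [Nat.add_mul, one_mul]; omega)] at a1
          have a2 : x.2 + (d + 1) * n - (d * n + n) = x.2 := by
            rw [Nat.add_mul, one_mul]; omega
          have a3 : x.2 + (d + 1) * n - d * n = x.2 + n := by
            rw [Nat.add_mul, one_mul]; omega
          rw [a2, a3] at a1
          have a4 := pos_add vec x.1 x.2 n
          rw [a4] at a1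
          have a5 : pos vec (sh (d * n) (rv ν (x.2 + (d + 1) * n) x.1)) n =
              (pos vec x.1 x.2 - pos vec x.1 (x.2 + (d + 1) * n)) -
              (pos vec x.1 x.2 + pos vec (sh x.2 x.1) n -
                pos vec x.1 (x.2 + (d + 1) * n)) := by
            rw [a1]; abel
          rw [a5]; abel
        rw [h6, map_neg]
        push_cast
        rfl
      rw [h5]
      ring
    rw [h1, h3, abs_neg]
    exact hD (d * n) n
  have hterm : ∀ k l : ℕ, Rh vec μ (fun x => Sb Ts f n (Ts^[k * n] x) *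
      Sb Ts f n (Ts^[l * n] x)) ≤ (D + ε * E) + ind (k = l) * (K ^ 3 * E) := by
    intro k l
    rcases lt_trichotomy k l with h1 | h1 | h1
    · obtain ⟨d, rfl⟩ : ∃ d, l = k + (d + 1) := ⟨l - k - 1, by omega⟩
      have h2 := (abs_le.1 (hlt k d)).2
      have h3 : 0 ≤ ind (k = k + (d + 1)) * (K ^ 3 * E) :=
        mul_nonneg (ind_nonneg _) (by positivity)
      linarith
    · subst h1
      have h2 : Rh vec μ (fun x => Sb Ts f n (Ts^[k * n] x) * Sb Ts f n (Ts^[k * n] x)) =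
          Rh vec μ (fun x => Sb Ts f n x ^ 2) := by
        rw [← h.mean.inv_iter (f := fun x => Sb Ts f n x ^ 2) (Sb_Bd hf1 n).sq (k * n)]
        congr 1
        funext x
        rw [sq]
      rw [h2]
      have h3 := h.Rh_sq_le hφ ν hν n
      have h4 : ind (k = k) = 1 := by simp [ind]
      rw [h4, one_mul]
      have : 0 ≤ D + ε * E := by positivity
      linarith
    · obtain ⟨d, rfl⟩ : ∃ d, k = l + (d + 1) := ⟨k - l - 1, by omega⟩
      have h2 := (abs_le.1 (hlt l d)).2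
      have h3 : 0 ≤ ind (l + (d + 1) = l) * (K ^ 3 * E) :=
        mul_nonneg (ind_nonneg _) (by positivity)
      have h4 : (fun x => Sb Ts f n (Ts^[(l + (d + 1)) * n] x) * Sb Ts f n (Ts^[l * n] x)) =
          fun x => Sb Ts f n (Ts^[l * n] x) * Sb Ts f n (Ts^[(l + (d + 1)) * n] x) := by
        funext x
        ring
      rw [h4]
      linarith
  have hrow : ∀ k ∈ range L, Rh vec μ (fun x => ∑ l ∈ range L,
      Sb Ts f n (Ts^[k * n] x) * Sb Ts f n (Ts^[l * n] x)) ≤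
      L * (D + ε * E) + K ^ 3 * E := by
    intro k hk
    rw [h.mean.sum (range L) (fun l x => Sb Ts f n (Ts^[k * n] x) * Sb Ts f n (Ts^[l * n] x))
      (fun l _ => (hSB k).mul (hSB l))]
    refine le_trans (Finset.sum_le_sum (fun l _ => hterm k l)) ?_
    rw [Finset.sum_add_distrib, Finset.sum_const, Finset.card_range, nsmul_eq_mul,
      ← Finset.sum_mul]
    have h1 : ∑ l ∈ range L, ind (k = l) = 1 := by
      rw [Finset.sum_eq_single k]
      · simp [ind]
      · intro l _ hl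
        simp [ind, Ne.symm hl]
      · intro hk'
        exact absurd hk hk'
    rw [h1, one_mul]
  refine le_trans (Finset.sum_le_sum hrow) ?_
  rw [Finset.sum_const, Finset.card_range, nsmul_eq_mul]
  apply le_of_eq
  ring

end

end Pool.Agent.Bubble
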