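import Pool.Agent.Bubble.Expo
import Pool.Agent.SubBall.Moment

/-! The bubble diagram of `ℤ³` is infinite. -/

namespace Pool.Agent.Bubble

open Finset Pool.Agent.SubBall Filter Topology
open Classical

theorem sum_symm {m : ℕ} (σ : Sym (stv m)) (N : ℕ) (f : Vt m → ℝ) :
    ∑ w ∈ saws (stv m) N, f (σ.L (pos (stv m) w N)) =
      ∑ w ∈ saws (stv m) N, f (pos (stv m) w N) := by
  refine Finset.sum_nbij' (fun w => refl σ (seg 0 N) w) (fun w => refl σ (seg 0 N) w)
    (fun w hw => refl_seg_mem_saws σ hw) (fun w hw => refl_seg_mem_saws σ hw)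
    (fun w _ => refl_refl σ _ w) (fun w _ => refl_refl σ _ w) ?_
  intro w _
  rw [pos_seg_mid σ w (Nat.zero_le _) le_rfl]
  simp

/-- sub-ballisticity in the form used here -/
theorem Cr.hsb {m : ℕ} {μ K : ℝ} (h : Cr (stv m) μ K) :
    Tendsto (fun R : ℕ => en (stv m) (cy m) μ R / (R : ℝ) ^ 2) atTop (𝓝 0) := by
  have hμ := h.mpos
  have hK0 := h.K_nonneg
  obtain ⟨C, hC0, hC⟩ := second_moment m
  have h1 : Tendsto (fun R : ℕ => C * K / Real.log R ^ cexp) atTop (𝓝 0) := by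
    refine Tendsto.const_div_atTop ?_ _
    exact (tendsto_rpow_atTop cexp_pos).comp
      (Real.tendsto_log_atTop.comp tendsto_natCast_atTop_atTop)
  refine squeeze_zero' (Eventually.of_forall (fun R => ?_)) ?_ h1
  · exact div_nonneg (h.en_nonneg R) (by positivity)
  · filter_upwards [eventually_ge_atTop 2] with R hR
    have hR0 : (0 : ℝ) < R := by
      have : 0 < R := by omega
      exact_mod_cast this
    have hlog : 0 < Real.log R := by
      apply Real.log_pos
      have : 1 < R := by omega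
      exact_mod_cast this
    have hlogc : 0 < Real.log R ^ cexp := Real.rpow_pos_of_pos hlog _
    have h2 := hC R hR
    have h3 : ((saws (stv m) R).card : ℝ) ≤ K * μ ^ R := h.card_le R
    rw [div_le_div_iff₀ (by positivity) hlogc]
    unfold en Ex
    rw [div_mul_eq_mul_div, div_le_iff₀ (by positivity)]
    refine le_trans h2 ?_
    calc C * (R : ℝ) ^ 2 * ((saws (stv m) R).card : ℝ)
        ≤ C * (R : ℝ) ^ 2 * (K * μ ^ R) := mul_le_mul_of_nonneg_left h3 (by positivity)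
      _ = C * K * (R : ℝ) ^ 2 * μ ^ R := by ring

/-- the exponential moments of all coordinates agree -/
theorem Ph_coord {m : ℕ} (μ : ℝ) (i : Fin (m + 2)) (n : ℕ) (y : ℝ) :
    Ph (stv m) (co m i) μ n y = Ph (stv m) (cy m) μ n y := by
  unfold Ph Ex xv
  congr 1
  have h := sum_symm (sEx m i) n (fun v => Real.exp (y * |((cy m v : ℤ) : ℝ)|))
  rw [← h]
  refine Finset.sum_congr rfl (fun w _ => ?_)
  simp only [cy_apply, sEx_L, co_apply]

/-- walks that leave the box have small weight -/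
theorem Cr.out_le {m : ℕ} {μ K κ : ℝ} (h : Cr (stv m) μ K) (hκ : 0 < κ)
    (hm : ∀ n : ℕ, Ph (stv m) (cy m) μ n (κ * bb n) ≤ 2 * K) {T : ℝ} {n : ℕ}
    {R : ℝ} (hR : T ≤ bb n * R) (i : Fin (m + 2)) :
    Ex (stv m) μ n (fun w => ind (R < |xv (stv m) (co m i) n w|)) ≤
      Real.exp (-(κ * T)) * (2 * K) := by
  have hμ := h.mpos
  have h1 := hm n
  rw [← Ph_coord μ i n] at h1
  have h2 : Ex (stv m) μ n (fun w => ind (R < |xv (stv m) (co m i) n w|)) ≤
      Real.exp (-(κ * T)) * Ph (stv m) (co m i) μ n (κ * bb n) := by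
    unfold Ph Ex
    rw [← mul_div_assoc, Finset.mul_sum]
    refine div_le_div_of_nonneg_right (Finset.sum_le_sum (fun w _ => ?_)) (by positivity)
    by_cases hw : R < |xv (stv m) (co m i) n w|
    · have e : ind (R < |xv (stv m) (co m i) n w|) = 1 := by simp only [ind, hw, if_true]
      rw [e, ← Real.exp_add]
      apply Real.one_le_exp
      have h3 := mul_le_mul_of_nonneg_left hw.le (bb_nonneg n)
      have h4 : κ * T ≤ κ * (bb n * |xv (stv m) (co m i) n w|) :=
        mul_le_mul_of_nonneg_left (by linarith) hκ.le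
      have h5 : κ * (bb n * |xv (stv m) (co m i) n w|) =
        κ * bb n * |xv (stv m) (co m i) n w| := by ring
      linarith
    · have e : ind (R < |xv (stv m) (co m i) n w|) = 0 := by simp only [ind, hw, if_false]
      rw [e]
      positivity
  exact le_trans h2 (mul_le_mul_of_nonneg_left h1 (Real.exp_pos _).le)

/-- number of walks to `x` -/
noncomputable def cnx {S V : Type} [Fintype S] [Inhabited S] [AddCommGroup V]
    (vec : S → V) (n : ℕ) (x : V) : ℕ :=
  ((saws vec n).filter (fun w => pos vec w n = x)).card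

theorem wc_ge {S V : Type} [Fintype S] [Inhabited S] [AddCommGroup V] (vec : S → V)
    (m n : ℕ) (B : Finset V) : ∑ x ∈ B, cnx vec m x * cnx vec n x ≤ wc vec m n := by
  unfold wc
  have h1 : ∑ x ∈ B, cnx vec m x * cnx vec n x =
      ∑ x ∈ B, (((saws vec m ×ˢ saws vec n).filter
        (fun p => pos vec p.1 m = pos vec p.2 n)).filter (fun p => pos vec p.1 m = x)).card := by
    refine Finset.sum_congr rfl (fun x _ => ?_)
    unfold cnx
    rw [← Finset.card_product]
    congr 1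
    ext p
    simp only [Finset.mem_product, Finset.mem_filter]
    constructor
    · rintro ⟨⟨a, b⟩, c, d⟩
      exact ⟨⟨⟨a, c⟩, by rw [b, d]⟩, b⟩
    · rintro ⟨⟨⟨a, c⟩, e⟩, b⟩
      exact ⟨⟨a, b⟩, c, by rw [← e, b]⟩
  rw [h1]
  rw [← Finset.card_biUnion]
  · refine Finset.card_le_card ?_
    intro p hp
    rw [Finset.mem_biUnion] at hp
    obtain ⟨x, -, hx⟩ := hp
    exact (Finset.mem_filter.1 hx).1
  · intro x _ y _ hxy
    show Disjoint _ _
    rw [Finset.disjoint_left]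
    intro p hp hp'
    exact hxy ((Finset.mem_filter.1 hp).2.symm.trans (Finset.mem_filter.1 hp').2)

theorem cnx_sum {S V : Type} [Fintype S] [Inhabited S] [AddCommGroup V] (vec : S → V)
    (n : ℕ) (B : Finset V) : ∑ x ∈ B, (cnx vec n x : ℝ) =
      ∑ w ∈ saws vec n, ind (pos vec w n ∈ B) := by
  unfold cnx
  have h1 : ∀ x ∈ B, ((((saws vec n).filter (fun w => pos vec w n = x)).card : ℕ) : ℝ) =
      ∑ w ∈ saws vec n, ind (pos vec w n = x) := by
    intro x _
    unfold ind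
    rw [Finset.sum_boole]
  rw [Finset.sum_congr rfl h1, Finset.sum_comm]
  refine Finset.sum_congr rfl (fun w _ => ?_)
  by_cases hw : pos vec w n ∈ B
  · rw [Finset.sum_eq_single (pos vec w n)]
    · simp [ind, hw]
    · intro x _ hx
      simp [ind, Ne.symm hx]
    · intro hh
      exact absurd hw hh
  · have e : ind (pos vec w n ∈ B) = 0 := by simp only [ind, hw, if_false]
    rw [e]
    refine Finset.sum_eq_zero (fun x hx => ?_)
    have : pos vec w n ≠ x := fun hh => hw (hh ▸ hx)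
    simp [ind, this]

/-- On `ℤ³` the bubble diagram is infinite. -/
theorem Cr.absurd3 {μ K : ℝ} (h : Cr (stv 1) μ K) : False := by
  have hμ := h.mpos
  have hK1 := h.one_le_K
  have hK0 : 0 < K := by linarith
  obtain ⟨κ, hκ, hm⟩ := h.moment (lip_cy 1) (sNeg 1) (sNeg_L 1) h.hsb
  -- the box
  obtain ⟨T, hT⟩ := exists_nat_gt (12 * K / κ)
  have hT0 : (0 : ℝ) < T := lt_trans (by positivity) hT
  have hTe : Real.exp (-(κ * T)) * (2 * K) ≤ 1 / 6 := by
    rw [div_lt_iff₀ hκ] at hT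
    rw [Real.exp_neg]
    have h1 := Real.add_one_le_exp (κ * T)
    rw [inv_mul_le_iff₀ (Real.exp_pos _)]
    linarith
  -- the scale
  set KK' : ℝ := ∑' p : ℕ × ℕ, W (stv 1) μ p with hKK'
  have hW0 : ∀ p, 0 ≤ W (stv 1) μ p := W_nonneg _ hμ
  have hKK0 : 0 ≤ KK' := tsum_nonneg hW0
  obtain ⟨q, hq⟩ := exists_nat_gt (4 * KK' * (16 * T + 1) ^ 3 + 1)
  have hq1r : (1 : ℝ) < q := lt_of_le_of_lt (by
    have : 0 ≤ 4 * KK' * (16 * (T : ℝ) + 1) ^ 3 := by positivity
    linarith) hq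
  have hq1 : 1 ≤ q := by exact_mod_cast hq1r.le
  have hq0 : (0 : ℝ) < q := by linarith
  set M : ℕ := q ^ 5 with hM
  have hM1 : 1 ≤ M := Nat.one_le_pow _ _ hq1
  set R : ℕ := T * (8 * q ^ 3) with hR
  set B : Finset (Vt 1) := Fintype.piFinset (fun _ => Finset.Icc (-(R : ℤ)) R) with hB
  have hBcard : (B.card : ℝ) = (2 * R + 1) ^ 3 := by
    rw [hB, Fintype.card_piFinset]
    simp only [Int.card_Icc, Finset.prod_const, Finset.card_univ, Fintype.card_fin]
    have : ((R : ℤ) + 1 - -(R : ℤ)).toNat = 2 * R + 1 := by omega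
    rw [this]
    push_cast
    rfl
  -- the mass in the box
  have hmass : ∀ n ∈ Finset.Ico M (2 * M),
      (1 : ℝ) / 2 ≤ ∑ x ∈ B, (cnx (stv 1) n x : ℝ) / μ ^ n := by
    intro n hn
    rw [Finset.mem_Ico] at hn
    have hn1 : 1 ≤ n := by omega
    have hn0 : (0 : ℝ) < n := by exact_mod_cast hn1
    have hbR : (T : ℝ) ≤ bb n * R := by
      have h1 : (n : ℝ) ≤ (2 * q) ^ 5 := by
        have h2 : (n : ℝ) ≤ 2 * M := by exact_mod_cast hn.2.le
        have h3 : (M : ℝ) = (q : ℝ) ^ 5 := by rw [hM]; push_cast; rfl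
        rw [h3] at h2
        have h4 : 0 < (q : ℝ) ^ 5 := by positivity
        rw [mul_pow]
        linarith
      have h5 : (n : ℝ) ^ (3 / 5 : ℝ) ≤ (2 * q) ^ 3 := by
        calc (n : ℝ) ^ (3 / 5 : ℝ) ≤ ((2 * (q : ℝ)) ^ 5) ^ (3 / 5 : ℝ) :=
              Real.rpow_le_rpow hn0.le h1 (by norm_num)
          _ = (2 * q) ^ 3 := by
              rw [← Real.rpow_natCast, ← Real.rpow_natCast, ← Real.rpow_mul (by positivity)]
              norm_num
      have h6 : bb n * (n : ℝ) ^ (3 / 5 : ℝ) = 1 := by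
        unfold bb
        rw [← Real.rpow_add hn0]
        norm_num
      have h7 : (1 : ℝ) ≤ bb n * (2 * q) ^ 3 := by
        rw [← h6]
        exact mul_le_mul_of_nonneg_left h5 (bb_nonneg n)
      have h8 : (R : ℝ) = T * (8 * (q : ℝ) ^ 3) := by rw [hR]; push_cast; ring
      rw [h8]
      have h9 : bb n * (T * (8 * (q : ℝ) ^ 3)) = T * (bb n * (2 * q) ^ 3) := by ring
      rw [h9]
      nlinarith
    have hout : ∀ i : Fin 3, Ex (stv 1) μ n
        (fun w => ind ((R : ℝ) < |xv (stv 1) (co 1 i) n w|)) ≤ 1 / 6 :=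
      fun i => le_trans (h.out_le hκ hm hbR i) hTe
    have hsum : ∑ x ∈ B, (cnx (stv 1) n x : ℝ) / μ ^ n =
        Ex (stv 1) μ n (fun w => ind (pos (stv 1) w n ∈ B)) := by
      unfold Ex
      rw [← Finset.sum_div, cnx_sum]
    rw [hsum]
    have hpt : ∀ w : ℕ → St 1, (1 : ℝ) ≤ ind (pos (stv 1) w n ∈ B) +
        ∑ i : Fin 3, ind ((R : ℝ) < |xv (stv 1) (co 1 i) n w|) := by
      intro w
      by_cases hw : pos (stv 1) w n ∈ B
      · have e : ind (pos (stv 1) w n ∈ B) = 1 := by simp only [ind, hw, if_true]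
        rw [e]
        have : 0 ≤ ∑ i : Fin 3, ind ((R : ℝ) < |xv (stv 1) (co 1 i) n w|) :=
          Finset.sum_nonneg (fun _ _ => ind_nonneg _)
        linarith
      · have h1 : ∃ i : Fin 3, (R : ℝ) < |xv (stv 1) (co 1 i) n w| := by
          by_contra hc
          push Not at hc
          apply hw
          rw [hB, Fintype.mem_piFinset]
          intro i
          have h2 := hc i
          unfold xv at h2
          rw [co_apply, ← Int.cast_abs] at h2
          have h3 : |pos (stv 1) w n i| ≤ (R : ℤ) := by exact_mod_cast h2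
          rw [Finset.mem_Icc]
          exact abs_le.1 h3
        obtain ⟨i, hi⟩ := h1
        have e : ind ((R : ℝ) < |xv (stv 1) (co 1 i) n w|) = 1 := by
          simp only [ind, hi, if_true]
        have h2 := Finset.single_le_sum (f := fun i : Fin 3 =>
          ind ((R : ℝ) < |xv (stv 1) (co 1 i) n w|)) (fun _ _ => ind_nonneg _)
          (Finset.mem_univ i)
        rw [e] at h2
        linarith [ind_nonneg (pos (stv 1) w n ∈ B)]
    have hone := h.one_le n
    have hP := h.PfEx n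
    have h1 : an (stv 1) μ n = Ex (stv 1) μ n (fun _ => 1) := by
      unfold an Ex
      rw [Finset.sum_const, nsmul_eq_mul, mul_one]
    have h2 : Ex (stv 1) μ n (fun _ => 1) ≤ Ex (stv 1) μ n (fun w => ind (pos (stv 1) w n ∈ B)) +
        ∑ i : Fin 3, Ex (stv 1) μ n (fun w => ind ((R : ℝ) < |xv (stv 1) (co 1 i) n w|)) := by
      rw [← hP.sum Finset.univ (fun (i : Fin 3) w => ind ((R : ℝ) < |xv (stv 1) (co 1 i) n w|))
        (fun i _ => Bd_ind _), ← hP.add _ _ (Bd_ind _) (Bd.sum _ (fun i _ => Bd_ind _))]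
      exact hP.mono (Bd.const 1) ((Bd_ind _).add (Bd.sum _ (fun i _ => Bd_ind _))) hpt
    have h3 : ∑ i : Fin 3, Ex (stv 1) μ n
        (fun w => ind ((R : ℝ) < |xv (stv 1) (co 1 i) n w|)) ≤ 3 * (1 / 6) := by
      have := Finset.sum_le_card_nsmul (Finset.univ : Finset (Fin 3)) _ _ (fun i _ => hout i)
      rw [Finset.card_univ, Fintype.card_fin, nsmul_eq_mul] at this
      exact_mod_cast this
    rw [h1] at hone
    linarith
  -- the bubble restricted to these lengths
  set I := Finset.Ico M (2 * M) with hI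
  have hcardI : (I.card : ℝ) = M := by
    rw [hI, Nat.card_Ico]
    have : 2 * M - M = M := by omega
    rw [this]
  set f : Vt 1 → ℝ := fun x => ∑ n ∈ I, (cnx (stv 1) n x : ℝ) / μ ^ n with hf
  have h1 : ∑ x ∈ B, f x ^ 2 ≤ KK' := by
    have h2 : ∑ x ∈ B, f x ^ 2 ≤ ∑ p ∈ I ×ˢ I, W (stv 1) μ p := by
      rw [Finset.sum_product]
      have e1 : ∑ x ∈ B, f x ^ 2 = ∑ m ∈ I, ∑ n ∈ I, ∑ x ∈ B,
          ((cnx (stv 1) m x : ℝ) / μ ^ m) * ((cnx (stv 1) n x : ℝ) / μ ^ n) := by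
        simp only [hf]
        have e2 : ∀ x ∈ B, (∑ n ∈ I, (cnx (stv 1) n x : ℝ) / μ ^ n) ^ 2 =
            ∑ m ∈ I, ∑ n ∈ I, ((cnx (stv 1) m x : ℝ) / μ ^ m) *
              ((cnx (stv 1) n x : ℝ) / μ ^ n) := by
          intro x _
          rw [sq, Finset.sum_mul_sum]
        rw [Finset.sum_congr rfl e2, Finset.sum_comm]
        refine Finset.sum_congr rfl (fun m _ => ?_)
        rw [Finset.sum_comm]
      rw [e1]
      refine Finset.sum_le_sum (fun m _ => Finset.sum_le_sum (fun n _ => ?_))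
      unfold W
      simp only
      rw [le_div_iff₀ (by positivity), Finset.sum_mul]
      have h3 := wc_ge (stv 1) m n B
      have h4 : ∑ x ∈ B, ((cnx (stv 1) m x : ℝ) * (cnx (stv 1) n x : ℝ)) ≤ wc (stv 1) m n := by
        exact_mod_cast h3
      refine le_trans (le_of_eq ?_) h4
      refine Finset.sum_congr rfl (fun x _ => ?_)
      rw [pow_add]
      field_simp
    refine le_trans h2 ?_
    exact h.sum.sum_le_tsum _ (fun p _ => hW0 p)
  have h2 : (M : ℝ) / 2 ≤ ∑ x ∈ B, f x := by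
    simp only [hf]
    rw [Finset.sum_comm]
    have := Finset.card_nsmul_le_sum I _ _ hmass
    rw [nsmul_eq_mul, hcardI] at this
    linarith
  have h3 : (∑ x ∈ B, f x) ^ 2 ≤ B.card * ∑ x ∈ B, f x ^ 2 := sq_sum_le_card_mul_sum_sq
  have h4 : ((M : ℝ) / 2) ^ 2 ≤ (2 * R + 1) ^ 3 * KK' := by
    calc ((M : ℝ) / 2) ^ 2 ≤ (∑ x ∈ B, f x) ^ 2 := pow_le_pow_left₀ (by positivity) h2 2
      _ ≤ B.card * ∑ x ∈ B, f x ^ 2 := h3
      _ ≤ B.card * KK' := mul_le_mul_of_nonneg_left h1 (Nat.cast_nonneg _)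
      _ = (2 * R + 1) ^ 3 * KK' := by rw [hBcard]
  have hMr : (M : ℝ) = (q : ℝ) ^ 5 := by rw [hM]; push_cast; rfl
  have hRr : (2 * (R : ℝ) + 1) ≤ (16 * T + 1) * (q : ℝ) ^ 3 := by
    have h5 : (R : ℝ) = T * (8 * (q : ℝ) ^ 3) := by rw [hR]; push_cast; ring
    have h6 : (1 : ℝ) ≤ (q : ℝ) ^ 3 := one_le_pow₀ hq1r.le
    rw [h5]
    nlinarith
  have h5 : (2 * (R : ℝ) + 1) ^ 3 ≤ ((16 * T + 1) * (q : ℝ) ^ 3) ^ 3 :=
    pow_le_pow_left₀ (by positivity) hRr 3
  have h6 : ((q : ℝ) ^ 5 / 2) ^ 2 ≤ ((16 * T + 1) * (q : ℝ) ^ 3) ^ 3 * KK' := by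
    rw [← hMr]
    exact le_trans h4 (mul_le_mul_of_nonneg_right h5 hKK0)
  have h7 : (q : ℝ) ^ 9 * q ≤ (q : ℝ) ^ 9 * (4 * KK' * (16 * T + 1) ^ 3) := by
    have e1 : (q : ℝ) ^ 9 * q = 4 * (((q : ℝ) ^ 5 / 2) ^ 2) := by ring
    have e2 : (q : ℝ) ^ 9 * (4 * KK' * (16 * T + 1) ^ 3) =
        4 * (((16 * T + 1) * (q : ℝ) ^ 3) ^ 3 * KK') := by ring
    rw [e1, e2]
    linarith
  have h8 : (q : ℝ) ≤ 4 * KK' * (16 * T + 1) ^ 3 := le_of_mul_le_mul_left h7 (by positivity)
  linarith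

end Pool.Agent.Bubble
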