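import Pool.Agent.Bubble.Trans2

/-! Exponential moments at the scale `n ^ (3 / 5)`. -/

namespace Pool.Agent.Bubble

open Finset Pool.Agent.SubBall Filter Topology
open Classical

variable {S V : Type} [Fintype S] [Inhabited S] [AddCommGroup V]

/-- exponential moments -/
noncomputable def Ph (vec : S → V) (φ : V →+ ℤ) (μ : ℝ) (n : ℕ) (y : ℝ) : ℝ :=
  Ex vec μ n (fun w => Real.exp (y * |xv vec φ n w|))

/-- the inverse of the scale -/
noncomputable def bb (n : ℕ) : ℝ := (n : ℝ) ^ (-(3 / 5) : ℝ)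

theorem bb_nonneg (n : ℕ) : 0 ≤ bb n := Real.rpow_nonneg (Nat.cast_nonneg _) _

theorem bb_pos {n : ℕ} (hn : 1 ≤ n) : 0 < bb n := by
  unfold bb
  exact Real.rpow_pos_of_pos (by exact_mod_cast hn) _

theorem bb_le_one (n : ℕ) : bb n ≤ 1 := by
  rcases Nat.eq_zero_or_pos n with h | h
  · subst h
    unfold bb
    rw [Nat.cast_zero, Real.zero_rpow (by norm_num)]
    exact zero_le_one
  · unfold bb
    exact Real.rpow_le_one_of_one_le_of_nonpos (by exact_mod_cast h) (by norm_num)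

theorem bb_scale {n N : ℕ} (hn : 1 ≤ n) {q : ℝ} (hq : 0 < q) (h : q * n ≤ N) :
    q ^ (3 / 5 : ℝ) * bb N ≤ bb n := by
  have hn0 : (0 : ℝ) < n := by exact_mod_cast hn
  have hN0 : (0 : ℝ) < N := lt_of_lt_of_le (by positivity) h
  unfold bb
  rw [Real.rpow_neg hN0.le, Real.rpow_neg hn0.le, ← div_eq_mul_inv, ← Real.div_rpow hq.le hN0.le,
    ← Real.inv_rpow hn0.le]
  refine Real.rpow_le_rpow (by positivity) ?_ (by norm_num)
  rw [div_le_iff₀ hN0, inv_mul_eq_div, le_div_iff₀ hn0]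
  exact h

theorem exp_sub_one_le {t : ℝ} : Real.exp t - 1 ≤ t * Real.exp t := by
  have h1 := Real.add_one_le_exp (-t)
  have h2 := Real.exp_pos t
  have h3 : Real.exp (-t) * Real.exp t = 1 := by rw [← Real.exp_add]; simp
  nlinarith

theorem exp_trunc {a c l x : ℝ} (ha : 0 ≤ a) (hc : 1 ≤ c) (hl : 0 ≤ l) :
    Real.exp (a * |x|) ≤ 1 + Real.exp l * ps a l x +
      Real.exp (-((c - 1) * l)) * Real.exp (c * a * |x|) := by
  set t := a * |x| with ht
  have ht0 : 0 ≤ t := mul_nonneg ha (abs_nonneg _)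
  have h3 : c * a * |x| = c * t := by rw [ht]; ring
  rw [h3]
  rcases le_or_gt t l with h | h
  · have h1 : ps a l x = t := min_eq_left h
    rw [h1]
    have h2 := @exp_sub_one_le t
    have h4 : t * Real.exp t ≤ Real.exp l * t := by
      rw [mul_comm]
      exact mul_le_mul_of_nonneg_right (Real.exp_le_exp.2 h) ht0
    have h5 : 0 ≤ Real.exp (-((c - 1) * l)) * Real.exp (c * t) := by positivity
    linarith
  · have h1 : 0 ≤ Real.exp l * ps a l x :=
      mul_nonneg (Real.exp_pos _).le (ps_nonneg ha hl x)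
    have h2 : Real.exp t ≤ Real.exp (-((c - 1) * l)) * Real.exp (c * t) := by
      rw [← Real.exp_add]
      apply Real.exp_le_exp.2
      nlinarith
    linarith

theorem sq_le_two_exp {t : ℝ} (ht : 0 ≤ t) : t ^ 2 ≤ 2 * Real.exp t := by
  have h := Real.quadratic_le_exp_of_nonneg ht
  nlinarith

section

variable {vec : S → V} {μ K : ℝ} (h : Cr vec μ K) {φ : V →+ ℤ} (hφ : Lip vec φ)

include h

theorem Cr.Ph_nonneg (n : ℕ) (y : ℝ) : 0 ≤ Ph vec φ μ n y := by
  have hμ := h.mpos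
  unfold Ph Ex
  exact div_nonneg (Finset.sum_nonneg (fun _ _ => (Real.exp_pos _).le)) (by positivity)

theorem Cr.Ph_mono (n : ℕ) {y y' : ℝ} (hy : y ≤ y') : Ph vec φ μ n y ≤ Ph vec φ μ n y' := by
  have hμ := h.mpos
  unfold Ph Ex
  refine div_le_div_of_nonneg_right (Finset.sum_le_sum (fun w _ => ?_)) (by positivity)
  exact Real.exp_le_exp.2 (mul_le_mul_of_nonneg_right hy (abs_nonneg _))

theorem Cr.Ph_add_le (m n : ℕ) {y : ℝ} (hy : 0 ≤ y) :
    Ph vec φ μ (m + n) y ≤ Ph vec φ μ m y * Ph vec φ μ n y := by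
  have hμ := h.mpos
  have h1 := Ex_split (vec := vec) hμ m n (fun u => Real.exp (y * |xv vec φ m u|))
    (fun v => Real.exp (y * |xv vec φ n v|)) (fun _ => (Real.exp_pos _).le)
    (fun _ => (Real.exp_pos _).le)
  refine le_trans ?_ h1
  unfold Ph Ex
  refine div_le_div_of_nonneg_right (Finset.sum_le_sum (fun w _ => ?_)) (by positivity)
  rw [← Real.exp_add, xv_cut]
  apply Real.exp_le_exp.2
  rw [← mul_add]
  refine mul_le_mul_of_nonneg_left ?_ hy
  have e : xv vec φ (m + n) w = xv vec φ m w + xv vec φ n (sh m w) := by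
    unfold xv
    rw [pos_add, map_add]
    push_cast
    ring
  rw [e]
  exact abs_add_le _ _

theorem Cr.Ph_zero (y : ℝ) : Ph vec φ μ 0 y ≤ 2 * K := by
  have hK1 := h.one_le_K
  unfold Ph Ex
  rw [saws_zero]
  simp [xv]
  linarith

theorem Cr.en_le (n : ℕ) {y : ℝ} (hy : 0 ≤ y) :
    y ^ 2 * en vec φ μ n ≤ 2 * Ph vec φ μ n y := by
  have hμ := h.mpos
  unfold en Ph Ex
  rw [← mul_div_assoc, ← mul_div_assoc, Finset.mul_sum, Finset.mul_sum]
  refine div_le_div_of_nonneg_right (Finset.sum_le_sum (fun w _ => ?_)) (by positivity)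
  have h1 := sq_le_two_exp (t := y * |xv vec φ n w|) (mul_nonneg hy (abs_nonneg _))
  rwa [mul_pow, sq_abs] at h1

include hφ

theorem Cr.Ph_le (n : ℕ) {y : ℝ} (hy : 0 ≤ y) : Ph vec φ μ n y ≤ K * Real.exp (y * n) := by
  refine (h.PfEx n).le_const (Real.exp_pos _).le ?_ ?_
  · refine ⟨Real.exp (y * n), fun w => ?_⟩
    rw [abs_of_pos (Real.exp_pos _)]
    exact Real.exp_le_exp.2 (mul_le_mul_of_nonneg_left (xv_abs_le hφ n w) hy)
  · intro w
    exact Real.exp_le_exp.2 (mul_le_mul_of_nonneg_left (xv_abs_le hφ n w) hy)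

/-- subdiffusive exponential moments under the bubble condition -/
theorem Cr.moment (ν : Sym vec) (hν : ∀ v, ν.L v = -v)
    (hsb : Tendsto (fun R : ℕ => en vec φ μ R / (R : ℝ) ^ 2) atTop (𝓝 0)) :
    ∃ κ : ℝ, 0 < κ ∧ ∀ n : ℕ, Ph vec φ μ n (κ * bb n) ≤ 2 * K := by
  by_contra hcon
  push Not at hcon
  have hK1 := h.one_le_K
  have hK0 : 0 < K := by linarith
  -- constants
  set c : ℝ := (2 : ℝ) ^ (3 / 5 : ℝ) with hc
  have hc1 : 1 < c := Real.one_lt_rpow (by norm_num) (by norm_num)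
  have hc2 : c ≤ 2 := by
    calc c ≤ (2 : ℝ) ^ (1 : ℝ) := Real.rpow_le_rpow_of_exponent_le (by norm_num) (by norm_num)
      _ = 2 := Real.rpow_one 2
  obtain ⟨l, hl0, hl⟩ : ∃ l : ℝ, 0 ≤ l ∧ Real.exp (-((c - 1) * l)) * (2 * K) ^ 3 ≤ K / 4 := by
    refine ⟨(32 * K ^ 2) / (c - 1), by
      have : 0 < c - 1 := by linarith
      positivity, ?_⟩
    have h1 : (c - 1) * ((32 * K ^ 2) / (c - 1)) = 32 * K ^ 2 := by
      have : c - 1 ≠ 0 := by linarith
      field_simp
    rw [h1, Real.exp_neg]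
    have h2 : 32 * K ^ 2 ≤ Real.exp (32 * K ^ 2) := by
      have := Real.add_one_le_exp (32 * K ^ 2)
      linarith
    have h3 : (Real.exp (32 * K ^ 2))⁻¹ ≤ (32 * K ^ 2)⁻¹ :=
      inv_anti₀ (by positivity) h2
    calc (Real.exp (32 * K ^ 2))⁻¹ * (2 * K) ^ 3 ≤ (32 * K ^ 2)⁻¹ * (2 * K) ^ 3 :=
          mul_le_mul_of_nonneg_right h3 (by positivity)
      _ = K / 4 := by
          field_simp
          norm_num
  set c₂ : ℝ := (3 * K / 4) * Real.exp (-l) with hc₂
  have hc₂0 : 0 < c₂ := by positivity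
  set ρ : ℝ := c₂ / (4 * K ^ 2) with hρ
  have hρ0 : 0 < ρ := by positivity
  obtain ⟨k, N₀, a₀, ha₀, htr⟩ := h.transfer φ ν hν hφ (l := l) (ε := c₂ / 4) hl0 (by positivity)
  obtain ⟨q, hq⟩ := exists_nat_gt (12 * K ^ 5 / ρ ^ 2)
  have hq0 : (0 : ℝ) < q := lt_trans (by positivity) hq
  have hq1 : 1 ≤ q := by exact_mod_cast hq0
  have hq2 : 2 ≤ q := by
    by_contra hc
    have h1 : q = 1 := by omega
    rw [h1, Nat.cast_one] at hq
    have h2 : ρ ≤ 1 := by
      rw [hρ, div_le_one (by positivity), hc₂]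
      have h3 : Real.exp (-l) ≤ 1 := Real.exp_le_one_iff.2 (by linarith)
      have h4 : 3 * K / 4 * Real.exp (-l) ≤ 3 * K / 4 * 1 :=
        mul_le_mul_of_nonneg_left h3 (by positivity)
      nlinarith
    have h3 : 12 * K ^ 5 / ρ ^ 2 ≥ 12 := by
      rw [ge_iff_le, le_div_iff₀ (by positivity)]
      have h4 : ρ ^ 2 ≤ 1 := pow_le_one₀ hρ0.le h2
      have h5 : 1 ≤ K ^ 5 := one_le_pow₀ hK1
      nlinarith
    linarith
  set L : ℕ := q ^ 5 with hL
  have hL1 : 2 ≤ L := by
    calc 2 ≤ q := hq2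
      _ = q ^ 1 := (pow_one q).symm
      _ ≤ q ^ 5 := Nat.pow_le_pow_right (by omega) (by norm_num)
  have hLr : (L : ℝ) = (q : ℝ) ^ 5 := by rw [hL]; push_cast; rfl
  set ε' : ℝ := ρ ^ 2 / (12 * K ^ 2 * (q : ℝ) ^ 4) with hε'
  have hε'0 : 0 < ε' := by positivity
  obtain ⟨D, hD0, hD⟩ := h.variance hφ ν hν hsb hε'0 L
  -- the size of the walks
  set M₀ : ℕ := N₀ + 2 * k + 2 * L + 2 with hM₀
  have hM₀0 : (0 : ℝ) < M₀ := by
    have : 0 < M₀ := by omega
    exact_mod_cast this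
  set κ : ℝ := min (min (min a₀ (1 / 4)) (ρ / (L * K + 1)))
    (min (1 / (2 * M₀)) (ρ / (3 * K * D + 1 + 3 * K * D * ρ))) with hκ
  have hκ0 : 0 < κ := by
    refine lt_min (lt_min (lt_min ha₀ (by norm_num)) (by positivity))
      (lt_min (by positivity) (by positivity))
  have hκa : κ ≤ a₀ := le_trans (min_le_left _ _) (le_trans (min_le_left _ _) (min_le_left _ _))
  have hκb : κ ≤ 1 / 4 :=
    le_trans (min_le_left _ _) (le_trans (min_le_left _ _) (min_le_right _ _))
  have hκc : κ ≤ ρ / (L * K + 1) := le_trans (min_le_left _ _) (min_le_right _ _)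
  have hκd : κ ≤ 1 / (2 * M₀) := le_trans (min_le_right _ _) (min_le_left _ _)
  have hκe : κ ≤ ρ / (3 * K * D + 1 + 3 * K * D * ρ) :=
    le_trans (min_le_right _ _) (min_le_right _ _)
  -- the minimal counterexample
  have hex := hcon κ hκ0
  set N := Nat.find hex with hN
  have hNbad : 2 * K < Ph vec φ μ N (κ * bb N) := Nat.find_spec hex
  have hNmin : ∀ n < N, Ph vec φ μ n (κ * bb n) ≤ 2 * K := fun n hn =>
    not_lt.1 (Nat.find_min hex hn)
  have hexp2 : ∀ t : ℝ, t ≤ 1 / 2 → Real.exp t ≤ 2 := by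
    intro t ht
    have h1 : Real.exp t ≤ Real.exp (1 / 2) := Real.exp_le_exp.2 ht
    have h2 : Real.exp (1 / 2) ^ 2 ≤ 2 ^ 2 := by
      rw [← Real.exp_nat_mul]
      have := Real.exp_one_lt_d9
      norm_num
      linarith
    exact le_trans h1 (le_of_sq_le_sq h2 (by norm_num))
  have hNM : M₀ < N := by
    by_contra hle
    push Not at hle
    have h1 := h.Ph_le hφ N (y := κ * bb N) (mul_nonneg hκ0.le (bb_nonneg _))
    have h2 : κ * bb N * N ≤ 1 / 2 := by
      have h3 : (N : ℝ) ≤ M₀ := by exact_mod_cast hle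
      calc κ * bb N * N ≤ κ * 1 * M₀ := by
            refine mul_le_mul (mul_le_mul_of_nonneg_left (bb_le_one _) hκ0.le) h3
              (Nat.cast_nonneg _) (by positivity)
        _ ≤ 1 / (2 * M₀) * 1 * M₀ := by
            refine mul_le_mul_of_nonneg_right ?_ hM₀0.le
            exact mul_le_mul_of_nonneg_right hκd zero_le_one
        _ = 1 / 2 := by field_simp
    have h4 := hexp2 _ h2
    have h5 : K * Real.exp (κ * bb N * N) ≤ K * 2 := mul_le_mul_of_nonneg_left h4 hK0.le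
    linarith
  set a : ℝ := κ * bb N with ha
  have hN1 : 1 ≤ N := by omega
  have ha0 : 0 < a := mul_pos hκ0 (bb_pos hN1)
  have haκ : a ≤ κ := by
    calc a ≤ κ * 1 := mul_le_mul_of_nonneg_left (bb_le_one _) hκ0.le
      _ = κ := mul_one κ
  -- the doubled parameter
  have hdbl : Ph vec φ μ N (c * a) ≤ (2 * K) ^ 3 := by
    have hca : 0 ≤ c * a := by positivity
    have h1 : N / 2 < N := by omega
    have h2 : 1 ≤ N / 2 := by omega
    have h3 : Ph vec φ μ (N / 2) (c * a) ≤ 2 * K := by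
      refine le_trans (h.Ph_mono (N / 2) ?_) (hNmin _ h1)
      have h4 : (2 : ℝ) * ((N / 2 : ℕ) : ℝ) ≤ N := by
        have : 2 * (N / 2) ≤ N := by omega
        exact_mod_cast this
      have h5 := bb_scale h2 (by norm_num : (0 : ℝ) < 2) h4
      calc c * a = κ * (c * bb N) := by rw [ha]; ring
        _ ≤ κ * bb (N / 2) := mul_le_mul_of_nonneg_left h5 hκ0.le
    have h4 : Ph vec φ μ (N - 2 * (N / 2)) (c * a) ≤ 2 * K := by
      have h5 : N - 2 * (N / 2) = 0 ∨ N - 2 * (N / 2) = 1 := by omega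
      rcases h5 with h5 | h5
      · rw [h5]; exact h.Ph_zero _
      · rw [h5]
        have h6 := h.Ph_le hφ 1 hca
        have h7 : c * a * ((1 : ℕ) : ℝ) ≤ 1 / 2 := by
          rw [Nat.cast_one, mul_one]
          calc c * a ≤ 2 * κ := mul_le_mul hc2 haκ ha0.le (by norm_num)
            _ ≤ 1 / 2 := by linarith
        have h8 := hexp2 _ h7
        have h9 : K * Real.exp (c * a * ((1 : ℕ) : ℝ)) ≤ K * 2 :=
          mul_le_mul_of_nonneg_left h8 hK0.le
        linarith
    have e : N = N / 2 + (N / 2 + (N - 2 * (N / 2))) := by omega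
    have h5 := h.Ph_add_le (φ := φ) (N / 2) (N / 2 + (N - 2 * (N / 2))) hca
    have h6 := h.Ph_add_le (φ := φ) (N / 2) (N - 2 * (N / 2)) hca
    rw [← e] at h5
    have n1 := h.Ph_nonneg (φ := φ) (N / 2) (c * a)
    have n2 := h.Ph_nonneg (φ := φ) (N - 2 * (N / 2)) (c * a)
    have n3 := h.Ph_nonneg (φ := φ) (N / 2 + (N - 2 * (N / 2))) (c * a)
    calc Ph vec φ μ N (c * a)
        ≤ Ph vec φ μ (N / 2) (c * a) * Ph vec φ μ (N / 2 + (N - 2 * (N / 2))) (c * a) := h5
      _ ≤ (2 * K) * ((2 * K) * (2 * K)) := by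
          refine mul_le_mul h3 (le_trans h6 ?_) n3 (by positivity)
          exact mul_le_mul h3 h4 n2 (by positivity)
      _ = (2 * K) ^ 3 := by ring
  -- lower bound for the truncated moment
  have hlow : c₂ ≤ Ex vec μ N (fun w => ps a l (xv vec φ N w)) := by
    have h1 : Ph vec φ μ N a ≤ Ex vec μ N (fun w => 1 + Real.exp l * ps a l (xv vec φ N w) +
        Real.exp (-((c - 1) * l)) * Real.exp (c * a * |xv vec φ N w|)) := by
      have hμ := h.mpos
      unfold Ph Ex
      refine div_le_div_of_nonneg_right (Finset.sum_le_sum (fun w _ => ?_)) (by positivity)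
      exact exp_trunc ha0.le hc1.le hl0
    have h2 : Ex vec μ N (fun w => 1 + Real.exp l * ps a l (xv vec φ N w) +
        Real.exp (-((c - 1) * l)) * Real.exp (c * a * |xv vec φ N w|)) =
        Ex vec μ N (fun _ => 1) + Real.exp l * Ex vec μ N (fun w => ps a l (xv vec φ N w)) +
        Real.exp (-((c - 1) * l)) * Ph vec φ μ N (c * a) := by
      unfold Ph Ex
      rw [Finset.sum_add_distrib, Finset.sum_add_distrib, ← Finset.mul_sum, ← Finset.mul_sum]
      ring
    rw [h2] at h1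
    have h3 := (h.PfEx N).one
    have h4 : Real.exp (-((c - 1) * l)) * Ph vec φ μ N (c * a) ≤ K / 4 :=
      le_trans (mul_le_mul_of_nonneg_left hdbl (Real.exp_pos _).le) hl
    have h5 : 3 * K / 4 ≤ Real.exp l * Ex vec μ N (fun w => ps a l (xv vec φ N w)) := by
      linarith
    rw [hc₂, Real.exp_neg, ← div_eq_mul_inv, div_le_iff₀ (Real.exp_pos _)]
    linarith
  -- transfer
  set N' : ℕ := N - 2 * k with hN'
  have hNN' : N = k + (N' + k) := by omega
  have h1 := htr N' (by omega) a ha0.le (le_trans haκ hκa)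
  rw [← hNN'] at h1
  have h2 : 3 * ρ ≤ Rh vec μ (fun x => ps a l (Sb Ts (fx vec φ) N' x)) := by
    have h3 : 3 * c₂ / 4 ≤ K ^ 2 * Rh vec μ (fun x => ps a l (Sb Ts (fx vec φ) N' x)) := by
      linarith
    have h4 : 3 * ρ = (3 * c₂ / 4) / K ^ 2 := by rw [hρ]; field_simp
    rw [h4, div_le_iff₀ (by positivity)]
    linarith
  -- upper bound by the variance
  set n : ℕ := N' / L with hn
  have hLN' : L * n ≤ N' := Nat.mul_div_le N' L
  have hLN'2 : N' < L * n + L := by
    have := Nat.lt_mul_div_succ N' (show 0 < L by omega)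
    rw [Nat.mul_succ] at this
    exact this
  have hn1 : 1 ≤ n := by
    rw [hn, Nat.le_div_iff_mul_le (by omega)]
    omega
  have hnN : n < N := by
    have h3 : n * 2 ≤ L * n := by rw [mul_comm L n]; exact Nat.mul_le_mul_left n hL1
    omega
  have hen : a ^ 2 * en vec φ μ n ≤ 4 * K / (q : ℝ) ^ 6 := by
    have h3 := hNmin n hnN
    have h4 := h.en_le (φ := φ) n (y := κ * bb n) (mul_nonneg hκ0.le (bb_nonneg _))
    have h5 : (L : ℝ) * n ≤ N := by
      have : L * n ≤ N := by omega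
      exact_mod_cast this
    have hL0 : (0 : ℝ) < L := by rw [hLr]; positivity
    have h6 := bb_scale hn1 hL0 h5
    have h7 : (L : ℝ) ^ (3 / 5 : ℝ) = (q : ℝ) ^ 3 := by
      rw [hLr, ← Real.rpow_natCast, ← Real.rpow_natCast, ← Real.rpow_mul hq0.le]
      norm_num
    rw [h7] at h6
    have h8 : (q : ℝ) ^ 3 * a ≤ κ * bb n := by
      calc (q : ℝ) ^ 3 * a = κ * ((q : ℝ) ^ 3 * bb N) := by rw [ha]; ring
        _ ≤ κ * bb n := mul_le_mul_of_nonneg_left h6 hκ0.le
    have h9 : ((q : ℝ) ^ 3 * a) ^ 2 ≤ (κ * bb n) ^ 2 := pow_le_pow_left₀ (by positivity) h8 2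
    have h10 := mul_le_mul_of_nonneg_right h9 (h.en_nonneg (φ := φ) n)
    rw [le_div_iff₀ (by positivity)]
    have h11 : a ^ 2 * en vec φ μ n * (q : ℝ) ^ 6 = ((q : ℝ) ^ 3 * a) ^ 2 * en vec φ μ n := by ring
    rw [h11]
    linarith
  have hvar := hD n
  have hf1 : ∀ x, |fx vec φ x| ≤ 1 := fx_abs_le hφ
  have hS : ∀ n, Bd (Sb Ts (fx vec φ) n) := fun n => Sb_Bd hf1 n
  have h3 : a ^ 2 * (K * Rh vec μ (fun x => Sb Ts (fx vec φ) (L * n) x ^ 2)) ≤ ρ ^ 2 := by
    have hE0 := h.en_nonneg (φ := φ) n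
    have t1 : a ^ 2 * K * D ≤ ρ ^ 2 / 3 := by
      have hDp : 0 < 3 * K * D + 1 + 3 * K * D * ρ := by positivity
      have h4 : a ≤ ρ / (3 * K * D + 1 + 3 * K * D * ρ) := le_trans haκ hκe
      rw [le_div_iff₀ hDp] at h4
      have h5 : a * 1 ≤ ρ := by
        refine le_trans (mul_le_mul_of_nonneg_left ?_ ha0.le) h4
        have : 0 ≤ 3 * K * D := by positivity
        have : 0 ≤ 3 * K * D * ρ := by positivity
        linarith
      have h6 : a * (3 * K * D) ≤ ρ := by
        refine le_trans (mul_le_mul_of_nonneg_left ?_ ha0.le) h4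
        have : 0 ≤ 3 * K * D * ρ := by positivity
        linarith
      have h7 : a * (a * (3 * K * D)) ≤ ρ * ρ :=
        mul_le_mul (by linarith) h6 (by positivity) hρ0.le
      have h8 : a * (a * (3 * K * D)) = 3 * (a ^ 2 * K * D) := by ring
      rw [h8, ← sq] at h7
      linarith
    have t2 : K * (L * K ^ 3) * (a ^ 2 * en vec φ μ n) ≤ ρ ^ 2 / 3 := by
      calc K * (L * K ^ 3) * (a ^ 2 * en vec φ μ n)
          ≤ K * (L * K ^ 3) * (4 * K / (q : ℝ) ^ 6) :=
            mul_le_mul_of_nonneg_left hen (by positivity)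
        _ = 4 * K ^ 5 / q := by rw [hLr]; field_simp
        _ ≤ ρ ^ 2 / 3 := by
            rw [div_le_div_iff₀ hq0 (by norm_num)]
            rw [div_lt_iff₀ (by positivity)] at hq
            linarith
    have t3 : K * ((L : ℝ) ^ 2 * ε') * (a ^ 2 * en vec φ μ n) ≤ ρ ^ 2 / 3 := by
      calc K * ((L : ℝ) ^ 2 * ε') * (a ^ 2 * en vec φ μ n)
          ≤ K * ((L : ℝ) ^ 2 * ε') * (4 * K / (q : ℝ) ^ 6) :=
            mul_le_mul_of_nonneg_left hen (by positivity)
        _ = ρ ^ 2 / 3 := by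
            rw [hLr, hε']
            field_simp
            norm_num
    calc a ^ 2 * (K * Rh vec μ (fun x => Sb Ts (fx vec φ) (L * n) x ^ 2))
        ≤ a ^ 2 * (K * (D + (L * K ^ 3 + (L : ℝ) ^ 2 * ε') * en vec φ μ n)) :=
          mul_le_mul_of_nonneg_left (mul_le_mul_of_nonneg_left hvar hK0.le) (by positivity)
      _ = a ^ 2 * K * D + K * (L * K ^ 3) * (a ^ 2 * en vec φ μ n) +
          K * ((L : ℝ) ^ 2 * ε') * (a ^ 2 * en vec φ μ n) := by ring
      _ ≤ ρ ^ 2 := by linarith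
  have h4 : a * Rh vec μ (fun x => |Sb Ts (fx vec φ) (L * n) x|) ≤ ρ := by
    refine le_of_sq_le_sq ?_ hρ0.le
    rw [mul_pow]
    have h5 := h.mean.cs (Bd.const 1) (hS (L * n)).abs
    simp only [one_mul, sq_abs, one_pow] at h5
    have h6 := h.mean.one
    have h7 : 0 ≤ Rh vec μ (fun x => Sb Ts (fx vec φ) (L * n) x ^ 2) :=
      h.mean.nonneg _ (hS _).sq (fun _ => sq_nonneg _)
    have h8 := mul_le_mul_of_nonneg_right h6 h7
    refine le_trans (mul_le_mul_of_nonneg_left (le_trans h5 h8) (by positivity)) h3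
  have h5 : Rh vec μ (fun x => ps a l (Sb Ts (fx vec φ) N' x)) ≤ 2 * ρ := by
    have h6 : Rh vec μ (fun x => ps a l (Sb Ts (fx vec φ) N' x)) ≤
        Rh vec μ (fun x => a * |Sb Ts (fx vec φ) (L * n) x| + (a * L) * 1) := by
      refine h.mean.mono (ps_Bd ha0.le hl0 _)
        (((hS (L * n)).abs.smul _).add ((Bd.const 1).smul _)) ?_
      intro x
      refine le_trans (ps_le' _ _ _) ?_
      have h7 : N' = L * n + (N' - L * n) := by omega
      have h8 : Sb Ts (fx vec φ) N' x = Sb Ts (fx vec φ) (L * n) x +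
          Sb Ts (fx vec φ) (N' - L * n) (Ts^[L * n] x) := by
        rw [← Sb_add, ← h7]
      have h9 := Sb_abs_le (T := Ts) hf1 (N' - L * n) (Ts^[L * n] x)
      have h10 : ((N' - L * n : ℕ) : ℝ) ≤ L := by
        have : N' - L * n ≤ L := by omega
        exact_mod_cast this
      rw [h8]
      calc a * |Sb Ts (fx vec φ) (L * n) x + Sb Ts (fx vec φ) (N' - L * n) (Ts^[L * n] x)|
          ≤ a * (|Sb Ts (fx vec φ) (L * n) x| + L) := by
            refine mul_le_mul_of_nonneg_left ?_ ha0.le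
            refine le_trans (abs_add_le _ _) ?_
            linarith
        _ = a * |Sb Ts (fx vec φ) (L * n) x| + (a * L) * 1 := by ring
    rw [h.mean.add _ _ ((hS (L * n)).abs.smul _) ((Bd.const 1).smul _),
      h.mean.smul _ _ (hS (L * n)).abs, h.mean.smul _ _ (Bd.const 1)] at h6
    have h7 : a * L * Rh vec μ (fun _ => 1) ≤ ρ := by
      have h8 := h.mean.one
      have hL0 : (0 : ℝ) ≤ L := Nat.cast_nonneg _
      have h9 : a ≤ ρ / (L * K + 1) := le_trans haκ hκc
      rw [le_div_iff₀ (by positivity)] at h9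
      calc a * L * Rh vec μ (fun _ => 1) ≤ a * L * K :=
            mul_le_mul_of_nonneg_left h8 (by positivity)
        _ ≤ a * (L * K + 1) := by
            have : a * (L * K + 1) = a * L * K + a := by ring
            rw [this]
            linarith
        _ ≤ ρ := h9
    linarith
  linarith

end

end Pool.Agent.Bubble
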