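import Pool.Agent.Bubble.Ul
import Pool.Agent.Bubble.Bdd

/-! The one-sided and two-sided averages over self-avoiding walks. -/

namespace Pool.Agent.Bubble

open Finset Pool.Agent.SubBall Filter Topology
open Classical

variable {S V : Type} [Fintype S] [Inhabited S] [AddCommGroup V]

/-- the standing assumptions, with an explicit constant -/
structure Cr (vec : S → V) (μ K : ℝ) : Prop where
  mpos : 0 < μ
  one_le : ∀ n, 1 ≤ an vec μ n
  le : ∀ n, an vec μ n ≤ K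
  sum : Summable (W vec μ)

theorem Cr.one_le_K {vec : S → V} {μ K : ℝ} (h : Cr vec μ K) : 1 ≤ K :=
  le_trans (h.one_le 0) (h.le 0)

theorem Cr.K_nonneg {vec : S → V} {μ K : ℝ} (h : Cr vec μ K) : 0 ≤ K :=
  le_trans zero_le_one h.one_le_K

theorem Crit.cr {vec : S → V} (ν : Sym vec) (hν : ∀ v, ν.L v = -v) {μ : ℝ}
    (h : Crit vec μ) : Cr vec μ (KK vec μ) := ⟨h.mpos, h.one_le, h.le_KK ν hν, h.sum⟩

theorem Pf_avg {X ι : Type} {K N : ℝ} (hK : 0 ≤ K) (s : Finset ι) (ρ : ι → (X → ℝ) → ℝ)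
    (h : ∀ i ∈ s, Pf (ρ i) K) (hN : (s.card : ℝ) ≤ N) :
    Pf (fun f => (∑ i ∈ s, ρ i f) / N) K := by
  have hN0 : 0 ≤ N := le_trans (Nat.cast_nonneg _) hN
  refine ⟨?_, ?_, ?_, ?_⟩
  · intro f g hf hg
    rw [← add_div, ← Finset.sum_add_distrib]
    congr 1
    exact Finset.sum_congr rfl (fun i hi => (h i hi).add f g hf hg)
  · intro c f hf
    rw [← mul_div_assoc, Finset.mul_sum]
    congr 1
    exact Finset.sum_congr rfl (fun i hi => (h i hi).smul c f hf)
  · intro f hf hf0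
    exact div_nonneg (Finset.sum_nonneg (fun i hi => (h i hi).nonneg f hf hf0)) hN0
  · rcases hN0.eq_or_lt with h0 | h0
    · rw [← h0, div_zero]; exact hK
    · rw [div_le_iff₀ h0]
      calc ∑ i ∈ s, ρ i (fun _ => 1) ≤ ∑ i ∈ s, K := Finset.sum_le_sum (fun i hi => (h i hi).one)
        _ = s.card * K := by rw [Finset.sum_const, nsmul_eq_mul]
        _ ≤ K * N := by
            rw [mul_comm]
            exact mul_le_mul_of_nonneg_left hN hK

/-- normalised sum over the walks of length `n` -/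
noncomputable def Ex (vec : S → V) (μ : ℝ) (n : ℕ) (F : (ℕ → S) → ℝ) : ℝ :=
  (∑ w ∈ saws vec n, F w) / μ ^ n

/-- normalised sum over pairs of walks -/
noncomputable def Ex2 (vec : S → V) (μ : ℝ) (p : ℕ × ℕ)
    (H : (ℕ × ℕ) × ((ℕ → S) × (ℕ → S)) → ℝ) : ℝ :=
  (∑ q ∈ saws vec p.1 ×ˢ saws vec p.2, H (p, q)) / μ ^ (p.1 + p.2)

/-- average over walk lengths -/
noncomputable def AM (vec : S → V) (μ : ℝ) (M : ℕ) (F : (ℕ → S) → ℝ) : ℝ :=
  (∑ m ∈ range M, Ex vec μ m F) / M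

/-- average over pairs of walks -/
noncomputable def DM (vec : S → V) (μ : ℝ) (M : ℕ)
    (H : (ℕ × ℕ) × ((ℕ → S) × (ℕ → S)) → ℝ) : ℝ :=
  (∑ p ∈ range M ×ˢ range M, Ex2 vec μ p H) / (M : ℝ) ^ 2

/-- average over walks with a marked time -/
noncomputable def RM (vec : S → V) (μ : ℝ) (M : ℕ) (H : (ℕ → S) × ℕ → ℝ) : ℝ :=
  (∑ p ∈ range M ×ˢ range M, Ex vec μ (p.1 + p.2) (fun w => H (w, p.1))) / (M : ℝ) ^ 2

section

variable {vec : S → V} {μ K : ℝ} (h : Cr vec μ K)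

include h

theorem Cr.PfEx (n : ℕ) : Pf (Ex vec μ n) K := by
  have hμ := h.mpos
  refine ⟨?_, ?_, ?_, ?_⟩
  · intro f g _ _
    unfold Ex
    rw [Finset.sum_add_distrib, add_div]
  · intro c f _
    unfold Ex
    rw [← Finset.mul_sum, mul_div_assoc]
  · intro f _ hf0
    unfold Ex
    exact div_nonneg (Finset.sum_nonneg (fun w _ => hf0 w)) (by positivity)
  · unfold Ex
    rw [Finset.sum_const, nsmul_eq_mul, mul_one]
    exact h.le n

theorem Cr.PfExs (n m : ℕ) :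
    Pf (fun H : (ℕ → S) × ℕ → ℝ => Ex vec μ n (fun w => H (w, m))) K := by
  have h1 := h.PfEx n
  refine ⟨?_, ?_, ?_, ?_⟩
  · intro f g hf hg
    exact h1.add _ _ (hf.comp _) (hg.comp _)
  · intro c f hf
    exact h1.smul _ _ (hf.comp _)
  · intro f hf hf0
    exact h1.nonneg _ (hf.comp _) (fun w => hf0 _)
  · exact h1.one

theorem Cr.PfEx2 (p : ℕ × ℕ) : Pf (Ex2 vec μ p) (K ^ 2) := by
  have hμ := h.mpos
  refine ⟨?_, ?_, ?_, ?_⟩
  · intro f g _ _
    unfold Ex2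
    rw [Finset.sum_add_distrib, add_div]
  · intro c f _
    unfold Ex2
    rw [← Finset.mul_sum, mul_div_assoc]
  · intro f _ hf0
    unfold Ex2
    exact div_nonneg (Finset.sum_nonneg (fun w _ => hf0 _)) (by positivity)
  · unfold Ex2
    rw [Finset.sum_const, nsmul_eq_mul, mul_one, Finset.card_product, pow_add]
    push_cast
    rw [mul_div_mul_comm, sq]
    exact mul_le_mul (h.le _) (h.le _) (an_nonneg vec hμ _) h.K_nonneg

theorem Cr.PfAM (M : ℕ) : Pf (AM vec μ M) K :=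
  Pf_avg h.K_nonneg (range M) (fun m => Ex vec μ m) (fun m _ => h.PfEx m) (by simp)

theorem Cr.PfDM (M : ℕ) : Pf (DM vec μ M) (K ^ 2) :=
  Pf_avg (pow_nonneg h.K_nonneg 2) (range M ×ˢ range M) (fun p => Ex2 vec μ p)
    (fun p _ => h.PfEx2 p) (by rw [Finset.card_product, Finset.card_range]; push_cast; rw [sq])

theorem Cr.PfRM (M : ℕ) : Pf (RM vec μ M) K :=
  Pf_avg h.K_nonneg (range M ×ˢ range M)
    (fun p H => Ex vec μ (p.1 + p.2) (fun w => H (w, p.1)))
    (fun p _ => h.PfExs _ _) (by rw [Finset.card_product, Finset.card_range]; push_cast; rw [sq])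

end

/-- the shift of the marked time -/
def Ts (x : (ℕ → S) × ℕ) : (ℕ → S) × ℕ := (x.1, x.2 + 1)

omit [Fintype S] [Inhabited S] in
theorem Ts_iter (t : ℕ) (x : (ℕ → S) × ℕ) : Ts^[t] x = (x.1, x.2 + t) := by
  induction t with
  | zero => rfl
  | succ t ih =>
    rw [Function.iterate_succ_apply', ih]
    rfl

theorem Cr.shift_le {vec : S → V} {μ K : ℝ} (h : Cr vec μ K) {H : (ℕ → S) × ℕ → ℝ} {C : ℝ}
    (hC : 0 ≤ C) (hH : ∀ x, |H x| ≤ C) (M : ℕ) :
    |RM vec μ M (fun x => H (Ts x)) - RM vec μ M H| ≤ 4 * (K * C) / M := by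
  have hK := h.K_nonneg
  rcases Nat.eq_zero_or_pos M with hM | hM
  · subst hM
    simp [RM]
  obtain ⟨N, rfl⟩ : ∃ N, M = N + 1 := ⟨M - 1, by omega⟩
  -- the basic terms
  set g : ℕ → ℕ → ℝ := fun l s => Ex vec μ l (fun w => H (w, s)) with hg
  have hgb : ∀ l s, |g l s| ≤ K * C := by
    intro l s
    exact (h.PfEx l).abs_le_const hC (fun w => hH _)
  have e1 : ∑ p ∈ range (N + 1) ×ˢ range (N + 1),
      Ex vec μ (p.1 + p.2) (fun w => H (Ts (w, p.1))) =
      ∑ n ∈ range (N + 1), ∑ m ∈ range (N + 1), g (m + n) (m + 1) := by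
    rw [Finset.sum_product, Finset.sum_comm]
    rfl
  have e2 : ∑ p ∈ range (N + 1) ×ˢ range (N + 1),
      Ex vec μ (p.1 + p.2) (fun w => H (w, p.1)) =
      ∑ n ∈ range (N + 1), ∑ m ∈ range (N + 1), g (m + n) m := by
    rw [Finset.sum_product, Finset.sum_comm]
  have e3 : ∑ n ∈ range (N + 1), ∑ m ∈ range (N + 1), g (m + n) (m + 1) =
      ∑ n ∈ range N, ∑ m ∈ range (N + 1), g ((m + 1) + n) (m + 1) +
        ∑ m ∈ range (N + 1), g m (m + 1) := by
    rw [Finset.sum_range_succ']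
    congr 1
    refine Finset.sum_congr rfl (fun n _ => Finset.sum_congr rfl (fun m _ => ?_))
    have e : m + (n + 1) = m + 1 + n := by ring
    rw [e]
  have e4 : ∀ n, ∑ m ∈ range (N + 1), g ((m + 1) + n) (m + 1) =
      ∑ m ∈ range (N + 1), g (m + n) m + (g (N + 1 + n) (N + 1) - g (0 + n) 0) := by
    intro n
    have h1 := Finset.sum_range_succ (fun m => g (m + n) m) (N + 1)
    have h2 := Finset.sum_range_succ' (fun m => g (m + n) m) (N + 1)
    linarith
  have e5 : ∑ n ∈ range (N + 1), ∑ m ∈ range (N + 1), g (m + n) m =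
      ∑ n ∈ range N, ∑ m ∈ range (N + 1), g (m + n) m +
        ∑ m ∈ range (N + 1), g (m + N) m := by
    rw [Finset.sum_range_succ]
  have e6 : ∑ n ∈ range (N + 1), ∑ m ∈ range (N + 1), g (m + n) (m + 1) -
      ∑ n ∈ range (N + 1), ∑ m ∈ range (N + 1), g (m + n) m =
      ∑ n ∈ range N, (g (N + 1 + n) (N + 1) - g (0 + n) 0) +
        ∑ m ∈ range (N + 1), (g m (m + 1) - g (m + N) m) := by
    rw [e3, e5, Finset.sum_congr rfl (fun n _ => e4 n), Finset.sum_add_distrib,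
      Finset.sum_sub_distrib (s := range (N + 1))]
    ring
  have hN : (0 : ℝ) < ((N + 1 : ℕ) : ℝ) := by positivity
  unfold RM
  rw [e1, e2, ← sub_div, e6, abs_div, abs_of_pos (pow_pos hN 2), div_le_div_iff₀ (by positivity) hN]
  have b1 : |∑ n ∈ range N, (g (N + 1 + n) (N + 1) - g (0 + n) 0)| ≤ N * (2 * (K * C)) := by
    refine le_trans (Finset.abs_sum_le_sum_abs _ _) ?_
    refine le_trans (Finset.sum_le_card_nsmul _ _ (2 * (K * C)) ?_) ?_
    · intro n _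
      refine le_trans (abs_sub _ _) ?_
      linarith [hgb (N + 1 + n) (N + 1), hgb (0 + n) 0]
    · rw [Finset.card_range, nsmul_eq_mul]
  have b2 : |∑ m ∈ range (N + 1), (g m (m + 1) - g (m + N) m)| ≤
      ((N + 1 : ℕ) : ℝ) * (2 * (K * C)) := by
    refine le_trans (Finset.abs_sum_le_sum_abs _ _) ?_
    refine le_trans (Finset.sum_le_card_nsmul _ _ (2 * (K * C)) ?_) ?_
    · intro n _
      refine le_trans (abs_sub _ _) ?_
      linarith [hgb n (n + 1), hgb (n + N) n]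
    · rw [Finset.card_range, nsmul_eq_mul]
  have b3 : |∑ n ∈ range N, (g (N + 1 + n) (N + 1) - g (0 + n) 0) +
        ∑ m ∈ range (N + 1), (g m (m + 1) - g (m + N) m)| ≤
      ((N + 1 : ℕ) : ℝ) * (4 * (K * C)) := by
    refine le_trans (abs_add_le _ _) ?_
    have h1 : (N : ℝ) ≤ ((N + 1 : ℕ) : ℝ) := by push_cast; linarith
    have h2 : (0 : ℝ) ≤ 2 * (K * C) := by positivity
    nlinarith
  calc |∑ n ∈ range N, (g (N + 1 + n) (N + 1) - g (0 + n) 0) +
        ∑ m ∈ range (N + 1), (g m (m + 1) - g (m + N) m)| * ((N + 1 : ℕ) : ℝ)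
      ≤ (((N + 1 : ℕ) : ℝ) * (4 * (K * C))) * ((N + 1 : ℕ) : ℝ) :=
        mul_le_mul_of_nonneg_right b3 hN.le
    _ = 4 * (K * C) * ((N + 1 : ℕ) : ℝ) ^ 2 := by ring

/-- the two-sided limit functional -/
noncomputable def Rh (vec : S → V) (μ : ℝ) (H : (ℕ → S) × ℕ → ℝ) : ℝ :=
  ul (fun M => RM vec μ M H)

/-- the one-sided limit functional -/
noncomputable def Ah (vec : S → V) (μ : ℝ) (F : (ℕ → S) → ℝ) : ℝ :=
  ul (fun M => AM vec μ M F)

theorem Cr.PfAh {vec : S → V} {μ K : ℝ} (h : Cr vec μ K) : Pf (Ah vec μ) K :=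
  Pf_ul h.PfAM

theorem Cr.mean {vec : S → V} {μ K : ℝ} (h : Cr vec μ K) : Mean Ts (Rh vec μ) K := by
  have h1 : Pf (Rh vec μ) K := Pf_ul h.PfRM
  refine ⟨h1, ?_⟩
  intro f hf
  obtain ⟨C, hC0, hC⟩ := hf.pos
  have b1 : ∀ M, |RM vec μ M f| ≤ K * C := fun M => (h.PfRM M).abs_le_const hC0 hC
  have b2 : ∀ M, |RM vec μ M (fun x => f (Ts x))| ≤ K * C :=
    fun M => (h.PfRM M).abs_le_const hC0 (fun x => hC _)
  have he : Tendsto (fun M : ℕ => 4 * (K * C) / (M : ℝ)) atTop (𝓝 0) :=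
    tendsto_const_div_atTop_nhds_zero_nat _
  apply le_antisymm
  · refine ul_le b2 b1 he (Eventually.of_forall ?_)
    intro M
    have := (abs_le.1 (h.shift_le hC0 hC M)).2
    linarith
  · refine ul_le b1 b2 he (Eventually.of_forall ?_)
    intro M
    have := (abs_le.1 (h.shift_le hC0 hC M)).1
    linarith

end Pool.Agent.Bubble
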