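import Pool.Agent.SubBall.HW2

/-! Joining two walks at their common starting point, and splitting a walk there. -/

namespace Pool.Agent.Bubble

open Finset Pool.Agent.SubBall
open Classical

variable {S V : Type} [Fintype S] [Inhabited S] [AddCommGroup V]

/-- two walks from the same point which meet only there -/
def Av (vec : S → V) (m n : ℕ) (u v : ℕ → S) : Prop :=
  ∀ i ≤ m, ∀ j ≤ n, pos vec u i = pos vec v j → i = 0 ∧ j = 0

/-- the reversal of `u` followed by `v` -/
def jn {vec : S → V} (ν : Sym vec) (m : ℕ) (u v : ℕ → S) : ℕ → S := app m (rv ν m u) v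

omit [Fintype S] in
theorem rv_rv {vec : S → V} (ν : Sym vec) (t : ℕ) (w : ℕ → S) :
    rv ν t (rv ν t w) = cut t w := by
  funext a
  by_cases ha : a < t
  · have h1 : t - 1 - a < t := by omega
    have h2 : t - 1 - (t - 1 - a) = a := by omega
    simp only [rv, cut, ha, if_true, h1, h2, ν.inv]
  · simp [rv, cut, ha]

omit [Fintype S] in
theorem rv_tail {vec : S → V} (ν : Sym vec) (t : ℕ) (w : ℕ → S) {a : ℕ} (ha : t ≤ a) :
    rv ν t w a = default := by
  simp [rv, not_lt.2 ha]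

omit [Fintype S] in
theorem cut_of_tail {t : ℕ} {w : ℕ → S} (h : ∀ a, t ≤ a → w a = default) : cut t w = w := by
  funext a
  by_cases ha : a < t
  · simp [cut, ha]
  · simp [cut, ha, h a (not_lt.1 ha)]

omit [Fintype S] in
theorem rv_cut {vec : S → V} (ν : Sym vec) (t : ℕ) (w : ℕ → S) :
    rv ν t (cut t w) = rv ν t w := by
  funext a
  by_cases ha : a < t
  · have h1 : t - 1 - a < t := by omega
    simp [rv, cut, ha, h1]
  · simp [rv, ha]

omit [Fintype S] in
theorem pos_rv_end {vec : S → V} (ν : Sym vec) (hν : ∀ v, ν.L v = -v) (t : ℕ) (w : ℕ → S) :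
    pos vec (rv ν t w) t = - pos vec w t := by
  rw [pos_rv ν hν t w le_rfl]
  simp

omit [Fintype S] in
theorem pos_jn_le {vec : S → V} (ν : Sym vec) (hν : ∀ v, ν.L v = -v) {m i : ℕ} (u v : ℕ → S)
    (hi : i ≤ m) : pos vec (jn ν m u v) i = pos vec u (m - i) - pos vec u m := by
  unfold jn
  rw [pos_app_le _ _ _ hi, pos_rv ν hν m u hi]

omit [Fintype S] in
theorem pos_jn_add {vec : S → V} (ν : Sym vec) (hν : ∀ v, ν.L v = -v) (m j : ℕ) (u v : ℕ → S) :
    pos vec (jn ν m u v) (m + j) = pos vec v j - pos vec u m := by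
  unfold jn
  rw [pos_app_add, pos_rv_end ν hν]
  abel

omit [Fintype S] in
theorem saw_rv {vec : S → V} (ν : Sym vec) (hν : ∀ v, ν.L v = -v) {m : ℕ} {u : ℕ → S}
    (hu : Saw vec m u) : Saw vec m (rv ν m u) := by
  intro i j hij hj heq
  rw [pos_rv ν hν m u (by omega), pos_rv ν hν m u hj] at heq
  have h4 := sub_left_injective heq
  exact hu (m - j) (m - i) (by omega) (by omega) h4.symm

theorem rv_mem_saws {vec : S → V} (ν : Sym vec) (hν : ∀ v, ν.L v = -v) {m : ℕ} {u : ℕ → S}
    (hu : Saw vec m u) : rv ν m u ∈ saws vec m := by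
  rw [mem_saws]
  exact ⟨fun a ha => rv_tail ν m u ha, saw_rv ν hν hu⟩

omit [Fintype S] in
theorem saw_jn {vec : S → V} (ν : Sym vec) (hν : ∀ v, ν.L v = -v) {m n : ℕ} {u v : ℕ → S}
    (hu : Saw vec m u) (hv : Saw vec n v) (h : Av vec m n u v) : Saw vec (m + n) (jn ν m u v) := by
  intro i j hij hj heq
  rcases le_or_gt j m with h1 | h1
  · rw [pos_jn_le ν hν _ _ (by omega), pos_jn_le ν hν _ _ h1] at heq
    exact hu (m - j) (m - i) (by omega) (by omega) (sub_left_injective heq).symm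
  · obtain ⟨j', rfl⟩ := Nat.exists_eq_add_of_le h1.le
    rw [pos_jn_add ν hν] at heq
    rcases le_or_gt i m with h2 | h2
    · rw [pos_jn_le ν hν _ _ h2] at heq
      have := h (m - i) (by omega) j' (by omega) (sub_left_injective heq)
      omega
    · obtain ⟨i', rfl⟩ := Nat.exists_eq_add_of_le h2.le
      rw [pos_jn_add ν hν] at heq
      exact hv i' j' (by omega) (by omega) (sub_left_injective heq)

theorem jn_mem_saws {vec : S → V} (ν : Sym vec) (hν : ∀ v, ν.L v = -v) {m n : ℕ} {u v : ℕ → S}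
    (hu : Saw vec m u) (hv : v ∈ saws vec n) (h : Av vec m n u v) :
    jn ν m u v ∈ saws vec (m + n) := by
  rw [mem_saws] at hv ⊢
  refine ⟨?_, saw_jn ν hν hu hv.2 h⟩
  intro a ha
  have h1 : ¬ a < m := by omega
  simp only [jn, app, h1, if_false]
  exact hv.1 _ (by omega)

omit [Fintype S] in
theorem rv_jn {vec : S → V} (ν : Sym vec) {m : ℕ} {u v : ℕ → S}
    (hu : ∀ a, m ≤ a → u a = default) : rv ν m (jn ν m u v) = u := by
  have h1 : rv ν m (jn ν m u v) = rv ν m (cut m (jn ν m u v)) := (rv_cut ν m _).symm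
  rw [h1]
  unfold jn
  rw [cut_app (fun a ha => rv_tail ν m u ha), rv_rv, cut_of_tail hu]

omit [Fintype S] in
theorem sh_jn {vec : S → V} (ν : Sym vec) (m : ℕ) (u v : ℕ → S) :
    sh m (jn ν m u v) = v := sh_app _ _ _

omit [Fintype S] in
theorem jn_rv_sh {vec : S → V} (ν : Sym vec) (m : ℕ) (w : ℕ → S) :
    jn ν m (rv ν m w) (sh m w) = w := by
  unfold jn
  rw [rv_rv]
  funext a
  by_cases ha : a < m
  · simp [app, cut, ha]
  · have : m + (a - m) = a := by omega
    simp [app, ha, sh, this]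

omit [Fintype S] in
theorem av_split {vec : S → V} (ν : Sym vec) (hν : ∀ v, ν.L v = -v) {m n : ℕ} {w : ℕ → S}
    (h : Saw vec (m + n) w) : Av vec m n (rv ν m w) (sh m w) := by
  intro i hi j hj heq
  rw [pos_rv ν hν m w hi] at heq
  have h1 := pos_add vec w m j
  have h2 : pos vec w (m - i) = pos vec w (m + j) := by
    rw [h1, ← heq]; abel
  by_contra hc
  exact h (m - i) (m + j) (by omega) (by omega) h2

theorem rv_mem_saws' {vec : S → V} (ν : Sym vec) (hν : ∀ v, ν.L v = -v) {m n : ℕ} {w : ℕ → S}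
    (h : w ∈ saws vec (m + n)) : rv ν m w ∈ saws vec m := by
  have h1 := cut_mem_saws h
  rw [← rv_cut]
  exact rv_mem_saws ν hν (mem_saws.1 h1).2

/-- a sum over walks is a sum over pairs of walks which avoid each other -/
theorem sum_jn {vec : S → V} (ν : Sym vec) (hν : ∀ v, ν.L v = -v) (m n : ℕ)
    (H : (ℕ → S) → (ℕ → S) → ℝ) :
    ∑ w ∈ saws vec (m + n), H (rv ν m w) (sh m w) =
      ∑ u ∈ saws vec m, ∑ v ∈ saws vec n, if Av vec m n u v then H u v else 0 := by
  rw [← Finset.sum_product', ← Finset.sum_filter]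
  refine Finset.sum_nbij' (fun w => (rv ν m w, sh m w)) (fun p => jn ν m p.1 p.2) ?_ ?_ ?_ ?_ ?_
  · intro w hw
    rw [Finset.mem_filter, Finset.mem_product]
    exact ⟨⟨rv_mem_saws' ν hν hw, sh_mem_saws hw⟩, av_split ν hν (mem_saws.1 hw).2⟩
  · rintro ⟨u, v⟩ hp
    rw [Finset.mem_filter, Finset.mem_product] at hp
    exact jn_mem_saws ν hν (mem_saws.1 hp.1.1).2 hp.1.2 hp.2
  · intro w _
    exact jn_rv_sh ν m w
  · rintro ⟨u, v⟩ hp
    rw [Finset.mem_filter, Finset.mem_product] at hp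
    rw [Prod.mk.injEq]
    exact ⟨rv_jn ν (mem_saws.1 hp.1.1).1, sh_jn ν m u v⟩
  · intro w _
    rfl

/-- number of pairs of walks of lengths `i`, `j` with the same endpoint -/
noncomputable def wc (vec : S → V) (i j : ℕ) : ℕ :=
  ((saws vec i ×ˢ saws vec j).filter (fun p => pos vec p.1 i = pos vec p.2 j)).card

/-- pairs which meet at the times `i`, `j` -/
theorem card_hit_le (vec : S → V) {m n i j : ℕ} (hi : i ≤ m) (hj : j ≤ n) :
    ((saws vec m ×ˢ saws vec n).filter (fun p => pos vec p.1 i = pos vec p.2 j)).card ≤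
      wc vec i j * ((saws vec (m - i)).card * (saws vec (n - j)).card) := by
  unfold wc
  rw [← Finset.card_product, ← Finset.card_product]
  refine Finset.card_le_card_of_injOn
    (fun p => ((cut i p.1, cut j p.2), (sh i p.1, sh j p.2))) ?_ ?_
  · rintro ⟨u, v⟩ hp
    rw [Finset.mem_coe, Finset.mem_filter, Finset.mem_product] at hp
    obtain ⟨⟨hu, hv⟩, he⟩ := hp
    simp only at hu hv he
    have hu' : u ∈ saws vec (i + (m - i)) := by rwa [Nat.add_sub_cancel' hi]
    have hv' : v ∈ saws vec (j + (n - j)) := by rwa [Nat.add_sub_cancel' hj]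
    rw [Finset.mem_coe, Finset.mem_product, Finset.mem_filter, Finset.mem_product,
      Finset.mem_product]
    refine ⟨⟨⟨cut_mem_saws hu', cut_mem_saws hv'⟩, ?_⟩, sh_mem_saws hu', sh_mem_saws hv'⟩
    simp only
    rw [pos_cut vec u le_rfl, pos_cut vec v le_rfl, he]
  · rintro ⟨u, v⟩ _ ⟨u', v'⟩ _ heq
    simp only [Prod.mk.injEq] at heq
    obtain ⟨⟨h1, h2⟩, h3, h4⟩ := heq
    rw [Prod.mk.injEq]
    exact ⟨eq_of_cut_sh h1 h3, eq_of_cut_sh h2 h4⟩

omit [Fintype S] [Inhabited S] in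
/-- the last meeting point -/
theorem exists_last (vec : S → V) {m n : ℕ} {u v : ℕ → S} (hv : Saw vec n v) :
    ∃ i ≤ m, ∃ j ≤ n, pos vec u i = pos vec v j ∧ Av vec (m - i) (n - j) (sh i u) (sh j v) := by
  have hne : ((range (m + 1)).filter (fun i => ∃ j ≤ n, pos vec u i = pos vec v j)).Nonempty :=
    ⟨0, by
      rw [Finset.mem_filter, Finset.mem_range]
      exact ⟨by omega, 0, Nat.zero_le _, by simp⟩⟩
  obtain ⟨i, hi, hmax⟩ := Finset.exists_max_image _ (fun i => i) hne
  rw [Finset.mem_filter, Finset.mem_range] at hi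
  obtain ⟨him, j, hj, he⟩ := hi
  refine ⟨i, by omega, j, hj, he, ?_⟩
  intro a ha b hb hab
  have h1 : pos vec u (i + a) = pos vec v (j + b) := by
    rw [pos_add, pos_add, hab, he]
  have ha0 : a = 0 := by
    by_contra hc
    have h2 := hmax (i + a) (by
      rw [Finset.mem_filter, Finset.mem_range]
      exact ⟨by omega, j + b, by omega, h1⟩)
    omega
  subst ha0
  refine ⟨rfl, ?_⟩
  by_contra hc
  rw [Nat.add_zero, he] at h1
  exact hv j (j + b) (by omega) (by omega) h1

theorem card_mul_le {vec : S → V} (ν : Sym vec) (hν : ∀ v, ν.L v = -v) (m n : ℕ) :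
    (saws vec m).card * (saws vec n).card ≤
      ∑ p ∈ range (m + 1) ×ˢ range (n + 1),
        wc vec p.1 p.2 * (saws vec ((m - p.1) + (n - p.2))).card := by
  have key : ∀ p : (ℕ → S) × (ℕ → S), ∃ q : ℕ × ℕ, p ∈ saws vec m ×ˢ saws vec n →
      (q.1 ≤ m ∧ q.2 ≤ n ∧ pos vec p.1 q.1 = pos vec p.2 q.2 ∧
        Av vec (m - q.1) (n - q.2) (sh q.1 p.1) (sh q.2 p.2)) := by
    rintro ⟨u, v⟩
    by_cases h : (u, v) ∈ saws vec m ×ˢ saws vec n
    · rw [Finset.mem_product] at h
      obtain ⟨i, hi, j, hj, he, ha⟩ := exists_last vec (m := m) (u := u) (mem_saws.1 h.2).2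
      exact ⟨(i, j), fun _ => ⟨hi, hj, he, ha⟩⟩
    · exact ⟨(0, 0), fun h' => absurd h' h⟩
  choose τ hτ using key
  rw [← Finset.card_product]
  rw [Finset.card_eq_sum_card_fiberwise (f := τ) (t := range (m + 1) ×ˢ range (n + 1))
    (fun p hp => by
      have := hτ p hp
      rw [Finset.mem_coe, Finset.mem_product, Finset.mem_range, Finset.mem_range]
      omega)]
  refine Finset.sum_le_sum ?_
  rintro ⟨i, j⟩ hij
  rw [Finset.mem_product, Finset.mem_range, Finset.mem_range] at hij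
  simp only at hij ⊢
  unfold wc
  rw [← Finset.card_product]
  refine Finset.card_le_card_of_injOn
    (fun p => ((cut i p.1, cut j p.2), jn ν (m - i) (sh i p.1) (sh j p.2))) ?_ ?_
  · rintro ⟨u, v⟩ hp
    rw [Finset.mem_coe, Finset.mem_filter] at hp
    obtain ⟨hp, ht⟩ := hp
    have h1 := hτ _ hp
    rw [ht] at h1
    rw [Finset.mem_product] at hp
    obtain ⟨hi, hj, he, ha⟩ := h1
    simp only at hi hj he ha hp
    have hu' : u ∈ saws vec (i + (m - i)) := by rw [Nat.add_sub_cancel' hi]; exact hp.1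
    have hv' : v ∈ saws vec (j + (n - j)) := by rw [Nat.add_sub_cancel' hj]; exact hp.2
    rw [Finset.mem_coe, Finset.mem_product, Finset.mem_filter, Finset.mem_product]
    refine ⟨⟨⟨cut_mem_saws hu', cut_mem_saws hv'⟩, ?_⟩, ?_⟩
    · simp only
      rw [pos_cut vec u le_rfl, pos_cut vec v le_rfl, he]
    · exact jn_mem_saws ν hν (mem_saws.1 (sh_mem_saws hu')).2 (sh_mem_saws hv') ha
  · rintro ⟨u, v⟩ hp ⟨u', v'⟩ hp' heq
    rw [Finset.mem_coe, Finset.mem_filter, Finset.mem_product] at hp hp'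
    simp only at hp hp'
    simp only [Prod.mk.injEq] at heq
    obtain ⟨⟨h1, h2⟩, h3⟩ := heq
    have h4 : sh i u = sh i u' := by
      have e1 := rv_jn ν (m := m - i) (u := sh i u) (v := sh j v)
        (fun a ha => (mem_saws.1 hp.1.1).1 _ (by omega))
      have e2 := rv_jn ν (m := m - i) (u := sh i u') (v := sh j v')
        (fun a ha => (mem_saws.1 hp'.1.1).1 _ (by omega))
      rw [← e1, ← e2, h3]
    have h5 : sh j v = sh j v' := by
      have e1 := sh_jn ν (m - i) (sh i u) (sh j v)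
      have e2 := sh_jn ν (m - i) (sh i u') (sh j v')
      rw [← e1, ← e2, h3]
    rw [Prod.mk.injEq]
    exact ⟨eq_of_cut_sh h1 h4, eq_of_cut_sh h2 h5⟩

end Pool.Agent.Bubble
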