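import Pool.Agent.Bubble.Func

/-! The junction estimate: past and future interact only near the junction. -/

namespace Pool.Agent.Bubble

open Finset Pool.Agent.SubBall Filter Topology
open Classical

variable {S V : Type} [Fintype S] [Inhabited S] [AddCommGroup V]

/-- the tail of the bubble diagram -/
noncomputable def dl (vec : S → V) (μ : ℝ) (g : ℕ) : ℝ :=
  ∑' p : ℕ × ℕ, if g < p.1 ∨ g < p.2 then W vec μ p else 0

section

variable {vec : S → V} {μ K : ℝ} (h : Cr vec μ K)

include h

theorem Cr.dl_summable (g : ℕ) :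
    Summable (fun p : ℕ × ℕ => if g < p.1 ∨ g < p.2 then W vec μ p else 0) := by
  refine Summable.of_nonneg_of_le ?_ ?_ h.sum
  · intro p
    split_ifs
    · exact W_nonneg vec h.mpos p
    · exact le_rfl
  · intro p
    split_ifs
    · exact le_rfl
    · exact W_nonneg vec h.mpos p

theorem Cr.dl_nonneg (g : ℕ) : 0 ≤ dl vec μ g := by
  refine tsum_nonneg ?_
  intro p
  split_ifs
  · exact W_nonneg vec h.mpos p
  · exact le_rfl

theorem Cr.dl_tendsto : Tendsto (dl vec μ) atTop (𝓝 0) := by
  have h1 : Tendsto (fun g : ℕ => ∑' p : ℕ × ℕ, if g < p.1 ∨ g < p.2 then W vec μ p else 0)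
      atTop (𝓝 (∑' _ : ℕ × ℕ, (0 : ℝ))) := by
    refine tendsto_tsum_of_dominated_convergence (bound := W vec μ) h.sum ?_ ?_
    · intro p
      refine tendsto_const_nhds.congr' ?_
      filter_upwards [eventually_ge_atTop (p.1 + p.2)] with g hg
      rw [if_neg]
      omega
    · refine Eventually.of_forall (fun g p => ?_)
      have := W_nonneg vec h.mpos p
      split_ifs
      · rw [Real.norm_of_nonneg this]
      · simpa using this
  rw [tsum_zero] at h1
  exact h1

end

/-- pairs of walks that meet at a time beyond `g` -/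
def Hit (vec : S → V) (g : ℕ) (x : (ℕ × ℕ) × ((ℕ → S) × (ℕ → S))) : Prop :=
  ∃ i ≤ x.1.1, ∃ j ≤ x.1.2, (g < i ∨ g < j) ∧ pos vec x.2.1 i = pos vec x.2.2 j

/-- indicator -/
noncomputable def ind (P : Prop) : ℝ := if P then 1 else 0

theorem ind_nonneg (P : Prop) : 0 ≤ ind P := by
  unfold ind; split_ifs <;> norm_num

theorem ind_le_one (P : Prop) : ind P ≤ 1 := by
  unfold ind; split_ifs <;> norm_num

theorem ind_mono {P Q : Prop} (h : P → Q) : ind P ≤ ind Q := by
  unfold ind
  by_cases hP : P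
  · simp [hP, h hP]
  · simp only [hP, if_false]
    split_ifs <;> norm_num

theorem ind_abs_le (P : Prop) : |ind P| ≤ 1 := by
  rw [abs_of_nonneg (ind_nonneg P)]; exact ind_le_one P

theorem Cr.hit_le {vec : S → V} {μ K : ℝ} (h : Cr vec μ K) (g : ℕ) (p : ℕ × ℕ) :
    Ex2 vec μ p (fun x => ind (Hit vec g x)) ≤ K ^ 2 * dl vec μ g := by
  obtain ⟨m, n⟩ := p
  have hμ := h.mpos
  set P : Finset (ℕ × ℕ) :=
    (range (m + 1) ×ˢ range (n + 1)).filter (fun p => g < p.1 ∨ g < p.2) with hP
  have h1 : ∑ q ∈ saws vec m ×ˢ saws vec n, ind (Hit vec g ((m, n), q)) ≤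
      ∑ p ∈ P, ((wc vec p.1 p.2 : ℝ) *
        ((saws vec (m - p.1)).card * (saws vec (n - p.2)).card)) := by
    have h2 : ∑ q ∈ saws vec m ×ˢ saws vec n, ind (Hit vec g ((m, n), q)) ≤
        ∑ q ∈ saws vec m ×ˢ saws vec n, ∑ p ∈ P, ind (pos vec q.1 p.1 = pos vec q.2 p.2) := by
      refine Finset.sum_le_sum ?_
      intro q _
      by_cases hq : Hit vec g ((m, n), q)
      · obtain ⟨i, hi, j, hj, hg, he⟩ := hq
        have h3 : (i, j) ∈ P := by
          rw [hP, Finset.mem_filter, Finset.mem_product, Finset.mem_range, Finset.mem_range]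
          simp only at hi hj
          exact ⟨⟨by omega, by omega⟩, hg⟩
        refine le_trans (ind_le_one _) ?_
        have h4 := Finset.single_le_sum (f := fun p : ℕ × ℕ =>
          ind (pos vec q.1 p.1 = pos vec q.2 p.2)) (fun p _ => ind_nonneg _) h3
        refine le_trans ?_ h4
        simp only at he ⊢
        simp [ind, he]
      · have : ind (Hit vec g ((m, n), q)) = 0 := by simp [ind, hq]
        rw [this]
        exact Finset.sum_nonneg (fun p _ => ind_nonneg _)
    refine le_trans h2 ?_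
    rw [Finset.sum_comm]
    refine Finset.sum_le_sum ?_
    rintro ⟨i, j⟩ hp
    rw [hP, Finset.mem_filter, Finset.mem_product, Finset.mem_range, Finset.mem_range] at hp
    simp only at hp ⊢
    have h5 := card_hit_le vec (m := m) (n := n) (i := i) (j := j) (by omega) (by omega)
    have h6 : ∑ q ∈ saws vec m ×ˢ saws vec n, ind (pos vec q.1 i = pos vec q.2 j) =
        (((saws vec m ×ˢ saws vec n).filter
          (fun p => pos vec p.1 i = pos vec p.2 j)).card : ℝ) := by
      unfold ind
      rw [Finset.sum_boole]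
    rw [h6]
    exact_mod_cast h5
  unfold Ex2
  simp only
  rw [div_le_iff₀ (by positivity)]
  refine le_trans h1 ?_
  have h7 : ∀ p ∈ P, ((wc vec p.1 p.2 : ℝ) *
        ((saws vec (m - p.1)).card * (saws vec (n - p.2)).card)) ≤
      (K ^ 2 * (if g < p.1 ∨ g < p.2 then W vec μ p else 0)) * μ ^ (m + n) := by
    rintro ⟨i, j⟩ hp
    rw [hP, Finset.mem_filter, Finset.mem_product, Finset.mem_range, Finset.mem_range] at hp
    simp only at hp ⊢
    rw [if_pos hp.2]
    have e1 : (wc vec i j : ℝ) = W vec μ (i, j) * μ ^ (i + j) := by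
      unfold W
      rw [div_mul_cancel₀ _ (by positivity)]
    have e2 : ((saws vec (m - i)).card : ℝ) = an vec μ (m - i) * μ ^ (m - i) := by
      unfold an
      rw [div_mul_cancel₀ _ (by positivity)]
    have e3 : ((saws vec (n - j)).card : ℝ) = an vec μ (n - j) * μ ^ (n - j) := by
      unfold an
      rw [div_mul_cancel₀ _ (by positivity)]
    have e4 : μ ^ (m + n) = μ ^ (i + j) * (μ ^ (m - i) * μ ^ (n - j)) := by
      rw [← pow_add, ← pow_add]
      congr 1
      omega
    rw [e1, e2, e3, e4]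
    have h8 : an vec μ (m - i) * an vec μ (n - j) ≤ K ^ 2 := by
      rw [sq]
      exact mul_le_mul (h.le _) (h.le _) (an_nonneg vec hμ _) h.K_nonneg
    have h9 : 0 ≤ W vec μ (i, j) * (μ ^ (i + j) * (μ ^ (m - i) * μ ^ (n - j))) :=
      mul_nonneg (W_nonneg vec hμ _) (by positivity)
    calc W vec μ (i, j) * μ ^ (i + j) *
          (an vec μ (m - i) * μ ^ (m - i) * (an vec μ (n - j) * μ ^ (n - j)))
        = (an vec μ (m - i) * an vec μ (n - j)) *
          (W vec μ (i, j) * (μ ^ (i + j) * (μ ^ (m - i) * μ ^ (n - j)))) := by ring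
      _ ≤ K ^ 2 * (W vec μ (i, j) * (μ ^ (i + j) * (μ ^ (m - i) * μ ^ (n - j)))) :=
          mul_le_mul_of_nonneg_right h8 h9
      _ = K ^ 2 * W vec μ (i, j) * (μ ^ (i + j) * (μ ^ (m - i) * μ ^ (n - j))) := by ring
  refine le_trans (Finset.sum_le_sum h7) ?_
  rw [← Finset.sum_mul, ← Finset.mul_sum]
  refine mul_le_mul_of_nonneg_right ?_ (by positivity)
  refine mul_le_mul_of_nonneg_left ?_ (by positivity)
  exact (h.dl_summable g).sum_le_tsum _ (fun p _ => by
    split_ifs
    · exact W_nonneg vec hμ p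
    · exact le_rfl)

/-- product of a function of the past and a function of the future -/
def tens {vec : S → V} (ν : Sym vec) (F G : (ℕ → S) → ℝ) (x : (ℕ → S) × ℕ) : ℝ :=
  F (rv ν x.2 x.1) * G (sh x.2 x.1)

theorem RM_tens {vec : S → V} (ν : Sym vec) (hν : ∀ v, ν.L v = -v) (μ : ℝ) (M : ℕ)
    (F G : (ℕ → S) → ℝ) : RM vec μ M (tens ν F G) =
      DM vec μ M (fun x => ind (Av vec x.1.1 x.1.2 x.2.1 x.2.2) * (F x.2.1 * G x.2.2)) := by
  unfold RM DM
  congr 1
  refine Finset.sum_congr rfl ?_
  rintro ⟨m, n⟩ _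
  unfold Ex Ex2
  simp only
  congr 1
  have h1 := sum_jn ν hν m n (fun u v => F u * G v)
  unfold tens
  simp only
  rw [h1, Finset.sum_product]
  refine Finset.sum_congr rfl (fun u _ => Finset.sum_congr rfl (fun v _ => ?_))
  unfold ind
  split_ifs <;> ring

theorem DM_prod (vec : S → V) (μ : ℝ) (M : ℕ) (F G : (ℕ → S) → ℝ) :
    DM vec μ M (fun x => F x.2.1 * G x.2.2) = AM vec μ M F * AM vec μ M G := by
  unfold DM AM Ex2 Ex
  rw [div_mul_div_comm, ← sq]
  congr 1
  rw [Finset.sum_mul_sum, Finset.sum_product]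
  refine Finset.sum_congr rfl (fun m _ => Finset.sum_congr rfl (fun n _ => ?_))
  simp only
  rw [div_mul_div_comm, ← pow_add]
  congr 1
  rw [Finset.sum_mul_sum, Finset.sum_product]

/-- no meeting among the first `g` steps -/
def Jg (vec : S → V) (g : ℕ) (u v : ℕ → S) : Prop :=
  ∀ i, 1 ≤ i → i ≤ g → ∀ j, 1 ≤ j → j ≤ g → pos vec u i ≠ pos vec v j

omit [Fintype S] in
theorem Jg_cut {vec : S → V} {g : ℕ} {u v : ℕ → S} :
    Jg vec g (cut g u) (cut g v) ↔ Jg vec g u v := by
  constructor
  · intro hj i h1 h2 j h3 h4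
    have := hj i h1 h2 j h3 h4
    rwa [pos_cut vec u h2, pos_cut vec v h4] at this
  · intro hj i h1 h2 j h3 h4
    rw [pos_cut vec u h2, pos_cut vec v h4]
    exact hj i h1 h2 j h3 h4

omit [Fintype S] [Inhabited S] in
theorem av_iff {vec : S → V} {g m n : ℕ} (hm : g ≤ m) (hn : g ≤ n) {u v : ℕ → S}
    (hu : Saw vec m u) (hv : Saw vec n v) (hh : ¬ Hit vec g ((m, n), (u, v))) :
    Av vec m n u v ↔ Jg vec g u v := by
  constructor
  · intro ha i h1 h2 j h3 h4 he
    have := ha i (by omega) j (by omega) he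
    omega
  · intro hj i hi j hj' he
    by_contra hc
    have hig : i ≤ g := by
      by_contra h1
      exact hh ⟨i, hi, j, hj', Or.inl (by omega), he⟩
    have hjg : j ≤ g := by
      by_contra h1
      exact hh ⟨i, hi, j, hj', Or.inr (by omega), he⟩
    rcases Nat.eq_zero_or_pos i with h0 | h0
    · subst h0
      rcases Nat.eq_zero_or_pos j with h0' | h0'
      · exact hc ⟨rfl, h0'⟩
      · rw [pos_zero] at he
        exact hv 0 j h0' hj' (by rw [pos_zero, he])
    · rcases Nat.eq_zero_or_pos j with h0' | h0'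
      · subst h0'
        rw [pos_zero] at he
        exact hu 0 i h0 hi (by rw [pos_zero, he])
      · exact hj i h0 hig j h0' hjg he

/-- short walks have small weight -/
theorem Cr.short_le {vec : S → V} {μ K : ℝ} (h : Cr vec μ K) (g M : ℕ) :
    DM vec μ M (fun x => ind (x.1.1 < g ∨ x.1.2 < g)) ≤ 2 * g * K ^ 2 / M := by
  have hK := h.K_nonneg
  rcases Nat.eq_zero_or_pos M with hM | hM
  · subst hM; simp [DM]
  have hM0 : (0 : ℝ) < M := by exact_mod_cast hM
  have h1 : ∀ p ∈ range M ×ˢ range M,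
      Ex2 vec μ p (fun x => ind (x.1.1 < g ∨ x.1.2 < g)) ≤
        K ^ 2 * (ind (p.1 < g) + ind (p.2 < g)) := by
    intro p _
    have h2 := (h.PfEx2 p).one
    have h3 : Ex2 vec μ p (fun x => ind (x.1.1 < g ∨ x.1.2 < g)) =
        ind (p.1 < g ∨ p.2 < g) * Ex2 vec μ p (fun _ => 1) := by
      unfold Ex2
      simp only [Finset.sum_const, nsmul_eq_mul]
      ring
    rw [h3]
    have h4 : ind (p.1 < g ∨ p.2 < g) ≤ ind (p.1 < g) + ind (p.2 < g) := by
      unfold ind
      by_cases a : p.1 < g <;> by_cases b : p.2 < g <;> simp [a, b]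
    calc ind (p.1 < g ∨ p.2 < g) * Ex2 vec μ p (fun _ => 1)
        ≤ ind (p.1 < g ∨ p.2 < g) * K ^ 2 := mul_le_mul_of_nonneg_left h2 (ind_nonneg _)
      _ ≤ (ind (p.1 < g) + ind (p.2 < g)) * K ^ 2 := mul_le_mul_of_nonneg_right h4 (by positivity)
      _ = K ^ 2 * (ind (p.1 < g) + ind (p.2 < g)) := by ring
  have h5 : ∑ m ∈ range M, ind (m < g) ≤ g := by
    have h6 : ∀ N : ℕ, ∑ m ∈ range N, ind (m < g) = ((min N g : ℕ) : ℝ) := by
      intro N
      induction N with
      | zero => simp
      | succ N ih =>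
        rw [Finset.sum_range_succ, ih]
        by_cases hN : N < g
        · have e1 : min (N + 1) g = min N g + 1 := by omega
          rw [e1]
          push_cast
          simp [ind, hN]
        · have e1 : min (N + 1) g = min N g := by omega
          rw [e1]
          simp [ind, hN]
    rw [h6]
    have : min M g ≤ g := min_le_right _ _
    exact_mod_cast this
  unfold DM
  rw [div_le_div_iff₀ (by positivity) hM0]
  calc (∑ p ∈ range M ×ˢ range M, Ex2 vec μ p (fun x => ind (x.1.1 < g ∨ x.1.2 < g))) * M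
      ≤ (∑ p ∈ range M ×ˢ range M, K ^ 2 * (ind (p.1 < g) + ind (p.2 < g))) * M :=
        mul_le_mul_of_nonneg_right (Finset.sum_le_sum h1) hM0.le
    _ = (K ^ 2 * (2 * (M * ∑ m ∈ range M, ind (m < g)))) * M := by
        congr 1
        rw [← Finset.mul_sum]
        congr 1
        rw [Finset.sum_product]
        simp only [Finset.sum_add_distrib, Finset.sum_const, Finset.card_range, nsmul_eq_mul]
        rw [← Finset.mul_sum]
        ring
    _ ≤ (K ^ 2 * (2 * (M * g))) * M := by
        refine mul_le_mul_of_nonneg_right ?_ hM0.le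
        refine mul_le_mul_of_nonneg_left ?_ (by positivity)
        refine mul_le_mul_of_nonneg_left ?_ (by norm_num)
        exact mul_le_mul_of_nonneg_left h5 hM0.le
    _ = 2 * g * K ^ 2 * (M : ℝ) ^ 2 := by ring

theorem Cr.hitDM_le {vec : S → V} {μ K : ℝ} (h : Cr vec μ K) (g M : ℕ) :
    DM vec μ M (fun x => ind (Hit vec g x)) ≤ K ^ 2 * dl vec μ g := by
  have hK := h.K_nonneg
  have hd := h.dl_nonneg g
  rcases Nat.eq_zero_or_pos M with hM | hM
  · subst hM
    simp only [DM, range_zero, product_empty, sum_empty, zero_div]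
    positivity
  have hM0 : (0 : ℝ) < M := by exact_mod_cast hM
  unfold DM
  rw [div_le_iff₀ (by positivity)]
  refine le_trans (Finset.sum_le_card_nsmul _ _ (K ^ 2 * dl vec μ g)
    (fun p _ => h.hit_le g p)) ?_
  rw [Finset.card_product, Finset.card_range, nsmul_eq_mul]
  push_cast
  apply le_of_eq
  ring

/-- the junction estimate for finite averages -/
theorem Cr.junction {vec : S → V} (ν : Sym vec) (hν : ∀ v, ν.L v = -v) {μ K : ℝ}
    (h : Cr vec μ K) {F G : (ℕ → S) → ℝ} (hF : Bd F) (hG : Bd G) (g M : ℕ) :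
    (RM vec μ M (tens ν F G) -
      DM vec μ M (fun x => ind (Jg vec g x.2.1 x.2.2) * (F x.2.1 * G x.2.2))) ^ 2 ≤
    (K ^ 2 * dl vec μ g + 2 * g * K ^ 2 / M) *
      (AM vec μ M (fun u => F u ^ 2) * AM vec μ M (fun v => G v ^ 2)) := by
  have hP := h.PfDM M
  have hind : ∀ P : (ℕ × ℕ) × ((ℕ → S) × (ℕ → S)) → Prop, Bd (fun x => ind (P x)) :=
    fun P => ⟨1, fun x => ind_abs_le _⟩
  have hFG : Bd (fun x : (ℕ × ℕ) × ((ℕ → S) × (ℕ → S)) => F x.2.1 * G x.2.2) :=
    (hF.comp _).mul (hG.comp _)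
  -- restrict to self-avoiding pairs with the right lengths
  have key : RM vec μ M (tens ν F G) -
      DM vec μ M (fun x => ind (Jg vec g x.2.1 x.2.2) * (F x.2.1 * G x.2.2)) =
      DM vec μ M (fun x => (ind (Av vec x.1.1 x.1.2 x.2.1 x.2.2) - ind (Jg vec g x.2.1 x.2.2)) *
        (F x.2.1 * G x.2.2)) := by
    rw [RM_tens ν hν, ← hP.sub ((hind _).mul hFG) ((hind _).mul hFG)]
    congr 1
    funext x
    ring
  rw [key]
  refine le_trans (hP.cs ((hind _).sub (hind _)) hFG) ?_
  have h1 : DM vec μ M (fun x => (F x.2.1 * G x.2.2) ^ 2) =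
      AM vec μ M (fun u => F u ^ 2) * AM vec μ M (fun v => G v ^ 2) := by
    rw [← DM_prod]
    congr 1
    funext x
    ring
  rw [h1]
  have h2 : 0 ≤ AM vec μ M (fun u => F u ^ 2) * AM vec μ M (fun v => G v ^ 2) :=
    mul_nonneg ((h.PfAM M).nonneg _ hF.sq (fun _ => sq_nonneg _))
      ((h.PfAM M).nonneg _ hG.sq (fun _ => sq_nonneg _))
  refine mul_le_mul_of_nonneg_right ?_ h2
  -- the bad mass
  have h3 : DM vec μ M (fun x => (ind (Av vec x.1.1 x.1.2 x.2.1 x.2.2) -
      ind (Jg vec g x.2.1 x.2.2)) ^ 2) ≤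
      DM vec μ M (fun x => ind (Hit vec g x)) +
        DM vec μ M (fun x => ind (x.1.1 < g ∨ x.1.2 < g)) := by
    unfold DM
    rw [← add_div, ← Finset.sum_add_distrib]
    refine div_le_div_of_nonneg_right ?_ (by positivity)
    refine Finset.sum_le_sum ?_
    rintro ⟨m, n⟩ _
    have hμ := h.mpos
    unfold Ex2
    simp only
    rw [← add_div, ← Finset.sum_add_distrib]
    refine div_le_div_of_nonneg_right ?_ (by positivity)
    refine Finset.sum_le_sum ?_
    rintro ⟨u, v⟩ hq
    rw [Finset.mem_product] at hq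
    simp only at hq ⊢
    have hsq : (ind (Av vec m n u v) - ind (Jg vec g u v)) ^ 2 ≤ 1 := by
      have a1 := ind_nonneg (Av vec m n u v)
      have a2 := ind_le_one (Av vec m n u v)
      have a3 := ind_nonneg (Jg vec g u v)
      have a4 := ind_le_one (Jg vec g u v)
      nlinarith
    by_cases c1 : Hit vec g ((m, n), (u, v))
    · have : ind (Hit vec g ((m, n), (u, v))) = 1 := by simp [ind, c1]
      rw [this]
      linarith [ind_nonneg (m < g ∨ n < g)]
    · by_cases c2 : m < g ∨ n < g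
      · have : ind (m < g ∨ n < g) = 1 := by simp [ind, c2]
        rw [this]
        linarith [ind_nonneg (Hit vec g ((m, n), (u, v)))]
      · push Not at c2
        have h4 := av_iff c2.1 c2.2 (mem_saws.1 hq.1).2 (mem_saws.1 hq.2).2 c1
        have h5 : ind (Av vec m n u v) = ind (Jg vec g u v) := by
          unfold ind
          simp only [h4]
        rw [h5, sub_self]
        have := ind_nonneg (Hit vec g ((m, n), (u, v)))
        have := ind_nonneg (m < g ∨ n < g)
        norm_num
        linarith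
  exact le_trans h3 (add_le_add (h.hitDM_le g M) (h.short_le g M))

end Pool.Agent.Bubble
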