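import Pool.Agent.Bubble.Junc

/-! The junction estimate for the limit functionals. -/

namespace Pool.Agent.Bubble

open Finset Pool.Agent.SubBall Filter Topology
open Classical

variable {S V : Type} [Fintype S] [Inhabited S] [AddCommGroup V]

/-- restriction to an initial pattern -/
noncomputable def pr (g : ℕ) (p : ℕ → S) (F : (ℕ → S) → ℝ) (u : ℕ → S) : ℝ :=
  ind (cut g u = p) * F u

theorem Bd_ind {X : Type} (P : X → Prop) : Bd (fun x => ind (P x)) := ⟨1, fun _ => ind_abs_le _⟩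

omit [Fintype S] in
theorem pr_Bd {g : ℕ} {p : ℕ → S} {F : (ℕ → S) → ℝ} (hF : Bd F) : Bd (pr g p F) :=
  (Bd_ind _).mul hF

theorem cut_mem_words (g : ℕ) (u : ℕ → S) : cut g u ∈ words S g := by
  rw [mem_words]
  intro a ha
  simp [cut, not_lt.2 ha]

theorem sum_ind (g : ℕ) (u : ℕ → S) (c : (ℕ → S) → ℝ) :
    ∑ p ∈ words S g, ind (cut g u = p) * c p = c (cut g u) := by
  have h1 : ∀ p ∈ words S g, ind (cut g u = p) * c p = if cut g u = p then c p else 0 := by
    intro p _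
    unfold ind
    split_ifs <;> simp
  rw [Finset.sum_congr rfl h1, Finset.sum_ite_eq, if_pos (cut_mem_words g u)]

omit [Fintype S] in
theorem Jg_cut_right {vec : S → V} {g : ℕ} {u v : ℕ → S} :
    Jg vec g u (cut g v) ↔ Jg vec g u v := by
  constructor
  · intro hj i h1 h2 j h3 h4
    have := hj i h1 h2 j h3 h4
    rwa [pos_cut vec v h4] at this
  · intro hj i h1 h2 j h3 h4
    rw [pos_cut vec v h4]
    exact hj i h1 h2 j h3 h4

omit [Fintype S] in
theorem Jg_cut_left {vec : S → V} {g : ℕ} {u v : ℕ → S} :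
    Jg vec g (cut g u) v ↔ Jg vec g u v := by
  constructor
  · intro hj i h1 h2 j h3 h4
    have := hj i h1 h2 j h3 h4
    rwa [pos_cut vec u h2] at this
  · intro hj i h1 h2 j h3 h4
    rw [pos_cut vec u h2]
    exact hj i h1 h2 j h3 h4

/-- the conditional mean of `G` given the pattern of the other walk -/
noncomputable def tf (vec : S → V) (μ : ℝ) (g : ℕ) (G : (ℕ → S) → ℝ) (u : ℕ → S) : ℝ :=
  ∑ p ∈ words S g, ind (Jg vec g u p) * Ah vec μ (pr g p G)

theorem tf_Bd (vec : S → V) (μ : ℝ) (g : ℕ) (G : (ℕ → S) → ℝ) : Bd (tf vec μ g G) :=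
  Bd.sum _ (fun _ _ => (Bd_ind _).mul (Bd.const _))

theorem tf_cut (vec : S → V) (μ : ℝ) (g : ℕ) (G : (ℕ → S) → ℝ) (u : ℕ → S) :
    tf vec μ g G (cut g u) = tf vec μ g G u := by
  unfold tf
  refine Finset.sum_congr rfl (fun p _ => ?_)
  have : Jg vec g (cut g u) p = Jg vec g u p := propext Jg_cut_left
  rw [this]

omit [Fintype S] in
theorem tens_Bd {vec : S → V} (ν : Sym vec) {F G : (ℕ → S) → ℝ} (hF : Bd F) (hG : Bd G) :
    Bd (tens ν F G) := by
  have h1 : Bd (fun x : (ℕ → S) × ℕ => F (rv ν x.2 x.1)) := hF.comp _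
  have h2 : Bd (fun x : (ℕ → S) × ℕ => G (sh x.2 x.1)) := hG.comp _
  exact h1.mul h2

section

variable {vec : S → V} {μ K : ℝ} (h : Cr vec μ K)

include h

theorem Cr.tendsto_AM {F : (ℕ → S) → ℝ} (hF : Bd F) :
    Tendsto (fun M => AM vec μ M F) (hyperfilter ℕ : Filter ℕ) (𝓝 (Ah vec μ F)) := by
  obtain ⟨C, hC0, hC⟩ := hF.pos
  exact tendsto_ul (C := K * C) (fun M => (h.PfAM M).abs_le_const hC0 hC)

theorem Cr.tendsto_RM {H : (ℕ → S) × ℕ → ℝ} (hH : Bd H) :
    Tendsto (fun M => RM vec μ M H) (hyperfilter ℕ : Filter ℕ) (𝓝 (Rh vec μ H)) := by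
  obtain ⟨C, hC0, hC⟩ := hH.pos
  exact tendsto_ul (C := K * C) (fun M => (h.PfRM M).abs_le_const hC0 hC)

theorem Cr.tendsto_DM {F G : (ℕ → S) → ℝ} (hF : Bd F) (hG : Bd G) (g : ℕ) :
    Tendsto (fun M => DM vec μ M (fun x => ind (Jg vec g x.2.1 x.2.2) * (F x.2.1 * G x.2.2)))
      (hyperfilter ℕ : Filter ℕ) (𝓝 (Ah vec μ (fun u => F u * tf vec μ g G u))) := by
  have e1 : ∀ M, DM vec μ M (fun x => ind (Jg vec g x.2.1 x.2.2) * (F x.2.1 * G x.2.2)) =
      ∑ p ∈ words S g, AM vec μ M (fun u => F u * ind (Jg vec g u p)) *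
        AM vec μ M (pr g p G) := by
    intro M
    have e2 : (fun x : (ℕ × ℕ) × ((ℕ → S) × (ℕ → S)) =>
        ind (Jg vec g x.2.1 x.2.2) * (F x.2.1 * G x.2.2)) =
        fun x => ∑ p ∈ words S g, (F x.2.1 * ind (Jg vec g x.2.1 p)) * pr g p G x.2.2 := by
      funext x
      have h1 : ∀ p ∈ words S g, (F x.2.1 * ind (Jg vec g x.2.1 p)) * pr g p G x.2.2 =
          ind (cut g x.2.2 = p) * ((F x.2.1 * ind (Jg vec g x.2.1 p)) * G x.2.2) := by
        intro p _
        unfold pr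
        ring
      rw [Finset.sum_congr rfl h1,
        sum_ind g x.2.2 (fun p => (F x.2.1 * ind (Jg vec g x.2.1 p)) * G x.2.2)]
      have h2 : Jg vec g x.2.1 (cut g x.2.2) = Jg vec g x.2.1 x.2.2 := propext Jg_cut_right
      rw [h2]
      ring
    rw [e2, (h.PfDM M).sum (words S g)
      (fun p x => (F x.2.1 * ind (Jg vec g x.2.1 p)) * pr g p G x.2.2)
      (fun p _ => ((hF.comp _).mul (Bd_ind _)).mul ((pr_Bd hG).comp _))]
    refine Finset.sum_congr rfl (fun p _ => ?_)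
    exact DM_prod vec μ M (fun u => F u * ind (Jg vec g u p)) (pr g p G)
  have e3 : Ah vec μ (fun u => F u * tf vec μ g G u) =
      ∑ p ∈ words S g, Ah vec μ (fun u => F u * ind (Jg vec g u p)) *
        Ah vec μ (pr g p G) := by
    have e4 : (fun u => F u * tf vec μ g G u) =
        fun u => ∑ p ∈ words S g, Ah vec μ (pr g p G) * (F u * ind (Jg vec g u p)) := by
      funext u
      unfold tf
      rw [Finset.mul_sum]
      refine Finset.sum_congr rfl (fun p _ => ?_)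
      ring
    have hB : ∀ p, Bd (fun u => F u * ind (Jg vec g u p)) := fun p => hF.mul (Bd_ind _)
    rw [e4, h.PfAh.sum (words S g)
      (fun p u => Ah vec μ (pr g p G) * (F u * ind (Jg vec g u p)))
      (fun p _ => (hB p).smul _)]
    refine Finset.sum_congr rfl (fun p _ => ?_)
    rw [h.PfAh.smul _ _ (hB p)]
    ring
  rw [e3]
  have h5 := tendsto_finsetSum (words S g) (fun p _ =>
    (h.tendsto_AM (hF.mul (Bd_ind (fun u => Jg vec g u p)))).mul
      (h.tendsto_AM (pr_Bd (p := p) (g := g) hG)))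
  exact h5.congr (fun M => (e1 M).symm)

/-- the junction estimate in the limit -/
theorem Cr.junction_lim (ν : Sym vec) (hν : ∀ v, ν.L v = -v) {F G : (ℕ → S) → ℝ}
    (hF : Bd F) (hG : Bd G) (g : ℕ) :
    (Rh vec μ (tens ν F G) - Ah vec μ (fun u => F u * tf vec μ g G u)) ^ 2 ≤
      K ^ 2 * dl vec μ g * (Ah vec μ (fun u => F u ^ 2) * Ah vec μ (fun v => G v ^ 2)) := by
  have h1 := ((h.tendsto_RM (tens_Bd ν hF hG)).sub (h.tendsto_DM hF hG g)).pow 2
  have h2 : Tendsto (fun M : ℕ => 2 * g * K ^ 2 / (M : ℝ)) (hyperfilter ℕ : Filter ℕ) (𝓝 0) :=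
    (tendsto_const_div_atTop_nhds_zero_nat _).mono_left hyp_le
  have h3 := (h2.const_add (K ^ 2 * dl vec μ g)).mul
    ((h.tendsto_AM hF.sq).mul (h.tendsto_AM hG.sq))
  rw [add_zero] at h3
  exact le_of_tendsto_of_tendsto' h1 h3 (fun M => h.junction ν hν hF hG g M)

/-- domination by the product functional -/
theorem Cr.dom (ν : Sym vec) (hν : ∀ v, ν.L v = -v) {F G : (ℕ → S) → ℝ}
    (hF : Bd F) (hG : Bd G) (hF0 : ∀ u, 0 ≤ F u) (hG0 : ∀ u, 0 ≤ G u) :
    Rh vec μ (tens ν F G) ≤ Ah vec μ F * Ah vec μ G := by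
  have h1 := h.tendsto_RM (tens_Bd ν hF hG)
  have h2 := (h.tendsto_AM hF).mul (h.tendsto_AM hG)
  refine le_of_tendsto_of_tendsto' h1 h2 (fun M => ?_)
  rw [RM_tens ν hν, ← DM_prod]
  have hFG : Bd (fun x : (ℕ × ℕ) × ((ℕ → S) × (ℕ → S)) => F x.2.1 * G x.2.2) :=
    (hF.comp _).mul (hG.comp _)
  refine (h.PfDM M).mono ((Bd_ind _).mul hFG) hFG ?_
  intro x
  have h3 : 0 ≤ F x.2.1 * G x.2.2 := mul_nonneg (hF0 _) (hG0 _)
  have := mul_le_mul_of_nonneg_right (ind_le_one (Av vec x.1.1 x.1.2 x.2.1 x.2.2)) h3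
  linarith

/-- the conditional mean is bounded -/
theorem Cr.tf_abs_le {g : ℕ} {G : (ℕ → S) → ℝ} (hG : Bd G) (u : ℕ → S) :
    |tf vec μ g G u| ≤ Ah vec μ (fun v => |G v|) := by
  have h1 : Ah vec μ (fun v => |G v|) = ∑ p ∈ words S g, Ah vec μ (pr g p (fun v => |G v|)) := by
    rw [← h.PfAh.sum (words S g) (fun p => pr g p (fun v => |G v|))
      (fun p _ => pr_Bd hG.abs)]
    congr 1
    funext v
    unfold pr
    exact (sum_ind g v (fun _ => |G v|)).symm
  rw [h1]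
  unfold tf
  refine le_trans (Finset.abs_sum_le_sum_abs _ _) (Finset.sum_le_sum ?_)
  intro p _
  rw [abs_mul]
  have h2 : |Ah vec μ (pr g p G)| ≤ Ah vec μ (pr g p (fun v => |G v|)) := by
    refine le_trans (h.PfAh.abs_le_abs (pr_Bd hG)) ?_
    refine h.PfAh.mono (pr_Bd hG).abs (pr_Bd hG.abs) ?_
    intro v
    unfold pr
    rw [abs_mul, abs_of_nonneg (ind_nonneg _)]
  calc |ind (Jg vec g u p)| * |Ah vec μ (pr g p G)|
      ≤ 1 * |Ah vec μ (pr g p G)| := mul_le_mul_of_nonneg_right (ind_abs_le _) (abs_nonneg _)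
    _ ≤ Ah vec μ (pr g p (fun v => |G v|)) := by rw [one_mul]; exact h2

end

end Pool.Agent.Bubble
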