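import Mathlib

/-! Invariant means on bounded functions, and a mean ergodic argument: correlations of a bounded
function with the Birkhoff sums of a sublinear cocycle. -/

namespace Pool.Agent.Bubble

open Filter Topology

/-- bounded functions -/
def Bd {X : Type} (f : X → ℝ) : Prop := ∃ C, ∀ x, |f x| ≤ C

theorem Bd.pos {X : Type} {f : X → ℝ} (hf : Bd f) : ∃ C, 0 ≤ C ∧ ∀ x, |f x| ≤ C := by
  obtain ⟨C, hC⟩ := hf
  exact ⟨max C 0, le_max_right _ _, fun x => le_trans (hC x) (le_max_left _ _)⟩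

theorem Bd.add {X : Type} {f g : X → ℝ} (hf : Bd f) (hg : Bd g) : Bd (fun x => f x + g x) := by
  obtain ⟨C, hC⟩ := hf
  obtain ⟨D, hD⟩ := hg
  exact ⟨C + D, fun x => le_trans (abs_add_le _ _) (add_le_add (hC x) (hD x))⟩

theorem Bd.mul {X : Type} {f g : X → ℝ} (hf : Bd f) (hg : Bd g) : Bd (fun x => f x * g x) := by
  obtain ⟨C, hC⟩ := hf
  obtain ⟨D, hD⟩ := hg
  refine ⟨C * D, fun x => ?_⟩
  rw [abs_mul]
  exact mul_le_mul (hC x) (hD x) (abs_nonneg _) (le_trans (abs_nonneg _) (hC x))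

theorem Bd.const {X : Type} (c : ℝ) : Bd (fun _ : X => c) := ⟨|c|, fun _ => le_rfl⟩

theorem Bd.smul {X : Type} {f : X → ℝ} (c : ℝ) (hf : Bd f) : Bd (fun x => c * f x) :=
  (Bd.const c).mul hf

theorem Bd.neg {X : Type} {f : X → ℝ} (hf : Bd f) : Bd (fun x => - f x) := by
  obtain ⟨C, hC⟩ := hf
  exact ⟨C, fun x => by rw [abs_neg]; exact hC x⟩

theorem Bd.sub {X : Type} {f g : X → ℝ} (hf : Bd f) (hg : Bd g) : Bd (fun x => f x - g x) := by
  obtain ⟨C, hC⟩ := hf
  obtain ⟨D, hD⟩ := hg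
  exact ⟨C + D, fun x => le_trans (abs_sub _ _) (add_le_add (hC x) (hD x))⟩

theorem Bd.abs {X : Type} {f : X → ℝ} (hf : Bd f) : Bd (fun x => |f x|) := by
  obtain ⟨C, hC⟩ := hf
  exact ⟨C, fun x => by rw [abs_abs]; exact hC x⟩

theorem Bd.sq {X : Type} {f : X → ℝ} (hf : Bd f) : Bd (fun x => f x ^ 2) := by
  have := hf.mul hf
  simpa only [← pow_two] using this

theorem Bd.comp {X Y : Type} {f : X → ℝ} (hf : Bd f) (g : Y → X) : Bd (fun y => f (g y)) := by
  obtain ⟨C, hC⟩ := hf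
  exact ⟨C, fun x => hC _⟩

theorem Bd.sum {X ι : Type} (s : Finset ι) {f : ι → X → ℝ} (hf : ∀ i ∈ s, Bd (f i)) :
    Bd (fun x => ∑ i ∈ s, f i x) := by
  classical
  induction s using Finset.induction_on with
  | empty => simpa using Bd.const (X := X) 0
  | insert a s ha ih =>
    have h1 := (hf a (Finset.mem_insert_self a s)).add
      (ih (fun i hi => hf i (Finset.mem_insert_of_mem hi)))
    have e : (fun x => ∑ i ∈ insert a s, f i x) = fun x => f a x + ∑ i ∈ s, f i x := by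
      funext x
      rw [Finset.sum_insert ha]
    rw [e]
    exact h1

/-- positive linear functionals on bounded functions -/
structure Pf {X : Type} (ρ : (X → ℝ) → ℝ) (K : ℝ) : Prop where
  add : ∀ f g, Bd f → Bd g → ρ (fun x => f x + g x) = ρ f + ρ g
  smul : ∀ (c : ℝ) f, Bd f → ρ (fun x => c * f x) = c * ρ f
  nonneg : ∀ f, Bd f → (∀ x, 0 ≤ f x) → 0 ≤ ρ f
  one : ρ (fun _ => 1) ≤ K

namespace Pf

variable {X : Type} {ρ : (X → ℝ) → ℝ} {K : ℝ} (h : Pf ρ K)

include h

theorem zero : ρ (fun _ => 0) = 0 := by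
  have := h.smul 0 (fun _ => 0) (Bd.const 0)
  simpa using this

theorem neg {f : X → ℝ} (hf : Bd f) : ρ (fun x => - f x) = - ρ f := by
  have := h.smul (-1) f hf
  simpa using this

theorem sub {f g : X → ℝ} (hf : Bd f) (hg : Bd g) : ρ (fun x => f x - g x) = ρ f - ρ g := by
  have h1 := h.add f (fun x => - g x) hf hg.neg
  rw [h.neg hg] at h1
  simpa only [sub_eq_add_neg] using h1

theorem mono {f g : X → ℝ} (hf : Bd f) (hg : Bd g) (hfg : ∀ x, f x ≤ g x) : ρ f ≤ ρ g := by
  have h1 := h.nonneg (fun x => g x - f x) (hg.sub hf) (fun x => sub_nonneg.2 (hfg x))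
  rw [h.sub hg hf] at h1
  linarith

theorem sum {ι : Type} (s : Finset ι) (f : ι → X → ℝ) (hf : ∀ i ∈ s, Bd (f i)) :
    ρ (fun x => ∑ i ∈ s, f i x) = ∑ i ∈ s, ρ (f i) := by
  classical
  induction s using Finset.induction_on with
  | empty => simpa using h.zero
  | insert a s ha ih =>
    have h1 := h.add (f a) (fun x => ∑ i ∈ s, f i x) (hf a (Finset.mem_insert_self a s))
      (Bd.sum s (fun i hi => hf i (Finset.mem_insert_of_mem hi)))
    rw [ih (fun i hi => hf i (Finset.mem_insert_of_mem hi))] at h1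
    rw [Finset.sum_insert ha, ← h1]
    congr 1
    funext x
    rw [Finset.sum_insert ha]

theorem abs_le_abs {f : X → ℝ} (hf : Bd f) : |ρ f| ≤ ρ (fun x => |f x|) := by
  rw [abs_le]
  constructor
  · rw [← h.neg hf.abs]
    exact h.mono hf.abs.neg hf (fun x => neg_abs_le _)
  · exact h.mono hf hf.abs (fun x => le_abs_self _)

theorem one_nonneg : 0 ≤ ρ (fun _ => 1) := h.nonneg _ (Bd.const 1) (fun _ => zero_le_one)

theorem K_nonneg : 0 ≤ K := le_trans h.one_nonneg h.one

theorem le_const {f : X → ℝ} {C : ℝ} (hC : 0 ≤ C) (hf : Bd f) (hfC : ∀ x, f x ≤ C) :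
    ρ f ≤ K * C := by
  have h1 := h.mono hf (Bd.const C) hfC
  have h2 := h.smul C (fun _ => 1) (Bd.const 1)
  simp only [mul_one] at h2
  rw [h2] at h1
  refine le_trans h1 ?_
  rw [mul_comm]
  exact mul_le_mul_of_nonneg_right h.one hC

theorem abs_le_const {f : X → ℝ} {C : ℝ} (hC : 0 ≤ C) (hfC : ∀ x, |f x| ≤ C) :
    |ρ f| ≤ K * C := by
  have hf : Bd f := ⟨C, hfC⟩
  exact le_trans (h.abs_le_abs hf) (h.le_const hC hf.abs hfC)

theorem cs {f g : X → ℝ} (hf : Bd f) (hg : Bd g) :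
    ρ (fun x => f x * g x) ^ 2 ≤ ρ (fun x => f x ^ 2) * ρ (fun x => g x ^ 2) := by
  set p := ρ (fun x => f x ^ 2)
  set q := ρ (fun x => f x * g x)
  set r := ρ (fun x => g x ^ 2)
  have key : ∀ t : ℝ, 0 ≤ r * (t * t) + (2 * q) * t + p := by
    intro t
    have h0 := h.nonneg (fun x => (f x + t * g x) ^ 2) (hf.add (hg.smul t)).sq
      (fun x => sq_nonneg _)
    have e : (fun x => (f x + t * g x) ^ 2) =
        fun x => (f x ^ 2 + (2 * t) * (f x * g x)) + (t * t) * g x ^ 2 := by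
      funext x; ring
    rw [e, h.add _ _ (hf.sq.add ((hf.mul hg).smul _)) (hg.sq.smul _),
      h.add _ _ hf.sq ((hf.mul hg).smul _), h.smul _ _ (hf.mul hg), h.smul _ _ hg.sq] at h0
    linarith
  have h1 := discrim_le_zero key
  unfold discrim at h1
  nlinarith

end Pf

/-- invariant means -/
structure Mean {X : Type} (T : X → X) (ρ : (X → ℝ) → ℝ) (K : ℝ) : Prop extends Pf ρ K where
  inv : ∀ f, Bd f → ρ (fun x => f (T x)) = ρ f

namespace Mean

variable {X : Type} {T : X → X} {ρ : (X → ℝ) → ℝ} {K : ℝ} (h : Mean T ρ K)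

include h

theorem inv_iter {f : X → ℝ} (hf : Bd f) (t : ℕ) : ρ (fun x => f (T^[t] x)) = ρ f := by
  induction t with
  | zero => simp
  | succ t ih =>
    rw [← ih]
    have := h.inv (fun x => f (T^[t] x)) (hf.comp _)
    rw [← this]
    congr 1

end Mean

/-- Birkhoff sums -/
def Sb {X : Type} (T : X → X) (f : X → ℝ) (n : ℕ) (x : X) : ℝ := ∑ i ∈ Finset.range n, f (T^[i] x)

section

variable {X : Type} {T : X → X} {f : X → ℝ}

theorem Sb_zero (x : X) : Sb T f 0 x = 0 := by simp [Sb]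

theorem Sb_succ (n : ℕ) (x : X) : Sb T f (n + 1) x = Sb T f n x + f (T^[n] x) := by
  simp [Sb, Finset.sum_range_succ]

theorem Sb_add (m n : ℕ) (x : X) : Sb T f (m + n) x = Sb T f m x + Sb T f n (T^[m] x) := by
  unfold Sb
  rw [Finset.sum_range_add]
  congr 1
  refine Finset.sum_congr rfl ?_
  intro i _
  rw [add_comm m i, Function.iterate_add_apply]

theorem Sb_abs_le (hf : ∀ x, |f x| ≤ 1) (n : ℕ) (x : X) : |Sb T f n x| ≤ n := by
  induction n with
  | zero => simp [Sb_zero]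
  | succ n ih =>
    rw [Sb_succ]
    push_cast
    exact le_trans (abs_add_le _ _) (add_le_add ih (hf _))

theorem Sb_Bd (hf : ∀ x, |f x| ≤ 1) (n : ℕ) : Bd (Sb T f n) := ⟨n, Sb_abs_le hf n⟩

theorem Sb_shift (hf : ∀ x, |f x| ≤ 1) (n j : ℕ) (x : X) :
    |Sb T f n (T^[j] x) - Sb T f n x| ≤ 2 * j := by
  have h1 := Sb_add (T := T) (f := f) j n x
  have h2 := Sb_add (T := T) (f := f) n j x
  rw [add_comm j n, h2] at h1
  have h3 : Sb T f n (T^[j] x) - Sb T f n x = Sb T f j (T^[n] x) - Sb T f j x := by linarith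
  rw [h3]
  have h4 := Sb_abs_le (T := T) hf j (T^[n] x)
  have h5 := Sb_abs_le (T := T) hf j x
  refine le_trans (abs_sub _ _) ?_
  linarith

/-- the telescoping estimate -/
theorem Sb_tele (hf : ∀ x, |f x| ≤ 1) (n R : ℕ) (x : X) :
    |∑ j ∈ Finset.range R, Sb T f n (T^[j + 1] x)| ≤ n * |Sb T f R x| + 2 * (n : ℝ) ^ 2 := by
  induction n with
  | zero => simp [Sb_zero]
  | succ n ih =>
    have e : ∑ j ∈ Finset.range R, Sb T f (n + 1) (T^[j + 1] x) =
        ∑ j ∈ Finset.range R, Sb T f n (T^[j + 1] x) + Sb T f R (T^[n + 1] x) := by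
      unfold Sb
      rw [← Finset.sum_add_distrib]
      refine Finset.sum_congr rfl ?_
      intro j _
      rw [Finset.sum_range_succ]
      congr 2
      rw [← Function.iterate_add_apply, ← Function.iterate_add_apply]
      congr 1
      ring
    rw [e]
    have h1 := Sb_shift (T := T) hf R (n + 1) x
    have h2 : |Sb T f R (T^[n + 1] x)| ≤ |Sb T f R x| + 2 * ((n + 1 : ℕ) : ℝ) := by
      have := abs_sub_abs_le_abs_sub (Sb T f R (T^[n + 1] x)) (Sb T f R x)
      linarith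
    refine le_trans (abs_add_le _ _) ?_
    push_cast at h2 ⊢
    have h3 : (0 : ℝ) ≤ n := Nat.cast_nonneg n
    nlinarith

/-- averages over the first `R` shifts -/
noncomputable def Av1 (T : X → X) (R : ℕ) (y : X → ℝ) (x : X) : ℝ :=
  (1 / (R : ℝ)) * ∑ k ∈ Finset.range R, y (T^[k] x)

theorem Av1_Bd {y : X → ℝ} (hy : Bd y) (R : ℕ) : Bd (Av1 T R y) :=
  (Bd.sum _ (fun _ _ => hy.comp _)).smul _

end

section

variable {X : Type} {T : X → X} {ρ : (X → ℝ) → ℝ} {K : ℝ} {f b : X → ℝ}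

/-- the convex invariant set used in the mean ergodic argument -/
def CC (T : X → X) (ρ : (X → ℝ) → ℝ) (f b y : X → ℝ) : Prop :=
  Bd y ∧ (∃ D, ∀ n, |ρ (fun x => b x * Sb T f n x) - ρ (fun x => y x * Sb T f n x)| ≤ D) ∧
    (∀ n, Tendsto (fun R : ℕ => ρ (fun x => Av1 T R y x * Sb T f n (T^[R] x))) atTop (𝓝 0))

theorem CC_convex (h : Mean T ρ K) (hf : ∀ x, |f x| ≤ 1) {y z : X → ℝ}
    (hy : CC T ρ f b y) (hz : CC T ρ f b z) {α β : ℝ} (hα : 0 ≤ α) (hβ : 0 ≤ β)
    (hαβ : α + β = 1) : CC T ρ f b (fun x => α * y x + β * z x) := by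
  obtain ⟨hy1, ⟨D, hD⟩, hy3⟩ := hy
  obtain ⟨hz1, ⟨E, hE⟩, hz3⟩ := hz
  refine ⟨(hy1.smul α).add (hz1.smul β), ⟨α * D + β * E, ?_⟩, ?_⟩
  · intro n
    have hS := Sb_Bd (T := T) hf n
    have e : (fun x => (α * y x + β * z x) * Sb T f n x) =
        fun x => α * (y x * Sb T f n x) + β * (z x * Sb T f n x) := by
      funext x; ring
    rw [e, h.add _ _ ((hy1.mul hS).smul α) ((hz1.mul hS).smul β), h.smul _ _ (hy1.mul hS),
      h.smul _ _ (hz1.mul hS)]
    set p := ρ (fun x => b x * Sb T f n x)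
    set q := ρ (fun x => y x * Sb T f n x)
    set r := ρ (fun x => z x * Sb T f n x)
    have e2 : p - (α * q + β * r) = α * (p - q) + β * (p - r) := by
      have : p = (α + β) * p := by rw [hαβ, one_mul]
      linear_combination this
    rw [e2]
    refine le_trans (abs_add_le _ _) ?_
    rw [abs_mul, abs_mul, abs_of_nonneg hα, abs_of_nonneg hβ]
    exact add_le_add (mul_le_mul_of_nonneg_left (hD n) hα)
      (mul_le_mul_of_nonneg_left (hE n) hβ)
  · intro n
    have h1 := ((hy3 n).const_mul α).add ((hz3 n).const_mul β)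
    simp only [mul_zero, add_zero] at h1
    refine h1.congr ?_
    intro R
    have hS : Bd (fun x => Sb T f n (T^[R] x)) := (Sb_Bd (T := T) hf n).comp _
    rw [← h.smul _ _ ((Av1_Bd hy1 R).mul hS), ← h.smul _ _ ((Av1_Bd hz1 R).mul hS),
      ← h.add _ _ (((Av1_Bd hy1 R).mul hS).smul α) (((Av1_Bd hz1 R).mul hS).smul β)]
    congr 1
    funext x
    unfold Av1
    rw [Finset.sum_add_distrib, ← Finset.mul_sum, ← Finset.mul_sum]
    ring

theorem CC_shift (h : Mean T ρ K) (hf : ∀ x, |f x| ≤ 1) {y : X → ℝ}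
    (hy : CC T ρ f b y) : CC T ρ f b (fun x => y (T x)) := by
  obtain ⟨hy1, ⟨D, hD⟩, hy3⟩ := hy
  obtain ⟨B, hB0, hB⟩ := hy1.pos
  have hK := h.K_nonneg
  refine ⟨hy1.comp T, ⟨D + K * (B * 2), ?_⟩, ?_⟩
  · intro n
    have hS := Sb_Bd (T := T) hf n
    have e1 : ρ (fun x => y x * Sb T f n x) = ρ (fun x => y (T x) * Sb T f n (T x)) :=
      (h.inv _ (hy1.mul hS)).symm
    have e2 : ρ (fun x => y (T x) * Sb T f n (T x)) - ρ (fun x => y (T x) * Sb T f n x) =
        ρ (fun x => y (T x) * (Sb T f n (T x) - Sb T f n x)) := by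
      rw [← h.sub ((hy1.comp T).mul (hS.comp T)) ((hy1.comp T).mul hS)]
      congr 1
      funext x
      ring
    have h3 : |ρ (fun x => y (T x) * (Sb T f n (T x) - Sb T f n x))| ≤ K * (B * 2) := by
      refine h.abs_le_const (by positivity) ?_
      intro x
      rw [abs_mul]
      refine mul_le_mul (hB _) ?_ (abs_nonneg _) hB0
      have := Sb_shift (T := T) hf n 1 x
      simpa using this
    have h4 := hD n
    rw [e1] at h4
    have h5 : ρ (fun x => b x * Sb T f n x) - ρ (fun x => y (T x) * Sb T f n x) =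
        (ρ (fun x => b x * Sb T f n x) - ρ (fun x => y (T x) * Sb T f n (T x))) +
        ρ (fun x => y (T x) * (Sb T f n (T x) - Sb T f n x)) := by
      rw [← e2]; ring
    rw [h5]
    exact le_trans (abs_add_le _ _) (add_le_add h4 h3)
  · intro n
    have hbd : ∀ R : ℕ, |ρ (fun x => Av1 T R (fun x => y (T x)) x * Sb T f n (T^[R] x)) -
        ρ (fun x => Av1 T R y x * Sb T f n (T^[R] x))| ≤ K * (2 * B * n) / R := by
      intro R
      have hS : Bd (fun x => Sb T f n (T^[R] x)) := (Sb_Bd (T := T) hf n).comp _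
      have e : (fun x => Av1 T R (fun x => y (T x)) x * Sb T f n (T^[R] x) -
          Av1 T R y x * Sb T f n (T^[R] x)) =
          fun x => (1 / (R : ℝ)) * ((y (T^[R] x) - y x) * Sb T f n (T^[R] x)) := by
        funext x
        unfold Av1
        have h1 : ∑ k ∈ Finset.range R, y (T (T^[k] x)) =
            ∑ k ∈ Finset.range R, y (T^[k] x) + (y (T^[R] x) - y x) := by
          have h2 := Finset.sum_range_succ (fun k => y (T^[k] x)) R
          have h3 := Finset.sum_range_succ' (fun k => y (T^[k] x)) R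
          simp only [Function.iterate_succ_apply', Function.iterate_zero, id] at h3
          linarith
        rw [h1]
        ring
      rw [← h.sub ((Av1_Bd (hy1.comp T) R).mul hS) ((Av1_Bd hy1 R).mul hS), e,
        h.smul _ _ (((hy1.comp _).sub hy1).mul hS), abs_mul]
      have h4 : |ρ (fun x => (y (T^[R] x) - y x) * Sb T f n (T^[R] x))| ≤ K * (2 * B * n) := by
        refine h.abs_le_const (by positivity) ?_
        intro x
        rw [abs_mul]
        refine mul_le_mul ?_ (Sb_abs_le hf n _) (abs_nonneg _) (by positivity)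
        refine le_trans (abs_sub _ _) ?_
        linarith [hB (T^[R] x), hB x]
      rw [abs_of_nonneg (by positivity : (0 : ℝ) ≤ 1 / R)]
      calc 1 / (R : ℝ) * |ρ (fun x => (y (T^[R] x) - y x) * Sb T f n (T^[R] x))|
          ≤ 1 / (R : ℝ) * (K * (2 * B * n)) := mul_le_mul_of_nonneg_left h4 (by positivity)
        _ = K * (2 * B * n) / R := by ring
    have h0 : Tendsto (fun R : ℕ => K * (2 * B * n) / R) atTop (𝓝 0) :=
      tendsto_const_div_atTop_nhds_zero_nat _
    have h1 : Tendsto (fun R : ℕ => ρ (fun x => Av1 T R (fun x => y (T x)) x *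
        Sb T f n (T^[R] x)) - ρ (fun x => Av1 T R y x * Sb T f n (T^[R] x))) atTop (𝓝 0) :=
      squeeze_zero_norm (fun R => by rw [Real.norm_eq_abs]; exact hbd R) h0
    have h2 := h1.add (hy3 n)
    simp only [sub_add_cancel, add_zero] at h2
    exact h2

theorem CC_iter (h : Mean T ρ K) (hf : ∀ x, |f x| ≤ 1) {y : X → ℝ}
    (hy : CC T ρ f b y) (t : ℕ) : CC T ρ f b (fun x => y (T^[t] x)) := by
  induction t with
  | zero => simpa using hy
  | succ t ih =>
    have := CC_shift h hf ih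
    refine (iff_of_eq ?_).1 this
    congr 1

theorem CC_av (h : Mean T ρ K) (hf : ∀ x, |f x| ≤ 1) {y : X → ℝ}
    (hy : CC T ρ f b y) (R : ℕ) : CC T ρ f b (Av1 T (R + 1) y) := by
  induction R with
  | zero =>
    have e : Av1 T (0 + 1) y = y := by
      funext x
      simp [Av1]
    rw [e]
    exact hy
  | succ R ih =>
    have hR : (0 : ℝ) < (R : ℝ) + 1 := by positivity
    have hR2 : (0 : ℝ) < (R : ℝ) + 2 := by positivity
    have h1 := CC_convex h hf ih (CC_iter h hf hy (R + 1)) (α := ((R : ℝ) + 1) / (R + 2))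
      (β := 1 / ((R : ℝ) + 2)) (by positivity) (by positivity) (by field_simp; ring)
    have e : Av1 T (R + 1 + 1) y = fun x => ((R : ℝ) + 1) / (R + 2) * Av1 T (R + 1) y x +
        1 / ((R : ℝ) + 2) * y (T^[R + 1] x) := by
      funext x
      unfold Av1
      rw [Finset.sum_range_succ _ (R + 1)]
      push_cast
      have h2 : (R : ℝ) + 1 + 1 = R + 2 := by ring
      rw [h2]
      field_simp
    rw [e]
    exact h1

theorem CC_base (h : Mean T ρ K) (hf : ∀ x, |f x| ≤ 1) (hb : Bd b)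
    (hsub : Tendsto (fun R : ℕ => ρ (fun x => |Sb T f R x|) / R) atTop (𝓝 0)) :
    CC T ρ f b b := by
  obtain ⟨B, hB0, hB⟩ := hb.pos
  have hK := h.K_nonneg
  refine ⟨hb, ⟨0, fun n => by simp⟩, ?_⟩
  intro n
  have hbd : ∀ R : ℕ, |ρ (fun x => Av1 T R b x * Sb T f n (T^[R] x))| ≤
      B * n * (ρ (fun x => |Sb T f R x|) / R) + K * (B * (2 * (n : ℝ) ^ 2)) / R := by
    intro R
    have hS : ∀ j, Bd (fun x => Sb T f n (T^[j] x)) := fun j => (Sb_Bd (T := T) hf n).comp _
    -- move all shifts to the cocycle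
    have e1 : ρ (fun x => Av1 T R b x * Sb T f n (T^[R] x)) =
        (1 / (R : ℝ)) * ρ (fun x => b x * ∑ j ∈ Finset.range R, Sb T f n (T^[j + 1] x)) := by
      have e2 : (fun x => Av1 T R b x * Sb T f n (T^[R] x)) =
          fun x => (1 / (R : ℝ)) * ∑ k ∈ Finset.range R, b (T^[k] x) * Sb T f n (T^[R] x) := by
        funext x
        unfold Av1
        rw [mul_assoc, Finset.sum_mul]
      rw [e2, h.smul _ _ (Bd.sum _ (fun k _ => (hb.comp _).mul (hS R))),
        h.sum _ _ (fun k _ => (hb.comp _).mul (hS R))]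
      congr 1
      have e3 : (fun x => b x * ∑ j ∈ Finset.range R, Sb T f n (T^[j + 1] x)) =
          fun x => ∑ j ∈ Finset.range R, b x * Sb T f n (T^[j + 1] x) := by
        funext x
        rw [Finset.mul_sum]
      rw [e3, h.sum _ _ (fun j _ => hb.mul (hS (j + 1)))]
      rw [← Finset.sum_range_reflect (fun j => ρ (fun x => b x * Sb T f n (T^[j + 1] x))) R]
      refine Finset.sum_congr rfl ?_
      intro k hk
      have hk' := Finset.mem_range.1 hk
      have h1 := h.inv_iter (f := fun x => b x * Sb T f n (T^[R - 1 - k + 1] x))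
        (hb.mul (hS _)) k
      rw [← h1]
      congr 1
      funext x
      congr 2
      rw [← Function.iterate_add_apply]
      congr 1
      omega
    rw [e1, abs_mul, abs_of_nonneg (by positivity : (0 : ℝ) ≤ 1 / R)]
    have hSR := Sb_Bd (T := T) hf R
    have h2 : |ρ (fun x => b x * ∑ j ∈ Finset.range R, Sb T f n (T^[j + 1] x))| ≤
        B * n * ρ (fun x => |Sb T f R x|) + K * (B * (2 * (n : ℝ) ^ 2)) := by
      have hb1 : Bd (fun x => b x * ∑ j ∈ Finset.range R, Sb T f n (T^[j + 1] x)) :=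
        hb.mul (Bd.sum _ (fun j _ => hS (j + 1)))
      refine le_trans (h.abs_le_abs hb1) ?_
      have h3 : ρ (fun x => |b x * ∑ j ∈ Finset.range R, Sb T f n (T^[j + 1] x)|) ≤
          ρ (fun x => (B * n) * |Sb T f R x| + (B * (2 * (n : ℝ) ^ 2)) * 1) := by
        refine h.mono hb1.abs ((hSR.abs.smul _).add ((Bd.const 1).smul _)) ?_
        intro x
        rw [abs_mul]
        have h4 := Sb_tele (T := T) hf n R x
        calc |b x| * |∑ j ∈ Finset.range R, Sb T f n (T^[j + 1] x)|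
            ≤ B * (n * |Sb T f R x| + 2 * (n : ℝ) ^ 2) :=
              mul_le_mul (hB x) h4 (abs_nonneg _) hB0
          _ = (B * n) * |Sb T f R x| + (B * (2 * (n : ℝ) ^ 2)) * 1 := by ring
      refine le_trans h3 ?_
      rw [h.add _ _ (hSR.abs.smul _) ((Bd.const 1).smul _), h.smul _ _ hSR.abs,
        h.smul _ _ (Bd.const 1)]
      have h5 : B * (2 * (n : ℝ) ^ 2) * ρ (fun _ => 1) ≤ K * (B * (2 * (n : ℝ) ^ 2)) := by
        rw [mul_comm]
        exact mul_le_mul_of_nonneg_right h.one (by positivity)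
      linarith
    calc 1 / (R : ℝ) * |ρ (fun x => b x * ∑ j ∈ Finset.range R, Sb T f n (T^[j + 1] x))|
        ≤ 1 / (R : ℝ) * (B * n * ρ (fun x => |Sb T f R x|) + K * (B * (2 * (n : ℝ) ^ 2))) :=
          mul_le_mul_of_nonneg_left h2 (by positivity)
      _ = B * n * (ρ (fun x => |Sb T f R x|) / R) + K * (B * (2 * (n : ℝ) ^ 2)) / R := by
          ring
  have h0 : Tendsto (fun R : ℕ => B * n * (ρ (fun x => |Sb T f R x|) / R) +
      K * (B * (2 * (n : ℝ) ^ 2)) / R) atTop (𝓝 0) := by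
    have h1 := (hsub.const_mul (B * n)).add
      (tendsto_const_div_atTop_nhds_zero_nat (K * (B * (2 * (n : ℝ) ^ 2))))
    simpa using h1
  exact squeeze_zero_norm (fun R => by rw [Real.norm_eq_abs]; exact hbd R) h0

/-- correlations of a bounded function with the Birkhoff sums of a sublinear cocycle -/
theorem persist (h : Mean T ρ K) (hf : ∀ x, |f x| ≤ 1) (hb : Bd b)
    (hsub : Tendsto (fun R : ℕ => ρ (fun x => |Sb T f R x|) / R) atTop (𝓝 0))
    {ε : ℝ} (hε : 0 < ε) :
    ∃ D : ℝ, 0 ≤ D ∧ ∀ n : ℕ, |ρ (fun x => b x * Sb T f n x)| ≤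
      D + ε * Real.sqrt (ρ (fun x => Sb T f n x ^ 2)) := by
  -- a near minimiser of the norm
  set Q : Set ℝ := {q | ∃ y, CC T ρ f b y ∧ q = ρ (fun x => y x ^ 2)} with hQ
  have hbb := CC_base h hf hb hsub
  have hne : Q.Nonempty := ⟨_, b, hbb, rfl⟩
  have hbdd : BddBelow Q := ⟨0, by
    rintro q ⟨y, hy, rfl⟩
    exact h.nonneg _ hy.1.sq (fun x => sq_nonneg _)⟩
  have hε2 : 0 < ε ^ 2 / 4 := by positivity
  obtain ⟨q, ⟨y, hy, rfl⟩, hq⟩ := exists_lt_of_csInf_lt hne
    (show sInf Q < sInf Q + ε ^ 2 / 4 by linarith)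
  have hmin : ∀ z, CC T ρ f b z → ρ (fun x => y x ^ 2) - ε ^ 2 / 4 ≤ ρ (fun x => z x ^ 2) := by
    intro z hz
    have := csInf_le hbdd ⟨z, hz, rfl⟩
    linarith
  have hyc := hy
  obtain ⟨hy1, ⟨D, hD⟩, hy3⟩ := hyc
  refine ⟨max D 0, le_max_right _ _, ?_⟩
  intro n
  have hS := Sb_Bd (T := T) hf n
  have hSn0 : 0 ≤ ρ (fun x => Sb T f n x ^ 2) := h.nonneg _ hS.sq (fun x => sq_nonneg _)
  -- bound for `y`
  have hyS : |ρ (fun x => y x * Sb T f n x)| ≤ ε * Real.sqrt (ρ (fun x => Sb T f n x ^ 2)) := by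
    have hlim := (hy3 n).comp (tendsto_add_atTop_nat 1)
    have hlim2 := (hlim.abs).const_add (ε * Real.sqrt (ρ (fun x => Sb T f n x ^ 2)))
    simp only [abs_zero, add_zero, Function.comp_def] at hlim2
    refine ge_of_tendsto' hlim2 ?_
    intro R
    have hSR : Bd (fun x => Sb T f n (T^[R + 1] x)) := hS.comp _
    have hyR : Bd (fun x => y (T^[R + 1] x)) := hy1.comp _
    have hAR := Av1_Bd (T := T) hy1 (R + 1)
    have e1 : ρ (fun x => y x * Sb T f n x) =
        ρ (fun x => y (T^[R + 1] x) * Sb T f n (T^[R + 1] x)) :=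
      (h.inv_iter (hy1.mul hS) (R + 1)).symm
    have e2 : ρ (fun x => y (T^[R + 1] x) * Sb T f n (T^[R + 1] x)) =
        ρ (fun x => (y (T^[R + 1] x) - Av1 T (R + 1) y x) * Sb T f n (T^[R + 1] x)) +
        ρ (fun x => Av1 T (R + 1) y x * Sb T f n (T^[R + 1] x)) := by
      rw [← h.add _ _ ((hyR.sub hAR).mul hSR) (hAR.mul hSR)]
      congr 1
      funext x
      ring
    rw [e1, e2]
    refine le_trans (abs_add_le _ _) ?_
    gcongr
    -- Cauchy-Schwarz
    have hcs := h.cs (hyR.sub hAR) hSR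
    have e3 : ρ (fun x => Sb T f n (T^[R + 1] x) ^ 2) = ρ (fun x => Sb T f n x ^ 2) :=
      h.inv_iter hS.sq (R + 1)
    rw [e3] at hcs
    have hdist : ρ (fun x => (y (T^[R + 1] x) - Av1 T (R + 1) y x) ^ 2) ≤ ε ^ 2 := by
      have c1 := CC_iter h hf hy (R + 1)
      have c2 := CC_av h hf hy R
      have c3 := CC_convex h hf c1 c2 (α := 1 / 2) (β := 1 / 2) (by norm_num) (by norm_num)
        (by norm_num)
      have m3 := hmin _ c3
      have q1 : ρ (fun x => y (T^[R + 1] x) ^ 2) = ρ (fun x => y x ^ 2) :=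
        h.inv_iter hy1.sq (R + 1)
      have q2 : ρ (fun x => Av1 T (R + 1) y x ^ 2) ≤ ρ (fun x => y x ^ 2) := by
        have h1 : ρ (fun x => Av1 T (R + 1) y x ^ 2) ≤
            ρ (fun x => (1 / ((R + 1 : ℕ) : ℝ)) * ∑ k ∈ Finset.range (R + 1), y (T^[k] x) ^ 2) := by
          refine h.mono hAR.sq ((Bd.sum _ (fun k _ => (hy1.comp _).sq)).smul _) ?_
          intro x
          unfold Av1
          have h2 := sq_sum_le_card_mul_sum_sq (s := Finset.range (R + 1))
            (f := fun k => y (T^[k] x))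
          rw [Finset.card_range] at h2
          have hR : (0 : ℝ) < ((R + 1 : ℕ) : ℝ) := by positivity
          rw [mul_pow]
          calc (1 / ((R + 1 : ℕ) : ℝ)) ^ 2 * (∑ k ∈ Finset.range (R + 1), y (T^[k] x)) ^ 2
              ≤ (1 / ((R + 1 : ℕ) : ℝ)) ^ 2 *
                (((R + 1 : ℕ) : ℝ) * ∑ k ∈ Finset.range (R + 1), y (T^[k] x) ^ 2) :=
                mul_le_mul_of_nonneg_left h2 (by positivity)
            _ = (1 / ((R + 1 : ℕ) : ℝ)) * ∑ k ∈ Finset.range (R + 1), y (T^[k] x) ^ 2 := by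
                field_simp
        refine le_trans h1 ?_
        rw [h.smul _ _ (Bd.sum _ (fun k _ => (hy1.comp _).sq)),
          h.sum _ _ (fun k _ => (hy1.comp _).sq)]
        have h3 : ∀ k ∈ Finset.range (R + 1), ρ (fun x => y (T^[k] x) ^ 2) =
            ρ (fun x => y x ^ 2) := fun k _ => h.inv_iter hy1.sq k
        rw [Finset.sum_congr rfl h3, Finset.sum_const, Finset.card_range, nsmul_eq_mul]
        have hR : (0 : ℝ) < ((R + 1 : ℕ) : ℝ) := by positivity
        apply le_of_eq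
        field_simp
      -- parallelogram
      have e4 : ρ (fun x => (y (T^[R + 1] x) - Av1 T (R + 1) y x) ^ 2) =
          2 * ρ (fun x => y (T^[R + 1] x) ^ 2) + 2 * ρ (fun x => Av1 T (R + 1) y x ^ 2) -
          4 * ρ (fun x => (1 / 2 * y (T^[R + 1] x) + 1 / 2 * Av1 T (R + 1) y x) ^ 2) := by
        rw [← h.smul 2 _ hyR.sq, ← h.smul 2 _ hAR.sq,
          ← h.smul 4 _ ((hyR.smul (1 / 2)).add (hAR.smul (1 / 2))).sq,
          ← h.add _ _ (hyR.sq.smul 2) (hAR.sq.smul 2),
          ← h.sub ((hyR.sq.smul 2).add (hAR.sq.smul 2))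
            (((hyR.smul (1 / 2)).add (hAR.smul (1 / 2))).sq.smul 4)]
        congr 1
        funext x
        ring
      rw [e4]
      linarith
    have h6 : |ρ (fun x => (y (T^[R + 1] x) - Av1 T (R + 1) y x) * Sb T f n (T^[R + 1] x))| ^ 2 ≤
        (ε * Real.sqrt (ρ (fun x => Sb T f n x ^ 2))) ^ 2 := by
      rw [sq_abs, mul_pow, Real.sq_sqrt hSn0]
      exact le_trans hcs (mul_le_mul_of_nonneg_right hdist hSn0)
    exact le_of_sq_le_sq h6 (by positivity)
  have h7 := hD n
  have h8 : ρ (fun x => b x * Sb T f n x) =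
      (ρ (fun x => b x * Sb T f n x) - ρ (fun x => y x * Sb T f n x)) +
        ρ (fun x => y x * Sb T f n x) := by ring
  rw [h8]
  refine le_trans (abs_add_le _ _) (add_le_add (le_trans h7 (le_max_left _ _)) hyS)

end

end Pool.Agent.Bubble
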