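import Pool.Agent.Bubble.Cross

/-! Comparison of finite walks with the two-sided limit: combinatorial part. -/

namespace Pool.Agent.Bubble

open Finset Pool.Agent.SubBall Filter Topology
open Classical

variable {S V : Type} [Fintype S] [Inhabited S] [AddCommGroup V]

/-- the walk `z` avoids the first `g` steps of `p` -/
def Kp (vec : S → V) (m g : ℕ) (z p : ℕ → S) : Prop :=
  ∀ i ≤ m, ∀ j, 1 ≤ j → j ≤ g → pos vec z i ≠ pos vec p j

/-- weight of the extensions which avoid a pattern -/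
noncomputable def kp (vec : S → V) (μ : ℝ) (g : ℕ) (m : ℕ) (p : ℕ → S) : ℝ :=
  Ex vec μ m (fun z => ind (Kp vec m g z p))

/-- the infimum of these weights -/
noncomputable def io (vec : S → V) (μ : ℝ) (g : ℕ) (p : ℕ → S) : ℝ := ⨅ m, kp vec μ g m p

omit [Fintype S] in
theorem Kp_cut {vec : S → V} {m g : ℕ} {z p : ℕ → S} :
    Kp vec m g z (cut g p) ↔ Kp vec m g z p := by
  constructor
  · intro hj i h1 j h3 h4
    have := hj i h1 j h3 h4
    rwa [pos_cut vec p h4] at this
  · intro hj i h1 j h3 h4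
    rw [pos_cut vec p h4]
    exact hj i h1 j h3 h4

theorem kp_cut (vec : S → V) (μ : ℝ) (g m : ℕ) (p : ℕ → S) :
    kp vec μ g m (cut g p) = kp vec μ g m p := by
  unfold kp
  congr 1
  funext z
  have : Kp vec m g z (cut g p) = Kp vec m g z p := propext Kp_cut
  rw [this]

theorem io_cut (vec : S → V) (μ : ℝ) (g : ℕ) (p : ℕ → S) :
    io vec μ g (cut g p) = io vec μ g p := by
  unfold io
  congr 1
  funext m
  exact kp_cut vec μ g m p

section

variable {vec : S → V} {μ K : ℝ} (h : Cr vec μ K)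

include h

theorem Cr.kp_nonneg (g m : ℕ) (p : ℕ → S) : 0 ≤ kp vec μ g m p :=
  (h.PfEx m).nonneg _ (Bd_ind _) (fun _ => ind_nonneg _)

theorem Cr.kp_le (g m : ℕ) (p : ℕ → S) : kp vec μ g m p ≤ K := by
  have := (h.PfEx m).mono (Bd_ind (fun z => Kp vec m g z p)) (Bd.const 1)
    (fun z => ind_le_one _)
  exact le_trans this (h.PfEx m).one

theorem Cr.kp_add_le (g m l : ℕ) (p : ℕ → S) :
    kp vec μ g (m + l) p ≤ kp vec μ g m p * K := by
  have h1 := Ex_split (vec := vec) h.mpos m l (fun z => ind (Kp vec m g z p)) (fun _ => 1)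
    (fun _ => ind_nonneg _) (fun _ => zero_le_one)
  have h2 : kp vec μ g (m + l) p ≤
      Ex vec μ (m + l) (fun w => ind (Kp vec m g (cut m w) p) * 1) := by
    unfold kp
    refine (h.PfEx (m + l)).mono (Bd_ind _) ((Bd_ind _).mul (Bd.const 1)) ?_
    intro w
    rw [mul_one]
    apply ind_mono
    intro hk i hi j h1 h2
    rw [pos_cut vec w hi]
    exact hk i (by omega) j h1 h2
  refine le_trans h2 (le_trans h1 ?_)
  exact mul_le_mul_of_nonneg_left (h.PfEx l).one (h.kp_nonneg g m p)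

theorem Cr.io_le (g m : ℕ) (p : ℕ → S) : io vec μ g p ≤ kp vec μ g m p :=
  ciInf_le ⟨0, by rintro x ⟨m, rfl⟩; exact h.kp_nonneg g m p⟩ m

theorem Cr.io_nonneg (g : ℕ) (p : ℕ → S) : 0 ≤ io vec μ g p :=
  le_ciInf (fun m => h.kp_nonneg g m p)

theorem Cr.io_le_K (g : ℕ) (p : ℕ → S) : io vec μ g p ≤ K :=
  le_trans (h.io_le g 0 p) (h.kp_le g 0 p)

/-- for long extensions the weight is controlled by the infimum -/
theorem Cr.kp_io (g : ℕ) {ε : ℝ} (hε : 0 < ε) :
    ∃ k₀ : ℕ, ∀ k ≥ k₀, ∀ p, kp vec μ g k p ≤ K * (io vec μ g p + ε) := by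
  have h1 : ∀ p : ℕ → S, ∃ m, kp vec μ g m p < io vec μ g p + ε := by
    intro p
    exact exists_lt_of_ciInf_lt (show io vec μ g p < io vec μ g p + ε by linarith)
  choose m hm using h1
  refine ⟨∑ p ∈ words S g, m p, fun k hk p => ?_⟩
  have h2 : m (cut g p) ≤ k :=
    le_trans (Finset.single_le_sum (f := m) (fun _ _ => Nat.zero_le _) (cut_mem_words g p)) hk
  obtain ⟨l, rfl⟩ := Nat.exists_eq_add_of_le h2
  rw [← kp_cut, ← io_cut]
  refine le_trans (h.kp_add_le g _ l _) ?_
  rw [mul_comm]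
  exact mul_le_mul_of_nonneg_left (hm _).le h.K_nonneg

end

/-- the truncated absolute value -/
noncomputable def ps (a l x : ℝ) : ℝ := min (a * |x|) l

theorem ps_nonneg {a l : ℝ} (ha : 0 ≤ a) (hl : 0 ≤ l) (x : ℝ) : 0 ≤ ps a l x :=
  le_min (mul_nonneg ha (abs_nonneg _)) hl

theorem ps_le (a l x : ℝ) : ps a l x ≤ l := min_le_right _ _

theorem ps_le' (a l x : ℝ) : ps a l x ≤ a * |x| := min_le_left _ _

theorem ps_lip {a l : ℝ} (ha : 0 ≤ a) (x y : ℝ) : ps a l x ≤ ps a l y + a * |x - y| := by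
  unfold ps
  have h1 : |x| ≤ |y| + |x - y| := by
    have := abs_add_le y (x - y)
    simpa using this
  have h2 := mul_le_mul_of_nonneg_left h1 ha
  have h3 : 0 ≤ a * |x - y| := mul_nonneg ha (abs_nonneg _)
  rcases le_total (a * |y|) l with h4 | h4
  · rw [min_eq_left h4]
    refine le_trans (min_le_left _ _) ?_
    linarith
  · rw [min_eq_right h4]
    refine le_trans (min_le_right _ _) ?_
    linarith

theorem ps_abs_le {a l : ℝ} (ha : 0 ≤ a) (hl : 0 ≤ l) (x : ℝ) : |ps a l x| ≤ l := by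
  rw [abs_of_nonneg (ps_nonneg ha hl x)]
  exact ps_le _ _ _

theorem ps_Bd {X : Type} {a l : ℝ} (ha : 0 ≤ a) (hl : 0 ≤ l) (f : X → ℝ) :
    Bd (fun x => ps a l (f x)) := ⟨l, fun _ => ps_abs_le ha hl _⟩

section

variable {vec : S → V} {μ K : ℝ} (h : Cr vec μ K) {φ : V →+ ℤ} (hφ : Lip vec φ)
  (ν : Sym vec) (hν : ∀ v, ν.L v = -v)

include h hφ hν

/-- upper bound: cut off both ends of a walk -/
theorem Cr.upper {a l : ℝ} (ha : 0 ≤ a) (hl : 0 ≤ l) {g N : ℕ} (hg : g ≤ N) (k : ℕ) :
    Ex vec μ (k + (N + k)) (fun w => ps a l (xv vec φ (k + (N + k)) w)) ≤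
      Ex vec μ N (fun η => (ps a l (xv vec φ N η) + a * (2 * k)) *
        (kp vec μ g k η * kp vec μ g k (rv ν N η))) := by
  have hμ := h.mpos
  set Q : (ℕ → S) → ℝ := fun η => ps a l (xv vec φ N η) + a * (2 * k) with hQ
  have hQ0 : ∀ η, 0 ≤ Q η := by
    intro η
    have := ps_nonneg ha hl (xv vec φ N η)
    simp only [hQ]
    positivity
  -- pointwise bound
  have h1 : ∀ w ∈ saws vec (k + (N + k)), ps a l (xv vec φ (k + (N + k)) w) ≤
      ind (Kp vec k g (rv ν k w) (sh k w)) *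
        (Q (cut N (sh k w)) * ind (Kp vec k g (sh N (sh k w)) (rv ν N (cut N (sh k w))))) := by
    intro w hw
    have hw2 := (mem_saws.1 hw).2
    have hA := av_split ν hν hw2
    have hv := mem_saws.1 (sh_mem_saws hw)
    have c1 : Kp vec k g (rv ν k w) (sh k w) := by
      intro i hi j hj1 hj2 he
      have := hA i hi j (by omega) he
      omega
    have hA2 := av_split ν hν hv.2
    have c2 : Kp vec k g (sh N (sh k w)) (rv ν N (cut N (sh k w))) := by
      intro i hi j hj1 hj2 he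
      rw [rv_cut] at he
      have := hA2 j (by omega) i hi he.symm
      omega
    have e1 : ind (Kp vec k g (rv ν k w) (sh k w)) = 1 := by simp [ind, c1]
    have e2 : ind (Kp vec k g (sh N (sh k w)) (rv ν N (cut N (sh k w)))) = 1 := by
      simp [ind, c2]
    rw [e1, e2, one_mul, mul_one]
    simp only [hQ]
    rw [xv_cut]
    refine le_trans (ps_lip ha _ (xv vec φ N (sh k w))) ?_
    gcongr
    have e3 : xv vec φ (k + (N + k)) w - xv vec φ N (sh k w) =
        xv vec φ k w + xv vec φ k (sh N (sh k w)) := by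
      unfold xv
      rw [pos_add vec w k (N + k), pos_add vec (sh k w) N k, map_add, map_add]
      push_cast
      ring
    rw [e3]
    refine le_trans (abs_add_le _ _) ?_
    have b1 := xv_abs_le hφ k w
    have b2 := xv_abs_le hφ k (sh N (sh k w))
    linarith
  unfold Ex
  rw [div_le_div_iff₀ (by positivity) (by positivity)]
  -- sum over the pairs
  have h2 : ∑ w ∈ saws vec (k + (N + k)), ps a l (xv vec φ (k + (N + k)) w) ≤
      ∑ v ∈ saws vec (N + k), (∑ u ∈ saws vec k, ind (Kp vec k g u (cut N v))) *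
        (Q (cut N v) * ind (Kp vec k g (sh N v) (rv ν N (cut N v)))) := by
    refine le_trans (Finset.sum_le_sum h1) ?_
    have h3 := sum_jn ν hν k (N + k) (fun u v => ind (Kp vec k g u v) *
        (Q (cut N v) * ind (Kp vec k g (sh N v) (rv ν N (cut N v)))))
    rw [h3, Finset.sum_comm]
    refine Finset.sum_le_sum (fun v _ => ?_)
    rw [Finset.sum_mul]
    refine Finset.sum_le_sum (fun u _ => ?_)
    have e4 : ind (Kp vec k g u (cut N v)) = ind (Kp vec k g u v) := by
      have : Kp vec k g u (cut N v) = Kp vec k g u v := by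
        apply propext
        constructor
        · intro hj i h1 j h3 h4
          have := hj i h1 j h3 h4
          rwa [pos_cut vec v (by omega)] at this
        · intro hj i h1 j h3 h4
          rw [pos_cut vec v (by omega)]
          exact hj i h1 j h3 h4
      rw [this]
    rw [e4]
    split_ifs
    · exact le_rfl
    · exact mul_nonneg (ind_nonneg _) (mul_nonneg (hQ0 _) (ind_nonneg _))
  have h4 := sum_split_le vec N k (fun η β => (∑ u ∈ saws vec k, ind (Kp vec k g u η)) *
        (Q η * ind (Kp vec k g β (rv ν N η))))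
    (fun η β => mul_nonneg (Finset.sum_nonneg (fun _ _ => ind_nonneg _))
      (mul_nonneg (hQ0 _) (ind_nonneg _)))
  have h5 := le_trans h2 h4
  have h6 : ∑ η ∈ saws vec N, ∑ β ∈ saws vec k, (∑ u ∈ saws vec k, ind (Kp vec k g u η)) *
        (Q η * ind (Kp vec k g β (rv ν N η))) =
      (∑ η ∈ saws vec N, Q η * (kp vec μ g k η * kp vec μ g k (rv ν N η))) *
        (μ ^ k * μ ^ k) := by
    rw [Finset.sum_mul]
    refine Finset.sum_congr rfl (fun η _ => ?_)
    rw [← Finset.mul_sum, ← Finset.mul_sum]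
    unfold kp Ex
    field_simp
  rw [h6] at h5
  have h7 : μ ^ (k + (N + k)) = (μ ^ k * μ ^ k) * μ ^ N := by
    rw [← pow_add, ← pow_add]
    congr 1
    omega
  rw [h7]
  calc (∑ w ∈ saws vec (k + (N + k)), ps a l (xv vec φ (k + (N + k)) w)) * μ ^ N
      ≤ ((∑ η ∈ saws vec N, Q η * (kp vec μ g k η * kp vec μ g k (rv ν N η))) *
        (μ ^ k * μ ^ k)) * μ ^ N := mul_le_mul_of_nonneg_right h5 (by positivity)
    _ = _ := by ring

end

/-- the good configurations -/
theorem good_of {vec : S → V} (ν : Sym vec) (hν : ∀ v, ν.L v = -v) {m n g N N₁ N₂ : ℕ}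
    (hN : N = N₁ + N₂) {α η β : ℕ → S} (hα : α ∈ saws vec m) (hη : η ∈ saws vec N)
    (hβ : β ∈ saws vec n)
    (k1 : Kp vec m g α η) (k2 : Kp vec n g β (rv ν N η))
    (b1 : ¬ Hit vec g ((m, N), (α, η))) (b2 : ¬ Hit vec g ((N, n), (rv ν N η, β)))
    (b3 : ¬ (jn ν N₁ η α ∈ saws vec (N₁ + m) ∧ app N₂ (sh N₁ η) β ∈ saws vec (N₂ + n) ∧
      Hit vec N₁ ((N₁ + m, N₂ + n), (jn ν N₁ η α, app N₂ (sh N₁ η) β)))) :
    jn ν m α (app N η β) ∈ saws vec (m + (N + n)) := by
  have hα' := mem_saws.1 hα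
  have hη' := mem_saws.1 hη
  have hβ' := mem_saws.1 hβ
  -- `α` avoids `η`
  have A1 : ∀ i ≤ m, ∀ j, 1 ≤ j → j ≤ N → pos vec α i ≠ pos vec η j := by
    intro i hi j h1 h2 he
    rcases le_or_gt j g with h3 | h3
    · exact k1 i hi j h1 h3 he
    · exact b1 ⟨i, hi, j, h2, Or.inr h3, he⟩
  -- `β` avoids the reversal of `η`
  have A2 : ∀ i ≤ n, ∀ j, 1 ≤ j → j ≤ N → pos vec β i ≠ pos vec (rv ν N η) j := by
    intro i hi j h1 h2 he
    rcases le_or_gt j g with h3 | h3
    · exact k2 i hi j h1 h3 he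
    · exact b2 ⟨j, h2, i, hi, Or.inl h3, he.symm⟩
  have hP : jn ν N₁ η α ∈ saws vec (N₁ + m) := by
    have h1 : Saw vec N₁ η := fun i j hij hj => hη'.2 i j hij (by omega)
    refine jn_mem_saws ν hν h1 hα ?_
    intro i hi j hj he
    by_cases hi0 : i = 0
    · refine ⟨hi0, ?_⟩
      by_contra hj0
      rw [hi0, pos_zero] at he
      exact hα'.2 0 j (by omega) hj (by rw [pos_zero, he])
    · exact absurd he.symm (A1 j hj i (by omega) (by omega))
  have hrvrv : rv ν N₂ (rv ν N₂ (sh N₁ η)) = sh N₁ η := by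
    rw [rv_rv]
    exact cut_of_tail (fun a ha => hη'.1 _ (by omega))
  have hQ : app N₂ (sh N₁ η) β ∈ saws vec (N₂ + n) := by
    have e1 : app N₂ (sh N₁ η) β = jn ν N₂ (rv ν N₂ (sh N₁ η)) β := by
      unfold jn
      rw [hrvrv]
    rw [e1]
    have h0 : Saw vec (N₁ + N₂) η := by rw [← hN]; exact hη'.2
    refine jn_mem_saws ν hν (saw_rv ν hν h0.sh) hβ ?_
    intro i hi j hj he
    have e2 : pos vec (rv ν N₂ (sh N₁ η)) i = pos vec (rv ν N η) i := by
      rw [pos_rv ν hν _ _ hi, pos_rv ν hν _ _ (by omega)]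
      have a1 := pos_add vec η N₁ (N₂ - i)
      have a2 := pos_add vec η N₁ N₂
      have a3 : N₁ + (N₂ - i) = N - i := by omega
      rw [a3] at a1
      rw [← hN] at a2
      rw [a1, a2]
      abel
    rw [e2] at he
    by_cases hi0 : i = 0
    · refine ⟨hi0, ?_⟩
      by_contra hj0
      rw [hi0, pos_zero] at he
      exact hβ'.2 0 j (by omega) hj (by rw [pos_zero, he])
    · exact absurd he.symm (A2 j hj i (by omega) (by omega))
  have A3 : ∀ i ≤ m, 1 ≤ i → ∀ j ≤ n, pos vec α i ≠ pos vec η N + pos vec β j := by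
    intro i hi hi1 j hj he
    refine b3 ⟨hP, hQ, N₁ + i, by simp only; omega, N₂ + j, by simp only; omega,
      Or.inl (by omega), ?_⟩
    simp only
    rw [pos_jn_add ν hν, pos_app_add, he]
    have a2 := pos_add vec η N₁ N₂
    rw [← hN] at a2
    rw [a2]
    abel
  -- the whole walk
  have hv : app N η β ∈ saws vec (N + n) := by
    have e1 : app N η β = jn ν N (rv ν N η) β := by
      unfold jn
      rw [rv_rv, cut_of_tail hη'.1]
    rw [e1]
    refine jn_mem_saws ν hν (saw_rv ν hν hη'.2) hβ ?_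
    intro i hi j hj he
    by_cases hi0 : i = 0
    · refine ⟨hi0, ?_⟩
      by_contra hj0
      rw [hi0, pos_zero] at he
      exact hβ'.2 0 j (by omega) hj (by rw [pos_zero, he])
    · exact absurd he.symm (A2 j hj i (by omega) (by omega))
  refine jn_mem_saws ν hν hα'.2 hv ?_
  intro i hi j hj he
  rcases le_or_gt j N with h1 | h1
  · rw [pos_app_le _ _ _ h1] at he
    by_cases hj0 : j = 0
    · refine ⟨?_, hj0⟩
      by_contra hi0
      rw [hj0, pos_zero] at he
      exact hα'.2 0 i (by omega) hi (by rw [pos_zero, he])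
    · exact absurd he (A1 i hi j (by omega) h1)
  · obtain ⟨j', rfl⟩ := Nat.exists_eq_add_of_le h1.le
    rw [pos_app_add] at he
    exfalso
    by_cases hi0 : i = 0
    · rw [hi0, pos_zero] at he
      refine A2 j' (by omega) N ?_ le_rfl ?_
      · by_contra hN0
        have : N = 0 := by omega
        rw [this, pos_zero, zero_add] at he
        exact hβ'.2 0 j' (by omega) (by omega) (by rw [pos_zero, he])
      · rw [pos_rv_end ν hν]
        exact eq_neg_of_add_eq_zero_right he.symm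
    · exact A3 i hi (by omega) j' (by omega) he

end Pool.Agent.Bubble
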