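import Pool.Agent.Bubble.Trans

/-! Comparison of finite walks with the two-sided limit. -/

namespace Pool.Agent.Bubble

open Finset Pool.Agent.SubBall Filter Topology
open Classical

variable {S V : Type} [Fintype S] [Inhabited S] [AddCommGroup V]

theorem sum_rv {vec : S → V} (ν : Sym vec) (hν : ∀ v, ν.L v = -v) (N : ℕ)
    (F : (ℕ → S) → ℝ) : ∑ η ∈ saws vec N, F (rv ν N η) = ∑ η ∈ saws vec N, F η := by
  refine Finset.sum_nbij' (fun η => rv ν N η) (fun η => rv ν N η) ?_ ?_ ?_ ?_ ?_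
  · intro η hη
    exact rv_mem_saws ν hν (mem_saws.1 hη).2
  · intro η hη
    exact rv_mem_saws ν hν (mem_saws.1 hη).2
  · intro η hη
    rw [rv_rv, cut_of_tail (mem_saws.1 hη).1]
  · intro η hη
    rw [rv_rv, cut_of_tail (mem_saws.1 hη).1]
  · intro η _
    rfl

section

variable {vec : S → V} {μ K : ℝ} (h : Cr vec μ K) (φ : V →+ ℤ)
  (ν : Sym vec) (hν : ∀ v, ν.L v = -v)

include h

theorem Cr.card_le (n : ℕ) : ((saws vec n).card : ℝ) ≤ K * μ ^ n := by
  have hμ := h.mpos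
  have h1 := h.le n
  unfold an at h1
  rwa [div_le_iff₀ (by positivity)] at h1

theorem Cr.hit_sum_le (g m n : ℕ) :
    ∑ q ∈ saws vec m ×ˢ saws vec n, ind (Hit vec g ((m, n), q)) ≤
      K ^ 2 * dl vec μ g * μ ^ (m + n) := by
  have hμ := h.mpos
  have h1 := h.hit_le g (m, n)
  unfold Ex2 at h1
  simp only at h1
  rwa [div_le_iff₀ (by positivity)] at h1

include hν

/-- lower bound: glue two-sided extensions -/
theorem Cr.lower {a l : ℝ} (ha : 0 ≤ a) (hl : 0 ≤ l) {g N N₁ N₂ : ℕ} (hN : N = N₁ + N₂)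
    (m n : ℕ) :
    Ex vec μ N (fun η => ps a l (xv vec φ N η) * (kp vec μ g m η * kp vec μ g n (rv ν N η))) ≤
      Ex vec μ (m + (N + n)) (fun w => ps a l (xv vec φ N (sh m w))) +
        l * (2 * K ^ 3 * dl vec μ g + K ^ 2 * dl vec μ N₁) := by
  have hμ := h.mpos
  have hK0 := h.K_nonneg
  have hd1 := h.dl_nonneg g
  have hd2 := h.dl_nonneg N₁
  set T : Finset ((ℕ → S) × ((ℕ → S) × (ℕ → S))) :=
    saws vec m ×ˢ (saws vec N ×ˢ saws vec n) with hT
  set G : (ℕ → S) × ((ℕ → S) × (ℕ → S)) → Prop := fun t =>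
    jn ν m t.1 (app N t.2.1 t.2.2) ∈ saws vec (m + (N + n)) with hG
  set B1 : (ℕ → S) × ((ℕ → S) × (ℕ → S)) → Prop := fun t =>
    Hit vec g ((m, N), (t.1, t.2.1)) with hB1
  set B2 : (ℕ → S) × ((ℕ → S) × (ℕ → S)) → Prop := fun t =>
    Hit vec g ((N, n), (rv ν N t.2.1, t.2.2)) with hB2
  set B3 : (ℕ → S) × ((ℕ → S) × (ℕ → S)) → Prop := fun t =>
    (jn ν N₁ t.2.1 t.1 ∈ saws vec (N₁ + m) ∧ app N₂ (sh N₁ t.2.1) t.2.2 ∈ saws vec (N₂ + n) ∧
      Hit vec N₁ ((N₁ + m, N₂ + n), (jn ν N₁ t.2.1 t.1, app N₂ (sh N₁ t.2.1) t.2.2))) with hB3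
  -- pointwise bound
  have h1 : ∀ t ∈ T, ps a l (xv vec φ N t.2.1) *
      (ind (Kp vec m g t.1 t.2.1) * ind (Kp vec n g t.2.2 (rv ν N t.2.1))) ≤
      ind (G t) * ps a l (xv vec φ N t.2.1) + l * (ind (B1 t) + ind (B2 t) + ind (B3 t)) := by
    rintro ⟨α, η, β⟩ ht
    rw [hT, Finset.mem_product, Finset.mem_product] at ht
    obtain ⟨hα, hη, hβ⟩ := ht
    simp only at hα hη hβ ⊢
    have p0 := ps_nonneg ha hl (xv vec φ N η)
    have p1 := ps_le a l (xv vec φ N η)
    by_cases k1 : Kp vec m g α η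
    · by_cases k2 : Kp vec n g β (rv ν N η)
      · have e1 : ind (Kp vec m g α η) = 1 := by simp [ind, k1]
        have e2 : ind (Kp vec n g β (rv ν N η)) = 1 := by simp [ind, k2]
        rw [e1, e2, mul_one, mul_one]
        have q1 := ind_nonneg (B1 (α, η, β))
        have q2 := ind_nonneg (B2 (α, η, β))
        have q3 := ind_nonneg (B3 (α, η, β))
        have q0 := mul_nonneg (ind_nonneg (G (α, η, β))) p0
        by_cases b1 : B1 (α, η, β)
        · have e3 : ind (B1 (α, η, β)) = 1 := by simp [ind, b1]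
          rw [e3]
          nlinarith
        by_cases b2 : B2 (α, η, β)
        · have e3 : ind (B2 (α, η, β)) = 1 := by simp [ind, b2]
          rw [e3]
          nlinarith
        by_cases b3 : B3 (α, η, β)
        · have e3 : ind (B3 (α, η, β)) = 1 := by simp [ind, b3]
          rw [e3]
          nlinarith
        have hg : G (α, η, β) := good_of ν hν hN hα hη hβ k1 k2 b1 b2 b3
        have e3 : ind (G (α, η, β)) = 1 := by simp [ind, hg]
        rw [e3, one_mul]
        have : 0 ≤ l * (ind (B1 (α, η, β)) + ind (B2 (α, η, β)) + ind (B3 (α, η, β))) :=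
          mul_nonneg hl (by positivity)
        linarith
      · have e2 : ind (Kp vec n g β (rv ν N η)) = 0 := by simp [ind, k2]
        rw [e2, mul_zero, mul_zero]
        exact add_nonneg (mul_nonneg (ind_nonneg _) p0) (mul_nonneg hl
          (add_nonneg (add_nonneg (ind_nonneg _) (ind_nonneg _)) (ind_nonneg _)))
    · have e1 : ind (Kp vec m g α η) = 0 := by simp [ind, k1]
      rw [e1, zero_mul, mul_zero]
      exact add_nonneg (mul_nonneg (ind_nonneg _) p0) (mul_nonneg hl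
        (add_nonneg (add_nonneg (ind_nonneg _) (ind_nonneg _)) (ind_nonneg _)))
  -- the good part
  have h2 : ∑ t ∈ T, ind (G t) * ps a l (xv vec φ N t.2.1) ≤
      ∑ w ∈ saws vec (m + (N + n)), ps a l (xv vec φ N (sh m w)) := by
    have e1 : ∑ t ∈ T, ind (G t) * ps a l (xv vec φ N t.2.1) =
        ∑ t ∈ T.filter G, ps a l (xv vec φ N t.2.1) := by
      rw [Finset.sum_filter]
      refine Finset.sum_congr rfl (fun t _ => ?_)
      unfold ind
      split_ifs <;> simp
    rw [e1]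
    refine sum_le_sum_inj _ _ (fun t => jn ν m t.1 (app N t.2.1 t.2.2)) _
      (fun w => ps a l (xv vec φ N (sh m w))) ?_ ?_ ?_ ?_
    · intro t ht
      exact (Finset.mem_filter.1 ht).2
    · rintro ⟨α, η, β⟩ ht ⟨α', η', β'⟩ ht' heq
      rw [Finset.mem_coe, Finset.mem_filter, hT, Finset.mem_product, Finset.mem_product] at ht ht'
      obtain ⟨⟨hα, hη, hβ⟩, -⟩ := ht
      obtain ⟨⟨hα', hη', hβ'⟩, -⟩ := ht'
      simp only at hα hη hβ hα' hη' hβ' heq
      have a1 := rv_jn ν (m := m) (u := α) (v := app N η β) (mem_saws.1 hα).1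
      have a2 := rv_jn ν (m := m) (u := α') (v := app N η' β') (mem_saws.1 hα').1
      rw [heq, a2] at a1
      have a3 := sh_jn ν m α (app N η β)
      have a4 := sh_jn ν m α' (app N η' β')
      rw [heq, a4] at a3
      have a5 := cut_app (m := N) (u := η) (v := β) (mem_saws.1 hη).1
      have a6 := cut_app (m := N) (u := η') (v := β') (mem_saws.1 hη').1
      rw [← a3, a6] at a5
      have a7 := sh_app N η β
      have a8 := sh_app N η' β'
      rw [← a3, a8] at a7
      rw [Prod.mk.injEq, Prod.mk.injEq]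
      exact ⟨a1.symm, a5.symm, a7.symm⟩
    · rintro ⟨α, η, β⟩ _
      simp only
      rw [sh_jn]
      apply le_of_eq
      congr 1
      unfold xv
      rw [pos_app_le _ _ _ le_rfl]
    · intro w _
      exact ps_nonneg ha hl _
  -- the bad parts
  have h3 : ∑ t ∈ T, ind (B1 t) ≤ K ^ 3 * dl vec μ g * (μ ^ m * μ ^ N * μ ^ n) := by
    have e1 : ∑ t ∈ T, ind (B1 t) =
        (∑ q ∈ saws vec m ×ˢ saws vec N, ind (Hit vec g ((m, N), q))) *
          (saws vec n).card := by
      rw [hT, Finset.sum_product, Finset.sum_product, Finset.sum_mul]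
      refine Finset.sum_congr rfl (fun α _ => ?_)
      rw [Finset.sum_product, Finset.sum_mul]
      refine Finset.sum_congr rfl (fun η _ => ?_)
      simp only [hB1]
      rw [Finset.sum_const, nsmul_eq_mul]
      ring
    rw [e1]
    have e2 := h.hit_sum_le g m N
    have e3 := h.card_le n
    calc (∑ q ∈ saws vec m ×ˢ saws vec N, ind (Hit vec g ((m, N), q))) * (saws vec n).card
        ≤ (K ^ 2 * dl vec μ g * μ ^ (m + N)) * (K * μ ^ n) :=
          mul_le_mul e2 e3 (Nat.cast_nonneg _) (by positivity)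
      _ = K ^ 3 * dl vec μ g * (μ ^ m * μ ^ N * μ ^ n) := by rw [pow_add]; ring
  have h4 : ∑ t ∈ T, ind (B2 t) ≤ K ^ 3 * dl vec μ g * (μ ^ m * μ ^ N * μ ^ n) := by
    have e1 : ∑ t ∈ T, ind (B2 t) =
        (saws vec m).card * (∑ q ∈ saws vec N ×ˢ saws vec n, ind (Hit vec g ((N, n), q))) := by
      rw [hT, Finset.sum_product]
      have e0 : ∀ α ∈ saws vec m, ∑ y ∈ saws vec N ×ˢ saws vec n, ind (B2 (α, y)) =
          ∑ q ∈ saws vec N ×ˢ saws vec n, ind (Hit vec g ((N, n), q)) := by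
        intro α _
        rw [Finset.sum_product, Finset.sum_product]
        exact sum_rv ν hν N (fun η => ∑ β ∈ saws vec n, ind (Hit vec g ((N, n), (η, β))))
      rw [Finset.sum_congr rfl e0, Finset.sum_const, nsmul_eq_mul]
    rw [e1]
    have e2 := h.hit_sum_le g N n
    have e3 := h.card_le m
    have e4 : 0 ≤ ∑ q ∈ saws vec N ×ˢ saws vec n, ind (Hit vec g ((N, n), q)) :=
      Finset.sum_nonneg (fun _ _ => ind_nonneg _)
    calc ((saws vec m).card : ℝ) *
          (∑ q ∈ saws vec N ×ˢ saws vec n, ind (Hit vec g ((N, n), q)))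
        ≤ (K * μ ^ m) * (K ^ 2 * dl vec μ g * μ ^ (N + n)) :=
          mul_le_mul e3 e2 e4 (by positivity)
      _ = K ^ 3 * dl vec μ g * (μ ^ m * μ ^ N * μ ^ n) := by rw [pow_add]; ring
  have h5 : ∑ t ∈ T, ind (B3 t) ≤ K ^ 2 * dl vec μ N₁ * (μ ^ m * μ ^ N * μ ^ n) := by
    have e1 : ∑ t ∈ T, ind (B3 t) = ∑ t ∈ T.filter B3, (1 : ℝ) := by
      rw [Finset.sum_filter]
      refine Finset.sum_congr rfl (fun t _ => ?_)
      by_cases hb : B3 t
      · have : ind (B3 t) = 1 := by simp only [ind, hb, if_true]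
        rw [this]
        exact (if_pos hb).symm
      · have : ind (B3 t) = 0 := by simp only [ind, hb, if_false]
        rw [this]
        exact (if_neg hb).symm
    rw [e1]
    have e2 : ∑ t ∈ T.filter B3, (1 : ℝ) ≤
        ∑ q ∈ saws vec (N₁ + m) ×ˢ saws vec (N₂ + n),
          ind (Hit vec N₁ ((N₁ + m, N₂ + n), q)) := by
      refine sum_le_sum_inj _ _
        (fun t => (jn ν N₁ t.2.1 t.1, app N₂ (sh N₁ t.2.1) t.2.2)) _ _ ?_ ?_ ?_ ?_
      · intro t ht
        have := (Finset.mem_filter.1 ht).2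
        exact Finset.mem_product.2 ⟨this.1, this.2.1⟩
      · rintro ⟨α, η, β⟩ ht ⟨α', η', β'⟩ ht' heq
        rw [Finset.mem_coe, Finset.mem_filter, hT, Finset.mem_product,
          Finset.mem_product] at ht ht'
        obtain ⟨⟨hα, hη, hβ⟩, -⟩ := ht
        obtain ⟨⟨hα', hη', hβ'⟩, -⟩ := ht'
        simp only at hα hη hβ hα' hη' hβ'
        simp only [Prod.mk.injEq] at heq
        obtain ⟨q1, q2⟩ := heq
        have a1 := sh_jn ν N₁ η α
        have a2 := sh_jn ν N₁ η' α'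
        rw [q1, a2] at a1
        have a3 : cut N₁ η = cut N₁ η' := by
          have b1 : cut N₁ (jn ν N₁ η α) = rv ν N₁ η := by
            unfold jn
            exact cut_app (fun a ha => rv_tail ν N₁ η ha)
          have b2 : cut N₁ (jn ν N₁ η' α') = rv ν N₁ η' := by
            unfold jn
            exact cut_app (fun a ha => rv_tail ν N₁ η' ha)
          rw [q1, b2] at b1
          rw [← rv_rv ν N₁ η, ← rv_rv ν N₁ η', b1]
        have a4 : sh N₁ η = sh N₁ η' := by
          have b1 := cut_app (m := N₂) (u := sh N₁ η) (v := β)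
            (fun a ha => (mem_saws.1 hη).1 _ (by omega))
          have b2 := cut_app (m := N₂) (u := sh N₁ η') (v := β')
            (fun a ha => (mem_saws.1 hη').1 _ (by omega))
          rw [q2, b2] at b1
          exact b1.symm
        have a5 := sh_app N₂ (sh N₁ η) β
        have a6 := sh_app N₂ (sh N₁ η') β'
        rw [q2, a6] at a5
        rw [Prod.mk.injEq, Prod.mk.injEq]
        exact ⟨a1.symm, eq_of_cut_sh a3 a4, a5.symm⟩
      · intro t ht
        have := (Finset.mem_filter.1 ht).2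
        simp [ind, this.2.2]
      · intro q _
        exact ind_nonneg _
    refine le_trans e2 (le_trans (h.hit_sum_le N₁ (N₁ + m) (N₂ + n)) (le_of_eq ?_))
    rw [← pow_add, ← pow_add]
    congr 2
    omega
  -- conclusion
  have h6 : Ex vec μ N (fun η => ps a l (xv vec φ N η) *
      (kp vec μ g m η * kp vec μ g n (rv ν N η))) * (μ ^ m * μ ^ N * μ ^ n) =
      ∑ t ∈ T, ps a l (xv vec φ N t.2.1) *
        (ind (Kp vec m g t.1 t.2.1) * ind (Kp vec n g t.2.2 (rv ν N t.2.1))) := by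
    rw [hT, Finset.sum_product]
    simp only [Finset.sum_product]
    rw [Finset.sum_comm]
    unfold Ex
    rw [div_mul_eq_mul_div, div_eq_iff (by positivity), Finset.sum_mul, Finset.sum_mul]
    refine Finset.sum_congr rfl (fun η _ => ?_)
    have e1 : ∑ α ∈ saws vec m, ∑ β ∈ saws vec n, ps a l (xv vec φ N η) *
        (ind (Kp vec m g α η) * ind (Kp vec n g β (rv ν N η))) =
        ps a l (xv vec φ N η) * ((∑ α ∈ saws vec m, ind (Kp vec m g α η)) *
          (∑ β ∈ saws vec n, ind (Kp vec n g β (rv ν N η)))) := by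
      rw [Finset.sum_mul_sum, Finset.mul_sum]
      refine Finset.sum_congr rfl (fun α _ => ?_)
      rw [Finset.mul_sum]
    rw [e1]
    unfold kp Ex
    field_simp
  have h7 : Ex vec μ (m + (N + n)) (fun w => ps a l (xv vec φ N (sh m w))) *
      (μ ^ m * μ ^ N * μ ^ n) = ∑ w ∈ saws vec (m + (N + n)), ps a l (xv vec φ N (sh m w)) := by
    unfold Ex
    have : μ ^ (m + (N + n)) = μ ^ m * μ ^ N * μ ^ n := by rw [pow_add, pow_add]; ring
    rw [this]
    field_simp
  have hpos : 0 < μ ^ m * μ ^ N * μ ^ n := by positivity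
  refine le_of_mul_le_mul_right ?_ hpos
  rw [h6, add_mul, h7]
  refine le_trans (Finset.sum_le_sum h1) ?_
  rw [Finset.sum_add_distrib, ← Finset.mul_sum, Finset.sum_add_distrib,
    Finset.sum_add_distrib]
  have h8 : l * (∑ t ∈ T, ind (B1 t) + ∑ t ∈ T, ind (B2 t) + ∑ t ∈ T, ind (B3 t)) ≤
      l * (K ^ 3 * dl vec μ g * (μ ^ m * μ ^ N * μ ^ n) +
        K ^ 3 * dl vec μ g * (μ ^ m * μ ^ N * μ ^ n) +
        K ^ 2 * dl vec μ N₁ * (μ ^ m * μ ^ N * μ ^ n)) :=
    mul_le_mul_of_nonneg_left (add_le_add (add_le_add h3 h4) h5) hl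
  have h9 : l * (K ^ 3 * dl vec μ g * (μ ^ m * μ ^ N * μ ^ n) +
        K ^ 3 * dl vec μ g * (μ ^ m * μ ^ N * μ ^ n) +
        K ^ 2 * dl vec μ N₁ * (μ ^ m * μ ^ N * μ ^ n)) =
      l * (2 * K ^ 3 * dl vec μ g + K ^ 2 * dl vec μ N₁) * (μ ^ m * μ ^ N * μ ^ n) := by ring
  linarith

/-- lower bound for the two-sided limit functional -/
theorem Cr.Rh_lower {a l : ℝ} (ha : 0 ≤ a) (hl : 0 ≤ l) {g N N₁ N₂ : ℕ}
    (hN : N = N₁ + N₂) :
    Ex vec μ N (fun η => ps a l (xv vec φ N η) * (io vec μ g η * io vec μ g (rv ν N η))) ≤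
      Rh vec μ (fun x => ps a l (Sb Ts (fx vec φ) N x)) +
        l * (2 * K ^ 3 * dl vec μ g + K ^ 2 * dl vec μ N₁) := by
  have hμ := h.mpos
  have hK0 := h.K_nonneg
  set Λ : ℝ := Ex vec μ N (fun η => ps a l (xv vec φ N η) *
    (io vec μ g η * io vec μ g (rv ν N η))) -
    l * (2 * K ^ 3 * dl vec μ g + K ^ 2 * dl vec μ N₁) with hΛ
  have hpsB : Bd (fun x => ps a l (Sb Ts (fx vec φ) N x)) := ps_Bd ha hl _
  suffices hs : Λ ≤ Rh vec μ (fun x => ps a l (Sb Ts (fx vec φ) N x)) by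
    rw [hΛ] at hs
    linarith
  -- every long term is at least `Λ`
  have hterm : ∀ m n : ℕ, Λ ≤ Ex vec μ (m + (N + n))
      (fun w => ps a l (Sb Ts (fx vec φ) N (w, m))) := by
    intro m n
    have h1 := h.lower φ ν hν ha hl (g := g) hN m n
    have h2 : Ex vec μ N (fun η => ps a l (xv vec φ N η) *
        (io vec μ g η * io vec μ g (rv ν N η))) ≤
        Ex vec μ N (fun η => ps a l (xv vec φ N η) *
          (kp vec μ g m η * kp vec μ g n (rv ν N η))) := by
      unfold Ex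
      refine div_le_div_of_nonneg_right (Finset.sum_le_sum (fun η _ => ?_)) (by positivity)
      refine mul_le_mul_of_nonneg_left ?_ (ps_nonneg ha hl _)
      exact mul_le_mul (h.io_le g m η) (h.io_le g n _) (h.io_nonneg g _) (h.kp_nonneg g m η)
    have h3 : (fun w : ℕ → S => ps a l (Sb Ts (fx vec φ) N (w, m))) =
        fun w => ps a l (xv vec φ N (sh m w)) := by
      funext w
      rw [Sb_eq]
    rw [h3, hΛ]
    linarith
  have hb : ∀ M, |RM vec μ M (fun x => ps a l (Sb Ts (fx vec φ) N x))| ≤ K * l :=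
    fun M => (h.PfRM M).abs_le_const hl (fun x => ps_abs_le ha hl _)
  have he : Tendsto (fun M : ℕ => (N : ℝ) * |Λ| / (M : ℝ)) atTop (𝓝 0) :=
    tendsto_const_div_atTop_nhds_zero_nat _
  refine const_le_ul hb he ?_
  filter_upwards [eventually_gt_atTop N] with M hM
  have hM0 : (0 : ℝ) < M := by
    have : 0 < M := by omega
    exact_mod_cast this
  obtain ⟨r, rfl⟩ : ∃ r, M = N + r := ⟨M - N, by omega⟩
  have h1 : ((N + r : ℕ) : ℝ) * (r * Λ) ≤ ∑ p ∈ range (N + r) ×ˢ range (N + r),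
      Ex vec μ (p.1 + p.2) (fun w => ps a l (Sb Ts (fx vec φ) N (w, p.1))) := by
    rw [Finset.sum_product]
    have h2 : ∀ m ∈ range (N + r), (r : ℝ) * Λ ≤ ∑ n ∈ range (N + r),
        Ex vec μ (m + n) (fun w => ps a l (Sb Ts (fx vec φ) N (w, m))) := by
      intro m _
      rw [Finset.sum_range_add]
      have h3 : 0 ≤ ∑ n ∈ range N,
          Ex vec μ (m + n) (fun w => ps a l (Sb Ts (fx vec φ) N (w, m))) := by
        refine Finset.sum_nonneg (fun n _ => ?_)
        exact (h.PfEx (m + n)).nonneg _ (ps_Bd ha hl _) (fun w => ps_nonneg ha hl _)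
      have h4 : (r : ℝ) * Λ ≤ ∑ n ∈ range r,
          Ex vec μ (m + (N + n)) (fun w => ps a l (Sb Ts (fx vec φ) N (w, m))) := by
        have := Finset.card_nsmul_le_sum (range r) (fun n => Ex vec μ (m + (N + n))
          (fun w => ps a l (Sb Ts (fx vec φ) N (w, m)))) Λ (fun n _ => hterm m n)
        rwa [Finset.card_range, nsmul_eq_mul] at this
      linarith
    have h5 := Finset.card_nsmul_le_sum (range (N + r)) _ _ h2
    rwa [Finset.card_range, nsmul_eq_mul] at h5
  have h6 : RM vec μ (N + r) (fun x => ps a l (Sb Ts (fx vec φ) N x)) =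
      (∑ p ∈ range (N + r) ×ˢ range (N + r),
      Ex vec μ (p.1 + p.2) (fun w => ps a l (Sb Ts (fx vec φ) N (w, p.1)))) /
        ((N + r : ℕ) : ℝ) ^ 2 := rfl
  rw [h6]
  have h7 : (r : ℝ) * Λ / ((N + r : ℕ) : ℝ) ≤ (∑ p ∈ range (N + r) ×ˢ range (N + r),
      Ex vec μ (p.1 + p.2) (fun w => ps a l (Sb Ts (fx vec φ) N (w, p.1)))) /
        ((N + r : ℕ) : ℝ) ^ 2 := by
    rw [div_le_div_iff₀ hM0 (by positivity)]
    calc (r : ℝ) * Λ * ((N + r : ℕ) : ℝ) ^ 2
        = (((N + r : ℕ) : ℝ) * (r * Λ)) * ((N + r : ℕ) : ℝ) := by ring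
      _ ≤ _ := mul_le_mul_of_nonneg_right h1 hM0.le
  have h8 : Λ = (r : ℝ) * Λ / ((N + r : ℕ) : ℝ) + N * Λ / ((N + r : ℕ) : ℝ) := by
    rw [← add_div, ← add_mul, eq_div_iff hM0.ne']
    push_cast
    ring
  have h9 : N * Λ / ((N + r : ℕ) : ℝ) ≤ N * |Λ| / ((N + r : ℕ) : ℝ) :=
    div_le_div_of_nonneg_right (mul_le_mul_of_nonneg_left (le_abs_self _) (Nat.cast_nonneg _))
      hM0.le
  linarith

/-- finite walks are controlled by the two-sided limit -/
theorem Cr.transfer (hφ : Lip vec φ) {l ε : ℝ} (hl : 0 ≤ l) (hε : 0 < ε) :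
    ∃ k N₀ : ℕ, ∃ a₀ : ℝ, 0 < a₀ ∧ ∀ N ≥ N₀, ∀ a : ℝ, 0 ≤ a → a ≤ a₀ →
      Ex vec μ (k + (N + k)) (fun w => ps a l (xv vec φ (k + (N + k)) w)) ≤
        K ^ 2 * Rh vec μ (fun x => ps a l (Sb Ts (fx vec φ) N x)) + ε := by
  have hμ := h.mpos
  have hK1 := h.one_le_K
  have hK0 : 0 < K := by linarith
  -- choice of the pattern length
  obtain ⟨g, hg⟩ : ∃ g, dl vec μ g ≤ ε / (16 * K ^ 5 * (l + 1)) := by
    have := (h.dl_tendsto.eventually (gt_mem_nhds
      (show 0 < ε / (16 * K ^ 5 * (l + 1)) by positivity))).exists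
    obtain ⟨g, hg⟩ := this
    exact ⟨g, le_of_lt hg⟩
  -- choice of the extension length
  set η : ℝ := min 1 (ε / (16 * K ^ 4 * (l + 1))) with hη
  have hη0 : 0 < η := lt_min one_pos (by positivity)
  have hη1 : η ≤ 1 := min_le_left _ _
  have hη2 : η ≤ ε / (16 * K ^ 4 * (l + 1)) := min_le_right _ _
  obtain ⟨k₀, hk₀⟩ := h.kp_io g hη0
  set k := k₀ with hk
  -- choice of the walk length
  obtain ⟨N₁₀, hN₁₀⟩ : ∃ N, ∀ n ≥ N, dl vec μ n ≤ ε / (16 * K ^ 4 * (l + 1)) := by
    have := (h.dl_tendsto.eventually (gt_mem_nhds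
      (show 0 < ε / (16 * K ^ 4 * (l + 1)) by positivity)))
    rw [eventually_atTop] at this
    obtain ⟨N, hN⟩ := this
    exact ⟨N, fun n hn => (hN n hn).le⟩
  refine ⟨k, max g (2 * N₁₀), ε / (16 * K ^ 3 * (k + 1)), by positivity, ?_⟩
  intro N hN a ha ha1
  have hgN : g ≤ N := le_trans (le_max_left _ _) hN
  have hN2 : 2 * N₁₀ ≤ N := le_trans (le_max_right _ _) hN
  have hN12 : N = N₁₀ + (N - N₁₀) := by omega
  have h1 := h.upper hφ ν hν ha hl hgN k
  refine le_trans h1 ?_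
  have h2 := h.Rh_lower φ ν hν ha hl (g := g) hN12
  -- bound the integrand
  have h3 : ∀ η' : ℕ → S, (ps a l (xv vec φ N η') + a * (2 * k)) *
      (kp vec μ g k η' * kp vec μ g k (rv ν N η')) ≤
      K ^ 2 * (ps a l (xv vec φ N η') * (io vec μ g η' * io vec μ g (rv ν N η'))) +
        (l * (3 * K ^ 3 * η) + a * (2 * k) * K ^ 2) * 1 := by
    intro η'
    have p0 := ps_nonneg ha hl (xv vec φ N η')
    have p1 := ps_le a l (xv vec φ N η')
    set x := kp vec μ g k η'
    set y := kp vec μ g k (rv ν N η')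
    set p := io vec μ g η'
    set q := io vec μ g (rv ν N η')
    have x0 : 0 ≤ x := h.kp_nonneg _ _ _
    have y0 : 0 ≤ y := h.kp_nonneg _ _ _
    have xK : x ≤ K := h.kp_le _ _ _
    have yK : y ≤ K := h.kp_le _ _ _
    have q0 : 0 ≤ q := h.io_nonneg _ _
    have pp0 : 0 ≤ p := h.io_nonneg _ _
    have pK : p ≤ K := h.io_le_K _ _
    have qK : q ≤ K := h.io_le_K _ _
    have hx : x ≤ K * (p + η) := hk₀ k le_rfl η'
    have hy : y ≤ K * (q + η) := hk₀ k le_rfl _
    have hxy : x * y ≤ K ^ 2 * (p * q) + 3 * K ^ 3 * η := by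
      calc x * y ≤ (K * (p + η)) * (K * (q + η)) :=
            mul_le_mul hx hy y0 (by positivity)
        _ = K ^ 2 * (p * q) + K ^ 2 * (η * (p + q + η)) := by ring
        _ ≤ K ^ 2 * (p * q) + K ^ 2 * (η * (3 * K)) := by
            have : p + q + η ≤ 3 * K := by linarith
            have h4 : K ^ 2 * (η * (p + q + η)) ≤ K ^ 2 * (η * (3 * K)) :=
              mul_le_mul_of_nonneg_left (mul_le_mul_of_nonneg_left this hη0.le) (by positivity)
            linarith
        _ = K ^ 2 * (p * q) + 3 * K ^ 3 * η := by ring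
    have hxy2 : x * y ≤ K ^ 2 := by
      rw [sq]
      exact mul_le_mul xK yK y0 hK0.le
    have t1 : ps a l (xv vec φ N η') * (x * y) ≤
        K ^ 2 * (ps a l (xv vec φ N η') * (p * q)) + l * (3 * K ^ 3 * η) := by
      calc ps a l (xv vec φ N η') * (x * y)
          ≤ ps a l (xv vec φ N η') * (K ^ 2 * (p * q) + 3 * K ^ 3 * η) :=
            mul_le_mul_of_nonneg_left hxy p0
        _ = K ^ 2 * (ps a l (xv vec φ N η') * (p * q)) +
            ps a l (xv vec φ N η') * (3 * K ^ 3 * η) := by ring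
        _ ≤ K ^ 2 * (ps a l (xv vec φ N η') * (p * q)) + l * (3 * K ^ 3 * η) := by
            have := mul_le_mul_of_nonneg_right p1 (show 0 ≤ 3 * K ^ 3 * η by positivity)
            linarith
    have t2 : a * (2 * k) * (x * y) ≤ a * (2 * k) * K ^ 2 :=
      mul_le_mul_of_nonneg_left hxy2 (by positivity)
    rw [add_mul, mul_one]
    linarith
  have h4 : Ex vec μ N (fun η' => (ps a l (xv vec φ N η') + a * (2 * k)) *
      (kp vec μ g k η' * kp vec μ g k (rv ν N η'))) ≤
      K ^ 2 * Ex vec μ N (fun η' => ps a l (xv vec φ N η') *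
        (io vec μ g η' * io vec μ g (rv ν N η'))) +
        (l * (3 * K ^ 3 * η) + a * (2 * k) * K ^ 2) * K := by
    have e1 : Ex vec μ N (fun η' => (ps a l (xv vec φ N η') + a * (2 * k)) *
      (kp vec μ g k η' * kp vec μ g k (rv ν N η'))) ≤
      Ex vec μ N (fun η' => K ^ 2 * (ps a l (xv vec φ N η') *
        (io vec μ g η' * io vec μ g (rv ν N η'))) +
        (l * (3 * K ^ 3 * η) + a * (2 * k) * K ^ 2) * 1) := by
      unfold Ex
      exact div_le_div_of_nonneg_right (Finset.sum_le_sum (fun η' _ => h3 η')) (by positivity)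
    refine le_trans e1 ?_
    have e2 : Ex vec μ N (fun η' => K ^ 2 * (ps a l (xv vec φ N η') *
        (io vec μ g η' * io vec μ g (rv ν N η'))) +
        (l * (3 * K ^ 3 * η) + a * (2 * k) * K ^ 2) * 1) =
        K ^ 2 * Ex vec μ N (fun η' => ps a l (xv vec φ N η') *
        (io vec μ g η' * io vec μ g (rv ν N η'))) +
        (l * (3 * K ^ 3 * η) + a * (2 * k) * K ^ 2) * Ex vec μ N (fun _ => 1) := by
      unfold Ex
      rw [Finset.sum_add_distrib, ← Finset.mul_sum, ← Finset.mul_sum]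
      ring
    rw [e2]
    have e3 : (l * (3 * K ^ 3 * η) + a * (2 * k) * K ^ 2) * Ex vec μ N (fun _ => 1) ≤
        (l * (3 * K ^ 3 * η) + a * (2 * k) * K ^ 2) * K :=
      mul_le_mul_of_nonneg_left (h.PfEx N).one (by positivity)
    linarith
  refine le_trans h4 ?_
  -- the error terms
  have hd0 := h.dl_nonneg g
  have hd1 := h.dl_nonneg N₁₀
  have hd2 := hN₁₀ N₁₀ le_rfl
  have r1 : K ^ 2 * (l * (2 * K ^ 3 * dl vec μ g)) ≤ ε / 8 := by
    calc K ^ 2 * (l * (2 * K ^ 3 * dl vec μ g)) = 2 * K ^ 5 * l * dl vec μ g := by ring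
      _ ≤ 2 * K ^ 5 * l * (ε / (16 * K ^ 5 * (l + 1))) :=
          mul_le_mul_of_nonneg_left hg (by positivity)
      _ = (l / (l + 1)) * (ε / 8) := by field_simp; ring
      _ ≤ 1 * (ε / 8) := by
          refine mul_le_mul_of_nonneg_right ?_ (by positivity)
          rw [div_le_one (by linarith)]; linarith
      _ = ε / 8 := one_mul _
  have r2 : K ^ 2 * (l * (K ^ 2 * dl vec μ N₁₀)) ≤ ε / 8 := by
    calc K ^ 2 * (l * (K ^ 2 * dl vec μ N₁₀)) = K ^ 4 * l * dl vec μ N₁₀ := by ring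
      _ ≤ K ^ 4 * l * (ε / (16 * K ^ 4 * (l + 1))) :=
          mul_le_mul_of_nonneg_left hd2 (by positivity)
      _ = (l / (l + 1)) * (ε / 16) := by field_simp
      _ ≤ 1 * (ε / 16) := by
          refine mul_le_mul_of_nonneg_right ?_ (by positivity)
          rw [div_le_one (by linarith)]; linarith
      _ ≤ ε / 8 := by linarith
  have r3 : l * (3 * K ^ 3 * η) * K ≤ ε / 4 := by
    calc l * (3 * K ^ 3 * η) * K = 3 * K ^ 4 * l * η := by ring
      _ ≤ 3 * K ^ 4 * l * (ε / (16 * K ^ 4 * (l + 1))) :=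
          mul_le_mul_of_nonneg_left hη2 (by positivity)
      _ = (l / (l + 1)) * (3 * ε / 16) := by field_simp
      _ ≤ 1 * (3 * ε / 16) := by
          refine mul_le_mul_of_nonneg_right ?_ (by positivity)
          rw [div_le_one (by linarith)]; linarith
      _ ≤ ε / 4 := by linarith
  have r4 : a * (2 * k) * K ^ 2 * K ≤ ε / 8 := by
    have hk0 : (0 : ℝ) ≤ k := Nat.cast_nonneg _
    calc a * (2 * k) * K ^ 2 * K = (2 * k * K ^ 3) * a := by ring
      _ ≤ (2 * k * K ^ 3) * (ε / (16 * K ^ 3 * (k + 1))) :=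
          mul_le_mul_of_nonneg_left ha1 (by positivity)
      _ = ((k : ℝ) / (k + 1)) * (ε / 8) := by field_simp; ring
      _ ≤ 1 * (ε / 8) := by
          refine mul_le_mul_of_nonneg_right ?_ (by positivity)
          rw [div_le_one (by linarith)]; linarith
      _ = ε / 8 := one_mul _
  have h5 := mul_le_mul_of_nonneg_left h2 (show 0 ≤ K ^ 2 by positivity)
  nlinarith

end

end Pool.Agent.Bubble
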