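import Pool.Agent.Bubble.Mean

/-! Limits along a nonprincipal ultrafilter. -/

namespace Pool.Agent.Bubble

open Filter Topology

/-- limit along a nonprincipal ultrafilter -/
noncomputable def ul (x : ℕ → ℝ) : ℝ := limUnder (hyperfilter ℕ : Filter ℕ) x

theorem tendsto_ul {x : ℕ → ℝ} {C : ℝ} (h : ∀ n, |x n| ≤ C) :
    Tendsto x (hyperfilter ℕ : Filter ℕ) (𝓝 (ul x)) := by
  have h1 : ((hyperfilter ℕ).map x : Filter ℝ) ≤ 𝓟 (Set.Icc (-C) C) := by
    rw [Filter.le_principal_iff]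
    have h2 : x ⁻¹' Set.Icc (-C) C = Set.univ := Set.eq_univ_of_forall (fun n => abs_le.1 (h n))
    show x ⁻¹' Set.Icc (-C) C ∈ (hyperfilter ℕ : Filter ℕ)
    rw [h2]
    exact Filter.univ_mem
  obtain ⟨L, -, hL⟩ := isCompact_Icc.ultrafilter_le_nhds _ h1
  exact tendsto_nhds_limUnder ⟨L, hL⟩

theorem ul_eq {x : ℕ → ℝ} {L : ℝ} (h : Tendsto x (hyperfilter ℕ : Filter ℕ) (𝓝 L)) :
    ul x = L := h.limUnder_eq

theorem hyp_le : (hyperfilter ℕ : Filter ℕ) ≤ atTop := Nat.hyperfilter_le_atTop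

/-- comparison of limits -/
theorem ul_le {x y e : ℕ → ℝ} {C D : ℝ} (hx : ∀ n, |x n| ≤ C) (hy : ∀ n, |y n| ≤ D)
    (he : Tendsto e atTop (𝓝 0)) (h : ∀ᶠ n in atTop, x n ≤ y n + e n) : ul x ≤ ul y := by
  have h1 := tendsto_ul hx
  have h2 := (tendsto_ul hy).add (he.mono_left hyp_le)
  rw [add_zero] at h2
  exact le_of_tendsto_of_tendsto h1 h2 (h.filter_mono hyp_le)

theorem ul_le_const {x e : ℕ → ℝ} {C L : ℝ} (hx : ∀ n, |x n| ≤ C)
    (he : Tendsto e atTop (𝓝 0)) (h : ∀ᶠ n in atTop, x n ≤ L + e n) : ul x ≤ L := by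
  have h1 := tendsto_ul hx
  have h2 := (tendsto_const_nhds (x := L)).add (he.mono_left hyp_le)
  rw [add_zero] at h2
  exact le_of_tendsto_of_tendsto h1 h2 (h.filter_mono hyp_le)

theorem const_le_ul {x e : ℕ → ℝ} {C L : ℝ} (hx : ∀ n, |x n| ≤ C)
    (he : Tendsto e atTop (𝓝 0)) (h : ∀ᶠ n in atTop, L ≤ x n + e n) : L ≤ ul x := by
  have h1 := tendsto_const_nhds (x := L) (f := (hyperfilter ℕ : Filter ℕ))
  have h2 := (tendsto_ul hx).add (he.mono_left hyp_le)
  rw [add_zero] at h2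
  exact le_of_tendsto_of_tendsto h1 h2 (h.filter_mono hyp_le)

/-- the limit of positive functionals is a positive functional -/
theorem Pf_ul {X : Type} {ρ : ℕ → (X → ℝ) → ℝ} {K : ℝ} (h : ∀ M, Pf (ρ M) K) :
    Pf (fun f => ul (fun M => ρ M f)) K := by
  have hb : ∀ f : X → ℝ, Bd f → ∃ C, ∀ M, |ρ M f| ≤ C := by
    intro f hf
    obtain ⟨C, hC0, hC⟩ := hf.pos
    exact ⟨K * C, fun M => (h M).abs_le_const hC0 hC⟩
  refine ⟨?_, ?_, ?_, ?_⟩
  · intro f g hf hg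
    obtain ⟨C, hC⟩ := hb f hf
    obtain ⟨D, hD⟩ := hb g hg
    apply ul_eq
    have h1 := (tendsto_ul hC).add (tendsto_ul hD)
    exact h1.congr (fun M => ((h M).add f g hf hg).symm)
  · intro c f hf
    obtain ⟨C, hC⟩ := hb f hf
    apply ul_eq
    have h1 := (tendsto_ul hC).const_mul c
    exact h1.congr (fun M => ((h M).smul c f hf).symm)
  · intro f hf hf0
    obtain ⟨C, hC⟩ := hb f hf
    exact const_le_ul (e := fun _ => 0) hC tendsto_const_nhds
      (Eventually.of_forall (fun M => by simpa using (h M).nonneg f hf hf0))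
  · obtain ⟨C, hC⟩ := hb (fun _ => 1) (Bd.const 1)
    exact ul_le_const (e := fun _ => 0) hC tendsto_const_nhds
      (Eventually.of_forall (fun M => by simpa using (h M).one))

end Pool.Agent.Bubble
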